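import Mathlib
import Pool.Agent.Y703.XK.Stm

/-!
# Project JT (helper69): the joint law of several Lagrangian subspaces and one random symmetric matrix

`ι` a finite set of `N` elements, `X ι = F^ι × F^ι` with `F = ZMod 3` and the symplectic form
`ω(x, y) = x.1 ⬝ y.2 - y.1 ⬝ x.2`.  A random symmetric matrix `S` (uniform in `Sy ι`) has the graph
`{(d, S d)}`.  For Lagrangian subspaces `P j` (`j : κ`, a fixed finite set) whose pairwise intersections
and whose intersections with `0 × F^ι` are small compared with `3 ^ N`, the events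
that the graph of `S` meets `P j` only in `0` are asymptotically independent, each of probability
`c9 = ∏ (1 - 3^-(2i+1))`.

Statements of the modules.  Each docstring contains a complete proof.  Please prove `t_NAME : S_NAME`
in `Pool/Agent/<you>/JT/NAME.lean`.
-/

set_option autoImplicit false
set_option linter.unusedVariables false

open scoped Classical

namespace Pool.Agent.D0H69.JT

open Finset
open Pool.Agent.Y703.XK (prs ext GdA c9 S_LA S_SYM S_C9)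

/-- the symplectic space -/
abbrev X (ι : Type) := (ι → ZMod 3) × (ι → ZMod 3)

/-- the symmetric matrices -/
noncomputable def Sy (ι : Type) [Fintype ι] [DecidableEq ι] : Finset (Matrix ι ι (ZMod 3)) :=
  univ.filter fun S => S.IsSymm

/-- `x` is in the graph of `S` -/
def Gr {ι : Type} [Fintype ι] (S : Matrix ι ι (ZMod 3)) (x : X ι) : Prop := S.mulVec x.1 = x.2

/-- Lagrangian subspaces -/
structure Lag {ι : Type} [Fintype ι] (P : Submodule (ZMod 3) (X ι)) : Prop where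
  card : Nat.card P = 3 ^ Fintype.card ι
  iso : ∀ x ∈ P, ∀ y ∈ P, x.1 ⬝ᵥ y.2 = y.1 ⬝ᵥ x.2

/-- the intersection of `P` with `0 × F^ι` -/
def Inf0 {ι : Type} (P : Submodule (ZMod 3) (X ι)) : Set (ι → ZMod 3) := {b | ((0, b) : X ι) ∈ P}

/-- the hypotheses on the subspaces -/
structure Hyp {κ ι : Type} [Fintype κ] [Fintype ι] (δ : ℝ) (P : κ → Submodule (ZMod 3) (X ι)) :
    Prop where
  lag : ∀ j, Lag (P j)
  inf : ∀ j, ((Inf0 (P j)).ncard : ℝ) ≤ δ * 3 ^ Fintype.card ι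
  two : ∀ j j', j ≠ j' → ((P j ⊓ P j' : Submodule (ZMod 3) (X ι)) : Set (X ι)).ncard ≤
    δ * (3 : ℝ) ^ Fintype.card ι

/-- the intersection of `P` with the graph of `S` -/
def KK {ι : Type} [Fintype ι] (P : Submodule (ZMod 3) (X ι)) (S : Matrix ι ι (ZMod 3)) :
    Set (X ι) := {x | x ∈ P ∧ Gr S x}

/-- its cardinality -/
noncomputable def kk {ι : Type} [Fintype ι] (P : Submodule (ZMod 3) (X ι))
    (S : Matrix ι ι (ZMod 3)) : ℕ := (KK P S).ncard

/-- the tuples: `n j` elements of `P j` for every `j` -/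
def Tp {κ ι : Type} (P : κ → Submodule (ZMod 3) (X ι)) (n : κ → ℕ) : Set ((Σ j, Fin (n j)) → X ι) :=
  {x | ∀ i, x i ∈ P i.1}

/-- the tuples in the graph of `S` with linearly independent first components -/
def JJ {κ ι : Type} [Fintype ι] (P : κ → Submodule (ZMod 3) (X ι)) (n : κ → ℕ)
    (S : Matrix ι ι (ZMod 3)) : Set ((Σ j, Fin (n j)) → X ι) :=
  {x | x ∈ Tp P n ∧ (∀ i, Gr S (x i)) ∧ LinearIndependent (ZMod 3) fun i => (x i).1}

/-- a relation between solutions for different `j` -/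
def Rel {κ ι : Type} [Fintype κ] [Fintype ι] (P : κ → Submodule (ZMod 3) (X ι))
    (S : Matrix ι ι (ZMod 3)) : Prop :=
  ∃ x : κ → X ι, (∀ j, x j ∈ P j ∧ Gr S (x j)) ∧ x ≠ 0 ∧ ∑ j, x j = 0

/-- **L1.** The number of the symmetric matrices with `S (x i).1 = (x i).2` for all `i`, the `(x i).1`
being linearly independent, is `#Sy * 3 ^ C(r, 2) / 3 ^ (N r)` if the conditions
`(x i).1 ⬝ (x i').2 = (x i').1 ⬝ (x i).2` hold (obviously necessary), and `0` otherwise.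

Proof (one possibility). Let `Λ : Sym → (F^ι)^I`, `Λ S = (S d_i)_i`, `d_i = (x i).1`. The image is
contained in `C = {b : d_i ⬝ b_i' = d_i' ⬝ b_i}`; `C` is defined by `C(r,2)` linear equations (`i < i'`)
which are independent because the `d_i` are (if `∑_{i<i'} a_{ii'} (d_i ⬝ b_i' - d_i' ⬝ b_i) = 0` for all
`b`, take `b` supported at one index), so `#C = 3 ^ (N r - C(r,2))`. The kernel `{S : S d_i = 0}`: extend
`d_i` to a basis; `S` is determined by the bilinear form on the `N - r` other basis vectors, so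
`#ker ≤ 3 ^ ((N-r)(N-r+1)/2)`. As `#Sym = 3 ^ (N(N+1)/2) = #ker * #image` and
`N(N+1)/2 = (N-r)(N-r+1)/2 + (N r - C(r,2))`, both are equalities, and all fibres over `C` have `#ker`
elements. (Other possibility: conjugation by `g ∈ GL`, `S ↦ gᵀ S g`, reduces to `d_i = e_i`; or
characters.) -/
def S_L1 : Prop := ∀ (ι I : Type) [Fintype ι] [DecidableEq ι] [Fintype I] (x : I → X ι),
  LinearIndependent (ZMod 3) (fun i => (x i).1) →
  ((∀ i i', (x i).1 ⬝ᵥ (x i').2 = (x i').1 ⬝ᵥ (x i).2) →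
    ((Sy ι).filter fun S => ∀ i, Gr S (x i)).card * 3 ^ (Fintype.card ι * Fintype.card I) =
      (Sy ι).card * 3 ^ (Fintype.card I).choose 2) ∧
  ((¬ ∀ i i', (x i).1 ⬝ᵥ (x i').2 = (x i').1 ⬝ᵥ (x i).2) →
    ((Sy ι).filter fun S => ∀ i, Gr S (x i)).card = 0)

/-- **COMP.** The proportion of the tuples with all the conditions
`(x i).1 ⬝ (x i').2 = (x i').1 ⬝ (x i).2` is `3 ^ -(number of the pairs {i, i'} in different classes)`
up to `δ`.  (`r = ∑ n j`; `#Tp = 3 ^ (N r)`.)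

Proof. Pairs `i, i'` with `i.1 = i'.1` satisfy the condition (`Lag.iso`). Let `Q` be the set of the
unordered pairs in different classes, `#Q = C(r,2) - ∑ C(n j,2)`. With the characters `e` of `F`:
`#good = ∑_x 3^(-#Q) ∑_{a ∈ F^Q} e(∑_Q a_{ii'} ω(x_i, x_i'))`. The term `a = 0` gives the main term.
For `a ≠ 0` choose `i₀, i₁` with `a_{i₀ i₁} ≠ 0`, `j = i₀.1`. For fixed `x_i`, `i ≠ i₀`, the sum over
`x_{i₀} ∈ P j` is `∑ e(ω(x_{i₀}, y))`, `y = ∑ ± a x_{i'}` over the `i'` in the other classes: it is `0` unless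
`y ∈ (P j)^⊥ = P j` (Lagrangian: `iso` and the number of the elements, `#(P^⊥) = 3^(2N)/#P`), and then it is
`3 ^ N`. The proportion of the `(x_i)_{i ≠ i₀}` with `y ∈ P j`: fix all except `x_{i₁} ∈ P j₁`, `j₁ ≠ j`; the
admissible `x_{i₁}` are in one coset of `P j ⊓ P j₁` (or there are none), so at most `δ 3 ^ N` of `3 ^ N`.
Hence every `a ≠ 0` contributes at most `3^(-#Q) δ 3^(N r)`. -/
def S_COMP : Prop := ∀ (κ ι : Type) [Fintype κ] [Fintype ι] [DecidableEq ι] (δ : ℝ)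
  (P : κ → Submodule (ZMod 3) (X ι)) (n : κ → ℕ), 0 ≤ δ → Hyp δ P →
  |(({x | x ∈ Tp P n ∧ ∀ i i', (x i).1 ⬝ᵥ (x i').2 = (x i').1 ⬝ᵥ (x i).2} :
      Set ((Σ j, Fin (n j)) → X ι)).ncard : ℝ) / 3 ^ (Fintype.card ι * ∑ j, n j) -
    3 ^ (∑ j, (n j).choose 2) / 3 ^ (∑ j, n j).choose 2| ≤ δ

/-- **IND.** Few tuples have linearly dependent first components.

Proof. If they are dependent there is `a ≠ 0` in `F^I` with `∑ a_i (x i).1 = 0`; choose `i₀` with
`a_{i₀} ≠ 0`: for given `x_i`, `i ≠ i₀`, the first component of `x_{i₀} ∈ P i₀.1` is determined, so there are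
at most `#Inf0 (P i₀.1) ≤ δ 3 ^ N` possibilities. Sum over the `3 ^ r` vectors `a`. -/
def S_IND : Prop := ∀ (κ ι : Type) [Fintype κ] [Fintype ι] [DecidableEq ι] (δ : ℝ)
  (P : κ → Submodule (ZMod 3) (X ι)) (n : κ → ℕ), 0 ≤ δ → Hyp δ P →
  (({x | x ∈ Tp P n ∧ ¬ LinearIndependent (ZMod 3) fun i => (x i).1} :
      Set ((Σ j, Fin (n j)) → X ι)).ncard : ℝ) / 3 ^ (Fintype.card ι * ∑ j, n j) ≤
    3 ^ (∑ j, n j) * δ

/-- **MOM.** The joint moments.

Proof. By `S_L1`, summing over `x ∈ Tp P n` with independent first components: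
`∑_S #JJ(S) = #Sy * 3^C(r,2) / 3^(N r) * #{x ∈ Tp P n : independent and compatible}`. By `S_COMP` and
`S_IND` this number divided by `3^(N r)` is `3^(∑ C(n j,2)) / 3^C(r,2)` up to `δ + 3^r δ`. -/
def S_MOM : Prop := S_L1 → S_COMP → S_IND → ∀ (κ ι : Type) [Fintype κ] [Fintype ι] [DecidableEq ι]
  (δ : ℝ) (P : κ → Submodule (ZMod 3) (X ι)) (n : κ → ℕ), 0 ≤ δ → Hyp δ P →
  |(∑ S ∈ Sy ι, ((JJ P n S).ncard : ℝ)) / (Sy ι).card - 3 ^ (∑ j, (n j).choose 2)| ≤
    3 ^ (∑ j, n j).choose 2 * (3 ^ (∑ j, n j) + 1) * δ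

/-- **REL.** Few `S` have a relation.

Proof. Take a relation `x` whose support `A ⊆ κ` has the minimal number of elements. `#A ≥ 2` (if `A = {j}`
then `x j = 0`). For `j₀ ∈ A` the first components of the `x j`, `j ∈ A \ {j₀}`, are linearly independent: if
`∑ a_j (x j).1 = 0`, then `∑ a_j (x j).2 = S (∑ a_j (x j).1) = 0`, so `(a_j x_j)` is a relation with smaller
support or `0`. So for every `S` with a relation there are `A`, `j₀ ∈ A`, and `(x j)_{j ∈ B}`,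
`B = A \ {j₀} ≠ ∅`, `x j ∈ P j`, with independent first components, all in the graph of `S`, and
`∑_{j ∈ B} x j ∈ P j₀`. For given `(x j)_B` the number of the `S` is at most
`#Sy * 3^C(#B,2) / 3^(N #B)` (`S_L1`). The number of these `(x j)_B`: fix `j₁ ∈ B` and all the `x j`,
`j ≠ j₁`: `x j₁` is in one coset of `P j₁ ⊓ P j₀`, so at most `δ 3^N` choices; in total at most
`δ 3^(N #B)`. So the proportion is at most `∑_{A, j₀} 3^C(#B,2) δ ≤ 2^m m 3^(m²) δ`, `m = #κ`. -/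
def S_REL : Prop := S_L1 → ∀ (κ : Type) [Fintype κ], ∃ C : ℝ, 0 ≤ C ∧
  ∀ (ι : Type) [Fintype ι] [DecidableEq ι] (δ : ℝ) (P : κ → Submodule (ZMod 3) (X ι)),
  0 ≤ δ → Hyp δ P → (((Sy ι).filter fun S => Rel P S).card : ℝ) / (Sy ι).card ≤ C * δ

/-- **GOOD.** Without relation the number of the tuples is a product.

Proof. For solutions `x_i` (in the graph of `S`): a combination of the `x_i` with zero first component is
`0`. So, without relation: the `(x i).1` are linearly independent iff the `x_i` are iff for every `j` the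
`x_⟨j,k⟩`, `k : Fin (n j)`, are (a relation `∑ a_i x_i = 0` gives `∑_j y_j = 0`, `y_j = ∑_k a_⟨j,k⟩ x_⟨j,k⟩`
in `P j` and in the graph, so all `y_j = 0`). The number of the independent `n`-tuples of a space of `3^k`
elements is `∏_{i<n} (3^k - 3^i)` (Mathlib `card_linearIndependent`; also `0` for `n > k`). -/
def S_GOOD : Prop := ∀ (κ ι : Type) [Fintype κ] [Fintype ι] [DecidableEq ι]
  (P : κ → Submodule (ZMod 3) (X ι)) (n : κ → ℕ) (S : Matrix ι ι (ZMod 3)), ¬ Rel P S →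
  ((JJ P n S).ncard : ℝ) = ∏ j, ∏ i ∈ range (n j), ((kk (P j) S : ℝ) - 3 ^ i)

/-- **KPOW.** `kk` is a power of `3`, it is `1` iff the intersection is trivial, and the number of the
tuples is at most `∏ kk ^ n`. -/
def S_KPOW : Prop := ∀ (ι : Type) [Fintype ι] [DecidableEq ι] (S : Matrix ι ι (ZMod 3)),
  (∀ P : Submodule (ZMod 3) (X ι), (∃ e : ℕ, kk P S = 3 ^ e) ∧
    (kk P S = 1 ↔ ∀ x ∈ P, Gr S x → x = 0)) ∧
  ∀ (κ : Type) [Fintype κ] (P : κ → Submodule (ZMod 3) (X ι)) (n : κ → ℕ),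
    (JJ P n S).ncard ≤ ∏ j, kk (P j) S ^ n j

/-- **SM.** The moments of one `kk` are bounded.

Proof. For `X = 3^x`: `X^M ≤ 3^(M²) + (3/2)^M ∏_{i<M} (X - 3^i)` (for `x < M` the first term, for `x ≥ M`
every factor is `≥ (2/3) X`; the product is `≥ 0` for all `x`). Sum over `S`; `∏_{i<M} (kk - 3^i)` is the
number of the linearly independent `M`-tuples of `KK P S`, which have independent first components, so the
sum over `S` is at most `#{x ∈ P^M} * #Sy * 3^C(M,2) / 3^(N M) = #Sy * 3^C(M,2)` by `S_L1`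
(`#P = 3^N`). -/
def S_SM : Prop := S_L1 → ∀ M : ℕ, ∃ C : ℝ, 0 ≤ C ∧ ∀ (ι : Type) [Fintype ι] [DecidableEq ι]
  (P : Submodule (ZMod 3) (X ι)), Lag P → (∑ S ∈ Sy ι, (kk P S : ℝ) ^ M) / (Sy ι).card ≤ C

/-- the function `h k Y = ∏_{i<k} (Y - 3^i) / (3^(i+1) - 1)` -/
noncomputable def hh (k : ℕ) (Y : ℝ) : ℝ := ∏ i ∈ range k, (Y - 3 ^ i) / (3 ^ (i + 1) - 1)

/-- **ALG.** (a) `hh k (3^x) ≥ 0`. (b) For `Y = 3^x` the alternating sum
`f K = ∑_{k ≤ K} (-1)^k hh k Y` equals `∏_{i<K} (3^(i+1) - Y) / (3^(i+1) - 1)` (induction on `K`), so it is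
`1` for `x = 0`, `0` for `1 ≤ x ≤ K` and at most `hh (K+1) Y` in absolute value for `x > K`; so
`|[x = 0] - f K| ≤ hh (K+1) Y`. (c) `3^C(k,2) / ∏_{i<k} (3^(i+1) - 1) ≤ 2^-k` (ratio `3^k / (3^(k+1) - 1)`).
(d) differences of products. -/
def S_ALG : Prop :=
  (∀ k x : ℕ, 0 ≤ hh k (3 ^ x)) ∧
  (∀ K x : ℕ, |(if x = 0 then 1 else 0) - ∑ k ∈ range (K + 1), (-1 : ℝ) ^ k * hh k (3 ^ x)| ≤
    hh (K + 1) (3 ^ x)) ∧
  (∀ k : ℕ, (3 : ℝ) ^ k.choose 2 / ∏ i ∈ range k, (3 ^ (i + 1) - 1 : ℝ) ≤ (1 / 2) ^ k) ∧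
  ∀ (κ : Type) [Fintype κ] (a b h f : κ → ℝ), (∀ j, |a j| ≤ 1) → (∀ j, |b j| ≤ f j) →
    (∀ j, 1 ≤ f j) → (∀ j, |a j - b j| ≤ h j) →
    |∏ j, a j - ∏ j, b j| ≤ ∑ j, h j * ∏ i ∈ univ.erase j, f i

/-- the sum `∑_{k ≤ K} (-1)^k 3^C(k,2) / ∏_{i<k} (3^(i+1) - 1)` -/
noncomputable def ph (K : ℕ) : ℝ := ∑ k ∈ range (K + 1),
  (-1 : ℝ) ^ k * (3 ^ k.choose 2 / ∏ i ∈ range k, (3 ^ (i + 1) - 1 : ℝ))

/-- the proportion of the `S` whose graph meets every `P j` only in `0` -/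
noncomputable def Pr {κ ι : Type} [Fintype κ] [Fintype ι] [DecidableEq ι]
    (P : κ → Submodule (ZMod 3) (X ι)) : ℝ :=
  (((Sy ι).filter fun S => ∀ j, ∀ x ∈ P j, Gr S x → x = 0).card : ℝ) / (Sy ι).card

/-- **BON.** (Bonferroni)  Write `E` for the mean over `S ∈ Sy ι`, `c k = 1 / ∏_{i<k} (3^(i+1) - 1)`, and for
`n : κ → ℕ`, `c n = ∏ c (n j)`, `G S = ∑_{n ≤ K} (-1)^(∑ n j) c n #JJ(S)`.
On `¬ Rel`: `c n #JJ(S) = ∏ hh (n j) (kk (P j) S)` (`S_GOOD`), `G S = ∏_j f_K(kk (P j) S)` with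
`f_K = ∑_{k ≤ K} (-1)^k hh k`, and the indicator of the event is `∏_j [kk (P j) S = 1]`; by `S_ALG` the
difference is at most `∑_j hh (K+1) (kk_j) ∏_{i ≠ j} ∑_{k ≤ K} hh k (kk_i)`, which is a sum of terms
`c n #JJ(S)` over the `n` with `n j = K+1` and `n i ≤ K` (`i ≠ j`): by `S_MOM` its mean is at most
`∑_j (1/2)^(K+1) 2^(m-1) + C δ`. On `Rel`: `|1 - G S| ≤ 1 + ∑_n #JJ(S) ≤ 1 + (K+1)^m ∑_j kk_j ^ (K m)`
(`kk ≥ 1`, `∏_j kk_j^K ≤ max^(K m)`), and by Cauchy-Schwarz, `S_REL` and `S_SM`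
`E[1_Rel (...)] ≤ C sqrt δ`. And `E G = ∑_n (-1)^(∑ n) c n E #JJ = (ph K)^m` up to `C δ`. -/
def S_BON : Prop := S_L1 → S_COMP → S_IND → S_MOM → S_REL → S_GOOD → S_KPOW → S_SM → S_ALG →
  ∀ (κ : Type) [Fintype κ] (K : ℕ), ∃ C : ℝ, 0 ≤ C ∧
  ∀ (ι : Type) [Fintype ι] [DecidableEq ι] (δ : ℝ) (P : κ → Submodule (ZMod 3) (X ι)),
  0 ≤ δ → δ ≤ 1 → Hyp δ P →
  |Pr P - ph K ^ Fintype.card κ| ≤
    Fintype.card κ * 2 ^ Fintype.card κ * (1 / 2 : ℝ) ^ (K + 1) + C * Real.sqrt δ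

/-- **PHI.** `ph K` tends to `c9`.

Proof. `S_BON` with `κ = Unit`, `ι = Fin N`, `P = F^ι × 0` (Lagrangian, `Inf0 = {0}`, so `δ = 3^-N`): the
event is that `S` is nonsingular, so `Pr P = ∏_{i < (N+1)/2} (1 - (1/3)^(2i+1))` (`S_SYM`, with
`#Sy = 3^(N(N+1)/2)`), which tends to `c9` (`S_C9`, first part). Let `N → ∞`:
`|c9 - ph K| ≤ 2 (1/2)^(K+1)`. -/
def S_PHI : Prop := S_BON → S_L1 → S_COMP → S_IND → S_MOM → S_REL → S_GOOD → S_KPOW → S_SM → S_ALG →
  S_SYM → S_C9 → ∀ K : ℕ, |c9 - ph K| ≤ 2 * (1 / 2 : ℝ) ^ (K + 1)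

/-- **JL.** The joint law for Lagrangian subspaces (from `S_BON`, `S_PHI`: choose `K`, then `δ`). -/
def S_JL : Prop := ∀ (κ : Type) [Fintype κ] (ε : ℝ), 0 < ε → ∃ δ : ℝ, 0 < δ ∧
  ∀ (ι : Type) [Fintype ι] [DecidableEq ι] (P : κ → Submodule (ZMod 3) (X ι)), Hyp δ P →
  |Pr P - c9 ^ Fintype.card κ| ≤ ε

/-- JL from the parts. -/
def S_JLF : Prop := S_BON → S_L1 → S_COMP → S_IND → S_MOM → S_REL → S_GOOD → S_KPOW → S_SM → S_ALG →
  S_SYM → S_C9 → S_PHI → S_JL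

/-- **JLA.** The joint law for the block systems `GdA`. -/
def S_JLA : Prop := ∀ (κ : Type) [Fintype κ] (ε : ℝ), 0 < ε → ∃ V : ℕ, ∀ (u : ℕ)
  (U : κ → Type) [∀ j, Fintype (U j)] (J : Type) [Fintype J] [LinearOrder J]
  (A : ∀ j, U j → U j → ZMod 3) (B : ∀ j, U j → J → ZMod 3),
  (∀ j, Fintype.card (U j) ≤ u) → u + V ≤ Fintype.card J → (∀ j a b, A j a b = A j b a) →
  (∀ j, ∀ w : U j → ZMod 3, (∃ a, w a ≠ 0) → ∃ k, ∑ a, w a * B j a k ≠ 0) →
  (∀ j j', j ≠ j' → 2 * u + V ≤ (univ.filter fun k => ∑ a, B j a k ≠ ∑ a, B j' a k).card) →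
  |((univ.filter fun α : prs J → ZMod 3 => ∀ j, GdA (A j) (B j) (ext α)).card : ℝ) /
      3 ^ (prs J).card - c9 ^ Fintype.card κ| ≤ ε

/-- **RED.** The reduction of `S_JLA` to `S_JL`.

Fix `k₀ : J` (exists if `V ≥ 1`) and `ι = {k : J // k ≠ k₀}`, `N = #J - 1`.
For `α : prs J → F`, `R = ext α` (symmetric, zero diagonal), let `S_α` be the symmetric matrix over `ι`
with `S_α k l = R k l` (`k ≠ l`) and `S_α k k = - ∑_{l : J, l ≠ k} R k l`; because of the entry `R k k₀` the map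
`α ↦ S_α` is a bijection onto the symmetric matrices (`#prs J = #J (#J-1)/2 = N(N+1)/2`). For `d : J → F`
with `d k₀ = 0` and `k ∈ ι`: `∑_{l : J} R k l (d l - d k) = (S_α d|_ι) k`.
For a system `(U, A, B)` (drop `j`), `s k = ∑ a, B a k`, let `W` be the set of the `(c, d)`,
`c : U → F`, `d : J → F`, `d k₀ = 0`, with `∑_b A a b (c b - c a) + ∑_l B a l (d l - c a) = 0` for all `a`
(eq. 1), and `P` the image of `W` under `(c, d) ↦ (d|_ι, - (∑_a B a k (c a - d k))_{k ∈ ι})`.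
* `GdA A B (ext α)` iff the graph of `S_α` meets `P` only in `0`: a solution of the system minus the constant
  `d k₀` is in `W` and satisfies (eq. 2) `∑_a B a k (c a - d k) + ∑_l R k l (d l - d k) = 0` for `k ∈ ι`;
  the equation (2) at `k₀` follows, because the sum of (2) over all `k : J` is minus the sum of (1)
  over `a` (both forms are symmetric). A solution with image `0` has `d = 0` and `∑_a B a k c a = 0` for
  `k ∈ ι`, and for `k₀` by the same sum, so `c = 0` by the nondegeneracy.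
* `W → P` is injective (same argument: `(c, d) ∈ W` with image `0` has `d = 0` and `∑_a B a k c a = 0` for all
  `k`, as the sum over all `k` of `∑_a B a k (c a - d k)` is `∑_{a,b} A a b (c b - c a) = 0` by (1)), and
  `#W = 3^N`: the map `(c, d) ↦ (1)` is onto `F^U` already for `c = 0` (nondegeneracy; constants do not
  matter, so one can take `d k₀ = 0`), so `#W = 3^(#U + N - #U)`.
* `iso`: for `(c,d), (c',d') ∈ W`: `∑_k d' k ∑_a B a k (c a - d k) = ∑_a c a ∑_k B a k d' k - ∑_k s k d k d' k`,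
  and `∑_k B a k d' k = r a c' a - ∑_b A a b (c' b - c' a)` (`r a = ∑_k B a k`) by (1): symmetric in the
  two solutions.
* `#Inf0 P ≤ 3^u` (`d = 0`, at most `3^#U` choices of `c`), and `δ 3^N ≥ 3^u` if `3^(-V+1) ≤ δ`.
* `#(P j ⊓ P j') ≤ 3^(2u + N - h + 1)`, `h = #{k : s^j k ≠ s^j' k} ≥ 2u + V`: if `(d, b)` comes from `(c, d)` and
  `(c', d)`, then `(s^j k - s^j' k) d k = ∑_a B^j a k c a - ∑_a B^j' a k c' a` for `k ∈ ι`: given `c, c'`
  (`3^(2u)` choices) `d` is determined at the `≥ h - 1` elements of `ι` with `s^j k ≠ s^j' k`. -/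
def S_RED : Prop := S_JL → S_JLA

end Pool.Agent.D0H69.JT
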