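import Pool.Agent.R432.C7

/-!
# A basis of an extension generated by cube roots
-/

set_option autoImplicit false
set_option linter.unusedVariables false
set_option linter.unusedSectionVars false

open scoped Classical

namespace Pool.Agent.D0H69.JTB

open Pool.Agent.R432.C (gal3 kummer3_card cube_roots)

variable {K F : Type} [Field K] [CharZero K] [Field F] [Algebra K F]

/-- no nontrivial product is a cube -/
def Ind3 {n : ℕ} (d : Fin n → K) : Prop :=
  ∀ a : Fin n → ZMod 3, (∃ i, a i ≠ 0) → ¬ ∃ z : K, z ^ 3 = ∏ i, d i ^ (a i).val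

/-- the degree -/
theorem deg3 {ω : K} (hω : ω ^ 2 + ω + 1 = 0) {n : ℕ} {d : Fin n → K} {x : Fin n → F}
    (hd : ∀ i, d i ≠ 0) (hx : ∀ i, x i ^ 3 = algebraMap K F (d i))
    (hgen : ∀ S : Subfield F, (∀ k : K, algebraMap K F k ∈ S) → (∀ i, x i ∈ S) → S = ⊤)
    (hI : Ind3 d) : Module.finrank K F = 3 ^ n := by
  obtain ⟨hfd, hgal⟩ := gal3 hω d x hx hgen
  have h1 := kummer3_card (K := F) hω (by norm_num) x d hd hx hI (fun σ hσ => by
    have h2 := hgen (IntermediateField.fixedField (Subgroup.zpowers σ)).toSubfield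
      (fun k => (IntermediateField.fixedField (Subgroup.zpowers σ)).algebraMap_mem k) (fun i => by
        show x i ∈ IntermediateField.fixedField (Subgroup.zpowers σ)
        rw [IntermediateField.mem_fixedField_iff]
        intro τ hτ
        obtain ⟨k, rfl⟩ := Subgroup.mem_zpowers_iff.1 hτ
        have h4 : σ ∈ MulAction.stabilizer (F ≃ₐ[K] F) (x i) := hσ i
        exact (MulAction.stabilizer (F ≃ₐ[K] F) (x i)).zpow_mem h4 k)
    ext y
    have h3 : y ∈ (IntermediateField.fixedField (Subgroup.zpowers σ)).toSubfield := by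
      rw [h2]; trivial
    have h5 : y ∈ IntermediateField.fixedField (Subgroup.zpowers σ) := h3
    rw [IntermediateField.mem_fixedField_iff] at h5
    exact h5 σ (Subgroup.mem_zpowers σ))
  rw [IsGalois.card_aut_eq_finrank, Fintype.card_fin] at h1
  exact h1

/-- the field generated by the roots -/
theorem deg_le {ω : K} (hω : ω ^ 2 + ω + 1 = 0) [FiniteDimensional K F] {n : ℕ} {d : Fin n → K}
    {x : Fin n → F} (hd : ∀ i, d i ≠ 0) (hx : ∀ i, x i ^ 3 = algebraMap K F (d i))
    (hI : Ind3 d) : 3 ^ n ≤ Module.finrank K F := by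
  set E := IntermediateField.adjoin K (Set.range x) with hE
  have hmem : ∀ i, x i ∈ E := fun i => IntermediateField.subset_adjoin K _ ⟨i, rfl⟩
  have h1 := deg3 (F := E) hω (x := fun i => ⟨x i, hmem i⟩) hd (fun i => by
    apply Subtype.ext
    exact hx i) (fun S hS hxS => by
    rw [eq_top_iff]
    rintro y -
    let T : IntermediateField K F := 
      { (S.map E.val.toRingHom) with
        algebraMap_mem' := fun k => ⟨algebraMap K E k, hS k, rfl⟩ }
    have h2 : E ≤ T := by
      rw [hE, IntermediateField.adjoin_le_iff]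
      rintro _ ⟨i, rfl⟩
      exact ⟨⟨x i, hmem i⟩, hxS i, rfl⟩
    obtain ⟨z, hz, hzy⟩ := h2 y.2
    have h3 : z = y := Subtype.ext hzy
    rwa [← h3]) hI
  rw [← h1]
  exact Submodule.finrank_le E.toSubmodule

theorem step {ω : K} (hω : ω ^ 2 + ω + 1 = 0) {n : ℕ} {d : Fin n → K} {x : Fin n → F}
    (hd : ∀ i, d i ≠ 0) (hx : ∀ i, x i ^ 3 = algebraMap K F (d i)) (hI : Ind3 d)
    {y : F} {u : K} (hu : u ≠ 0) (hy : y ^ 3 = algebraMap K F u)
    (hyE : y ∉ IntermediateField.adjoin K (Set.range x)) :
    Ind3 (Fin.snoc d u : Fin (n + 1) → K) := by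
  set E := IntermediateField.adjoin K (Set.range x) with hE
  have hmem : ∀ i, x i ∈ E := fun i => IntermediateField.subset_adjoin K _ ⟨i, rfl⟩
  rintro a ⟨i, hi⟩ ⟨z, hz⟩
  rw [Fin.prod_univ_castSucc] at hz
  simp only [Fin.snoc_castSucc, Fin.snoc_last] at hz
  have hx0 : ∀ i, x i ≠ 0 := fun i h0 => by
    have h1 := hx i
    rw [h0] at h1
    exact hd i ((algebraMap K F).injective (by rw [← h1, map_zero]; ring))
  by_cases hl : a (Fin.last n) = 0
  · apply hI (fun i => a i.castSucc)
    · by_contra hcon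
      push Not at hcon
      apply hi
      refine Fin.lastCases hl (fun i => hcon i) i
    · refine ⟨z, ?_⟩
      rw [hz, hl]
      simp
  · set P : F := ∏ i, x i ^ (a (Fin.castSucc i)).val with hP
    have hP0 : P ≠ 0 := Finset.prod_ne_zero_iff.2 fun i _ => pow_ne_zero _ (hx0 i)
    have hPE : P ∈ E := prod_mem fun i _ => pow_mem (hmem i) _
    set W : F := algebraMap K F ω with hW
    have hW2 : W ^ 2 + W + 1 = 0 := by
      rw [hW, ← map_pow, ← map_add, ← map_one (algebraMap K F), ← map_add, hω, map_zero]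
    have h1 : (y ^ (a (Fin.last n)).val * P) ^ 3 = (algebraMap K F z) ^ 3 := by
      rw [← map_pow, hz, map_mul, map_prod, mul_comm, mul_pow, hP, ← Finset.prod_pow, ← pow_mul,
        map_pow, ← hy, ← pow_mul, mul_comm 3]
      congr 1
      refine Finset.prod_congr rfl fun i _ => ?_
      rw [map_pow, ← hx i, ← pow_mul, ← pow_mul, mul_comm]
    obtain ⟨v, hv⟩ := cube_roots hW2 h1
    have h2 : y ^ (a (Fin.last n)).val ∈ E := by
      have h3 : y ^ (a (Fin.last n)).val = W ^ v.val * algebraMap K F z / P := by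
        rw [← hv, mul_div_assoc, div_self hP0, mul_one]
      rw [h3]
      exact div_mem (mul_mem (pow_mem (E.algebraMap_mem ω) _) (E.algebraMap_mem z)) hPE
    have h3 : ∀ t : ZMod 3, t ≠ 0 → t = 1 ∨ t = 2 := by decide
    rcases h3 _ hl with h4 | h4
    · rw [h4] at h2
      apply hyE
      have h5 : y ^ 1 ∈ E := h2
      rwa [pow_one] at h5
    · rw [h4] at h2
      have h5 : y ^ 2 ∈ E := h2
      have hy0 : y ≠ 0 := by
        rintro rfl
        exact hyE (zero_mem _)
      apply hyE
      have h6 : y = y ^ 3 / y ^ 2 := by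
        field_simp
      rw [h6, hy]
      exact div_mem (E.algebraMap_mem u) h5

/-- **An independent family of generators.** -/
theorem exists_basis {ω : K} (hω : ω ^ 2 + ω + 1 = 0) [FiniteDimensional K F] {S : Set F}
    (hS : ∀ x ∈ S, ∃ u : K, x ^ 3 = algebraMap K F u) (hgen : IntermediateField.adjoin K S = ⊤) :
    ∃ (r : ℕ) (d : Fin r → K) (x : Fin r → F), (∀ i, d i ≠ 0) ∧
      (∀ i, x i ^ 3 = algebraMap K F (d i)) ∧
      (∀ S : Subfield F, (∀ k : K, algebraMap K F k ∈ S) → (∀ i, x i ∈ S) → S = ⊤) ∧ Ind3 d := by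
  by_contra hcon
  have key : ∀ n : ℕ, ∃ (d : Fin n → K) (x : Fin n → F), (∀ i, d i ≠ 0) ∧
      (∀ i, x i ^ 3 = algebraMap K F (d i)) ∧ Ind3 d := by
    intro n
    induction n with
    | zero => exact ⟨Fin.elim0, Fin.elim0, fun i => i.elim0, fun i => i.elim0, fun a ⟨i, _⟩ => i.elim0⟩
    | succ n ih =>
      obtain ⟨d, x, hd, hx, hI⟩ := ih
      have h1 : IntermediateField.adjoin K (Set.range x) ≠ ⊤ := by
        intro h1
        apply hcon
        refine ⟨n, d, x, hd, hx, fun T hT hxT => ?_, hI⟩
        let T' : IntermediateField K F := { T with algebraMap_mem' := hT }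
        have h2 : IntermediateField.adjoin K (Set.range x) ≤ T' := by
          rw [IntermediateField.adjoin_le_iff]
          rintro _ ⟨i, rfl⟩
          exact hxT i
        rw [h1] at h2
        rw [eq_top_iff]
        intro y _
        exact h2 (show y ∈ (⊤ : IntermediateField K F) from trivial)
      have h2 : ¬ S ⊆ (IntermediateField.adjoin K (Set.range x) : Set F) := by
        intro h2
        apply h1
        rw [eq_top_iff, ← hgen, IntermediateField.adjoin_le_iff]
        exact h2
      obtain ⟨y, hyS, hyE⟩ := Set.not_subset.1 h2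
      obtain ⟨u, hu⟩ := hS y hyS
      have hyE' : y ∉ IntermediateField.adjoin K (Set.range x) := hyE
      have hu0 : u ≠ 0 := by
        rintro rfl
        rw [map_zero] at hu
        have h3 : y = 0 := by simpa using hu
        rw [h3] at hyE'
        exact hyE' (zero_mem _)
      refine ⟨Fin.snoc d u, Fin.snoc x y, fun i => ?_, fun i => ?_, step hω hd hx hI hu0 hu hyE'⟩
      · refine Fin.lastCases ?_ (fun i => ?_) i
        · rw [Fin.snoc_last]; exact hu0
        · rw [Fin.snoc_castSucc]; exact hd i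
      · refine Fin.lastCases ?_ (fun i => ?_) i
        · rw [Fin.snoc_last, Fin.snoc_last]; exact hu
        · rw [Fin.snoc_castSucc, Fin.snoc_castSucc]; exact hx i
  obtain ⟨d, x, hd, hx, hI⟩ := key (Module.finrank K F)
  have h1 := deg_le hω hd hx hI
  exact absurd h1 (not_le.2 (Nat.lt_pow_self (by norm_num)))

end Pool.Agent.D0H69.JTB
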