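import Pool.Agent.D0H69.JT.Lf4
import Pool.Agent.D0H69.JT.BasA

/-!
# A basis of an extension generated by cube roots
-/

set_option autoImplicit false
set_option linter.unusedVariables false
set_option linter.unusedSectionVars false

open scoped Classical

namespace Pool.Agent.D0H69.JTL

open NumberField
open Pool.Agent.R432.C (om_K)
open Pool.Agent.D0H69.JTB (Ind3 deg3 exists_basis)

variable {K : Type} [Field K] [NumberField K]
variable {F : Type} [Field F] [NumberField F] [Algebra K F]

lemma val_split : ∀ a b : ZMod 3, ∃ e : Fin 2, (a - b).val + b.val = a.val + 3 * e.val := by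
  decide

theorem ind_of {n : ℕ} {d : Fin n → K} (hd : ∀ i, d i ≠ 0) (hI : Ind3 d) :
    ∀ t t' : Fin n → ZMod 3, t ≠ t' → ∀ c : K, uu d t ≠ uu d t' * c ^ 3 := by
  intro t t' htt c hc
  choose e he using fun i => val_split (t i) (t' i)
  apply hI (fun i => t i - t' i)
  · by_contra hcon
    push Not at hcon
    exact htt (funext fun i => sub_eq_zero.1 (hcon i))
  · refine ⟨c * ∏ i, d i ^ (e i).val, ?_⟩
    apply mul_right_cancel₀ (uu_ne hd t')
    have h1 : (∏ i, d i ^ (t i - t' i).val) * uu d t' = uu d t * (∏ i, d i ^ (e i).val) ^ 3 := by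
      unfold uu
      rw [← Finset.prod_mul_distrib, ← Finset.prod_pow, ← Finset.prod_mul_distrib]
      refine Finset.prod_congr rfl fun i _ => ?_
      rw [← pow_add, he i, pow_add, ← pow_mul, mul_comm 3]
    rw [h1, hc]
    ring

/-- **The basis theorem.** -/
theorem bas_of [IsCyclotomicExtension {3} ℚ K] {S : Set F}
    (hS : ∀ x ∈ S, ∃ u : K, x ^ 3 = algebraMap K F u) (hgen : IntermediateField.adjoin K S = ⊤) :
    ∃ (r : ℕ) (d : Fin r → K) (x : Fin r → F), Bas d x := by
  obtain ⟨⟨j, hj⟩, -⟩ := Pool.Agent.Y455.CTK.jex K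
  have hω := om_K j
  obtain ⟨r, d, x, hd, hx, hg, hI⟩ := exists_basis hω hS hgen
  refine ⟨r, d, x, hd, hx, hg, ?_, ind_of hd hI⟩
  rw [Fintype.card_fin]
  exact deg3 hω hd hx hg hI

end Pool.Agent.D0H69.JTL
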