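import Pool.Agent.D0H69.JT.All
import Pool.Agent.D0H69.JT.Bas

/-!
# The joint law in terms of the curves `E_{u D}` (helper69)

All but finitely many `D` have, for a fixed `u`, an element of the family in the class of `u D`.
-/

set_option autoImplicit false
set_option linter.unusedVariables false
set_option linter.unusedSectionVars false

open scoped Classical

namespace Pool.Agent.D0H69.JTL

open NumberField Filter Topology
open Pool.Agent.Y692.QS (Ei w nr toC nr_mul)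
open Pool.Agent.Y696.CTK (Tri ED)
open Pool.Agent.Y703.XK (c9)
open Pool.Agent.Y715.T.Gi (lam prime_lam)
open Pool.Agent.Y696.XK (RkZ img_ncard)
open Pool.Agent.N883.FF (FamE)
open Pool.Agent.D0H10.KH
open Pool.Agent.D0H69.JT
open Pool.Agent.D0H69.JTA (JK lim_JK lim_JKc t_ALL S_ALL jK_ne jK_inj jK_mul jK_pow frac int_rep)
open Pool.Agent.TH841.NF.D (Sha)

/-- the cube-free part -/
theorem cf_rep : ∀ v : Ei, v ≠ 0 → ∃ D' c : Ei, c ≠ 0 ∧ v = D' * c ^ 3 ∧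
    ∀ x, x ^ 3 ∣ D' → IsUnit x := by
  intro v
  refine WellFounded.induction (C := fun v : Ei => v ≠ 0 → ∃ D' c : Ei, c ≠ 0 ∧
    v = D' * c ^ 3 ∧ ∀ x, x ^ 3 ∣ D' → IsUnit x) (wellFounded_dvdNotUnit (α := Ei)) v ?_
  intro v ih hv
  by_cases h : ∀ x, x ^ 3 ∣ v → IsUnit x
  · exact ⟨v, 1, one_ne_zero, by ring, h⟩
  · push Not at h
    obtain ⟨x, ⟨y, hy⟩, hx⟩ := h
    have hy0 : y ≠ 0 := by
      rintro rfl
      exact hv (by rw [hy, mul_zero])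
    have hx0 : x ≠ 0 := by
      rintro rfl
      exact hv (by rw [hy]; ring)
    obtain ⟨D', c, hc, hD', hcf⟩ := ih y ⟨hy0, x ^ 3, fun hu => hx
      ((isUnit_pow_iff three_ne_zero).1 hu), by rw [hy]; ring⟩ hy0
    exact ⟨D', x * c, mul_ne_zero hx0 hc, by rw [hy, hD']; ring, hcf⟩

/-- the exceptional set is finite -/
theorem exc_fin {v : Ei} (hv : v ≠ 0) : {D : Ei | CFam D ∧ ¬ ∃ D' c d : Ei, c ≠ 0 ∧ d ≠ 0 ∧
    CFam D' ∧ D' * c ^ 3 = v * D * d ^ 3}.Finite := by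
  have hCFU := t_ALL.2.2.2.2.2.2.2.2.1
  have hT : {D' : Ei | D' ∣ 3}.Finite := by
    refine (Pool.Agent.D0H69.L3K.fin_nr 9).subset ?_
    rintro D' ⟨e, he⟩
    have h1 : nr D' * nr e = 9 := by
      rw [← nr_mul, ← he]
      rfl
    have h2 := Pool.Agent.Y692.QS.nr_nonneg D'
    have h3 := Pool.Agent.Y692.QS.nr_nonneg e
    show nr D' ≤ ((9 : ℕ) : ℤ)
    push_cast
    have h4 : nr e ≠ 0 := by
      intro h5
      rw [h5, mul_zero] at h1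
      norm_num at h1
    nlinarith [lt_of_le_of_ne h3 h4.symm]
  refine (hT.biUnion (t := fun D' => {D : Ei | CFam D ∧ ∃ c : Ei, c ≠ 0 ∧ v * D = D' * c ^ 3})
    fun D' _ => ?_).subset ?_
  · by_cases hne : ∃ D₁ : Ei, CFam D₁ ∧ ∃ c : Ei, c ≠ 0 ∧ v * D₁ = D' * c ^ 3
    · obtain ⟨D₁, h1, c₁, hc₁, he₁⟩ := hne
      refine (Set.toFinite ({D₁, -D₁} : Set Ei)).subset ?_
      rintro D ⟨h2, c, hc, he⟩
      have h3 := hCFU.2.1 D D₁ c₁ c h2 h1 hc₁ hc (mul_left_cancel₀ hv (by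
        calc v * (D * c₁ ^ 3) = (v * D) * c₁ ^ 3 := by ring
          _ = D' * c ^ 3 * c₁ ^ 3 := by rw [he]
          _ = (D' * c₁ ^ 3) * c ^ 3 := by ring
          _ = v * (D₁ * c ^ 3) := by rw [← he₁]; ring))
      exact h3
    · convert Set.finite_empty
      rw [Set.eq_empty_iff_forall_notMem]
      rintro D ⟨h2, c, hc, he⟩
      exact hne ⟨D, h2, c, hc, he⟩
  · rintro D ⟨hD, hn⟩
    have hD0 : D ≠ 0 := by
      rintro rfl
      exact not_isUnit_zero (hD.2 0 (dvd_zero _))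
    obtain ⟨D', c, hc, he, hcf⟩ := cf_rep (v * D) (mul_ne_zero hv hD0)
    rw [Set.mem_iUnion₂]
    refine ⟨D', ?_, hD, c, hc, he⟩
    by_contra h3
    exact hn ⟨D', c, 1, hc, one_ne_zero, ⟨h3, hcf⟩, by rw [he]; ring⟩

variable {K : Type} [Field K] [NumberField K]

/-- the property of the curve `E_x`, `x` in `K` -/
def TrK (x : K) : Prop :=
  Finite (ED x).toAffine.Point ∧ ∀ (n : ℕ) (y : Sha (ED x)), 3 ^ n • y = 0 → y = 0

theorem excK_fin [IsCyclotomicExtension {3} ℚ K] {u : K} (hu : u ≠ 0) :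
    {D : 𝓞 K | FamH D ∧ ¬ ∃ D' : 𝓞 K, FamH D' ∧ ∃ c : K, c ≠ 0 ∧
      (D' : K) = u * D * c ^ 3}.Finite := by
  obtain ⟨⟨j, hj⟩, -⟩ := Pool.Agent.Y455.CTK.jex K
  obtain ⟨v, b, hv, hb, huv⟩ := int_rep j hu
  refine ((exc_fin hv).image j).subset ?_
  rintro D ⟨hD, hn⟩
  obtain ⟨D, rfl⟩ := j.surjective D
  refine ⟨D, ⟨(famH_iff j D).1 hD, ?_⟩, rfl⟩
  rintro ⟨D', c, d, hc, hd, hD', heq⟩
  refine hn ⟨j D', (famH_iff j D').2 hD', ((j d : 𝓞 K) : K) / (((j c : 𝓞 K) : K) * b),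
      div_ne_zero (jK_ne j hd) (mul_ne_zero (jK_ne j hc) hb), ?_⟩
  have h1 := congrArg (fun x : Ei => ((j x : 𝓞 K) : K)) heq
  simp only [jK_mul, jK_pow] at h1
  have h2 := jK_ne j hc
  rw [huv]
  field_simp
  linear_combination h1

lemma famH_ne {D : 𝓞 K} (hD : FamH D) : (D : K) ≠ 0 := by
  have h0 : D ≠ 0 := by
    rintro rfl
    exact not_isUnit_zero (hD.2 0 (dvd_zero _))
  intro h1
  exact h0 (RingOfIntegers.coe_injective (h1.trans (map_zero _).symm))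

theorem jk_tr {κ : Type} {u : κ → K} {D : 𝓞 K} (h : JK u D) : ∀ e, TrK (u e * D) := by
  intro e
  obtain ⟨D', hD', ⟨c, hc, heq⟩, htri⟩ := h e
  have e1 : u e * (D : K) = (D' : K) * (c⁻¹) ^ 3 := by
    rw [heq]
    field_simp
  obtain ⟨k1, k2⟩ := vr_ED (inv_ne_zero hc) (famH_ne hD') e1
  exact ⟨k1 htri.1, k2 htri.2⟩

theorem tr_jk {κ : Type} {u : κ → K} (hu : ∀ e, u e ≠ 0) {D : 𝓞 K} (hD : FamH D)
    (h : ∀ e, TrK (u e * D)) (hex : ∀ e, ∃ D' : 𝓞 K, FamH D' ∧ ∃ c : K, c ≠ 0 ∧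
      (D' : K) = u e * D * c ^ 3) : JK u D := by
  intro e
  obtain ⟨D', hD', c, hc, heq⟩ := hex e
  obtain ⟨k1, k2⟩ := vr_ED hc (mul_ne_zero (hu e) (famH_ne hD)) heq
  exact ⟨D', hD', ⟨c, hc, heq⟩, k1 (h e).1, k2 (h e).2⟩

/-- a finite set does not matter -/
theorem lim_fin [IsCyclotomicExtension {3} ℚ K] {P Q Q' : 𝓞 K → Prop} {l : ℝ}
    (hfin : {D : 𝓞 K | P D ∧ ¬ (Q D ↔ Q' D)}.Finite)
    (htop : Tendsto (fun X : ℕ => ({D : 𝓞 K | Algebra.norm ℤ D ≤ X ∧ P D}.ncard : ℝ)) atTop atTop)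
    (h : Tendsto (fun X : ℕ => ({D : 𝓞 K | Algebra.norm ℤ D ≤ X ∧ P D ∧ Q D}.ncard : ℝ) /
      ({D : 𝓞 K | Algebra.norm ℤ D ≤ X ∧ P D}.ncard : ℝ)) atTop (𝓝 l)) :
    Tendsto (fun X : ℕ => ({D : 𝓞 K | Algebra.norm ℤ D ≤ X ∧ P D ∧ Q' D}.ncard : ℝ) /
      ({D : 𝓞 K | Algebra.norm ℤ D ≤ X ∧ P D}.ncard : ℝ)) atTop (𝓝 l) := by
  obtain ⟨⟨j, hj⟩, -⟩ := Pool.Agent.Y455.CTK.jex K
  have hN : ∀ (X : ℕ) (R : 𝓞 K → Prop), {D : 𝓞 K | Algebra.norm ℤ D ≤ X ∧ R D}.Finite := by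
    intro X R
    refine ((Pool.Agent.D0H69.L3K.fin_nr X).image j).subset ?_
    rintro D ⟨hD, -⟩
    refine ⟨j.symm D, ?_, j.apply_symm_apply D⟩
    show nr (j.symm D) ≤ X
    rw [← hj, j.apply_symm_apply]
    exact hD
  set C := {D : 𝓞 K | P D ∧ ¬ (Q D ↔ Q' D)}.ncard with hC
  have key : ∀ (A B : 𝓞 K → Prop) (X : ℕ), (∀ D, P D → ¬ (A D ↔ B D) → ¬ (Q D ↔ Q' D)) →
      {D : 𝓞 K | Algebra.norm ℤ D ≤ X ∧ P D ∧ A D}.ncard ≤
        {D : 𝓞 K | Algebra.norm ℤ D ≤ X ∧ P D ∧ B D}.ncard + C := by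
    intro A B X hAB
    refine (Set.ncard_le_ncard (t := {D : 𝓞 K | Algebra.norm ℤ D ≤ X ∧ P D ∧ B D} ∪
      {D : 𝓞 K | P D ∧ ¬ (Q D ↔ Q' D)}) ?_ ((hN X _).union hfin)).trans (Set.ncard_union_le _ _)
    rintro D ⟨h1, h2, h3⟩
    by_cases hB : B D
    · exact Or.inl ⟨h1, h2, hB⟩
    · exact Or.inr ⟨h2, hAB D h2 fun hi => hB (hi.1 h3)⟩
  have h0 : Tendsto (fun X : ℕ => (C : ℝ) /
      ({D : 𝓞 K | Algebra.norm ℤ D ≤ X ∧ P D}.ncard : ℝ)) atTop (𝓝 0) :=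
    htop.const_div_atTop _
  refine tendsto_of_tendsto_of_dist h ?_
  refine squeeze_zero (fun _ => dist_nonneg) (fun X => ?_) h0
  have k1 := key Q Q' X (fun D _ hi => hi)
  have k2 := key Q' Q X (fun D _ hi hi' => hi hi'.symm)
  have k1' : ({D : 𝓞 K | Algebra.norm ℤ D ≤ X ∧ P D ∧ Q D}.ncard : ℝ) ≤
      {D : 𝓞 K | Algebra.norm ℤ D ≤ X ∧ P D ∧ Q' D}.ncard + C := by exact_mod_cast k1
  have k2' : ({D : 𝓞 K | Algebra.norm ℤ D ≤ X ∧ P D ∧ Q' D}.ncard : ℝ) ≤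
      {D : 𝓞 K | Algebra.norm ℤ D ≤ X ∧ P D ∧ Q D}.ncard + C := by exact_mod_cast k2
  have hden : |({D : 𝓞 K | Algebra.norm ℤ D ≤ X ∧ P D}.ncard : ℝ)| =
      {D : 𝓞 K | Algebra.norm ℤ D ≤ X ∧ P D}.ncard := abs_of_nonneg (Nat.cast_nonneg _)
  rw [Real.dist_eq, ← sub_div, abs_div, hden]
  apply div_le_div_of_nonneg_right _ (Nat.cast_nonneg _)
  rw [abs_le]
  constructor <;> linarith

/-- the number of the elements of the classes -/
theorem den_top [IsCyclotomicExtension {3} ℚ K] (a : ℕ) (ha : a < 3) :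
    Tendsto (fun X : ℕ => ({D : 𝓞 K | Algebra.norm ℤ D ≤ X ∧ FamH D ∧ ExtH a D}.ncard : ℝ))
      atTop atTop := by
  obtain ⟨⟨j, hj⟩, -⟩ := Pool.Agent.Y455.CTK.jex K
  have e4 : ∀ (X : ℕ), {D : 𝓞 K | Algebra.norm ℤ D ≤ X ∧ FamH D ∧ ExtH a D}.ncard =
      {D : Ei | nr D ≤ X ∧ CFam D ∧ (lam ^ a ∣ D ∧ ¬ lam ^ (a + 1) ∣ D)}.ncard := fun X =>
    img_ncard j hj X (fun D => CFam D ∧ (lam ^ a ∣ D ∧ ¬ lam ^ (a + 1) ∣ D))
      (fun D => FamH D ∧ ExtH a D)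
      fun D => and_congr (famH_iff j D).symm (extH_iff j a D).symm
  simp only [e4]
  have hlam : nr lam = 3 := by decide
  have h1 : ∀ X : ℕ, FC (X / 3 ^ a) ≤
      {D : Ei | nr D ≤ X ∧ CFam D ∧ (lam ^ a ∣ D ∧ ¬ lam ^ (a + 1) ∣ D)}.ncard := by
    intro X
    unfold FC
    have hl0 : (lam : Ei) ^ a ≠ 0 := pow_ne_zero a prime_lam.ne_zero
    rw [← Set.ncard_image_of_injective _ (fun x y (h : (lam : Ei) ^ a * x = lam ^ a * y) =>
      mul_left_cancel₀ hl0 h)]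
    refine Set.ncard_le_ncard ?_ ((Pool.Agent.D0H69.L3K.fin_nr X).subset fun z hz => hz.1)
    rintro _ ⟨z, ⟨hz1, hz2⟩, rfl⟩
    have hc := mem_cf true ha hz2
    have e1 : sg true * (lam ^ a * z) = lam ^ a * z := by
      unfold sg
      rw [if_pos rfl, one_mul]
    rw [e1] at hc
    refine ⟨?_, hc, Dvd.intro _ rfl, ?_⟩
    · have h5 : nr (lam ^ a * z) = 3 ^ a * nr z := by
        rw [nr_mul]
        congr 1
        interval_cases a <;> decide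
      have h6 : ((X / 3 ^ a : ℕ) : ℤ) * 3 ^ a ≤ X := by exact_mod_cast Nat.div_mul_le_self X (3 ^ a)
      have h7 : (0 : ℤ) < 3 ^ a := by positivity
      rw [h5]
      nlinarith
    · intro h
      rw [pow_succ] at h
      exact fam_lam hz2 ((mul_dvd_mul_iff_left hl0).1 h)
  have h2 : Tendsto (fun X : ℕ => X / 3 ^ a) atTop atTop :=
    Nat.tendsto_div_const_atTop (by positivity)
  exact tendsto_atTop_mono (fun X => by
    simp only [Function.comp_apply]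
    exact_mod_cast h1 X) (fc_top.comp h2)

/-- the number of the elements -/
theorem den_top' [IsCyclotomicExtension {3} ℚ K] :
    Tendsto (fun X : ℕ => ({D : 𝓞 K | Algebra.norm ℤ D ≤ X ∧ FamH D}.ncard : ℝ))
      atTop atTop := by
  refine tendsto_atTop_mono (fun X => ?_) (den_top (K := K) 0 (by norm_num))
  have h9 := Set.ncard_le_ncard (s := {D : 𝓞 K | Algebra.norm ℤ D ≤ X ∧ FamH D ∧ ExtH 0 D})
    (t := {D : 𝓞 K | Algebra.norm ℤ D ≤ X ∧ FamH D}) (fun D hD => ⟨hD.1, hD.2.1⟩) (by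
      obtain ⟨⟨j, hj⟩, -⟩ := Pool.Agent.Y455.CTK.jex K
      refine ((Pool.Agent.D0H69.L3K.fin_nr X).image j).subset ?_
      rintro D ⟨hD, -⟩
      refine ⟨j.symm D, ?_, j.apply_symm_apply D⟩
      show nr (j.symm D) ≤ X
      rw [← hj, j.apply_symm_apply]
      exact hD)
  exact_mod_cast h9

theorem exc_all [IsCyclotomicExtension {3} ℚ K] {κ : Type} [Fintype κ] {u : κ → K}
    (hu : ∀ e, u e ≠ 0) : {D : 𝓞 K | FamH D ∧ ¬ (JK u D ↔ ∀ e, TrK (u e * D))}.Finite := by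
  refine (Set.finite_iUnion fun e => excK_fin (hu e)).subset ?_
  rintro D ⟨hD, hn⟩
  rw [Set.mem_iUnion]
  by_contra hcon
  apply hn
  refine ⟨jk_tr, fun h => tr_jk hu hD h fun e => ?_⟩
  by_contra h2
  exact hcon ⟨e, hD, h2⟩

/-- **The joint law of the curves `E_{u_e D}`.** -/
theorem lim_Tr [IsCyclotomicExtension {3} ℚ K] {κ : Type} [Fintype κ] {u : κ → K}
    (hu : ∀ e, u e ≠ 0) (hd : ∀ e e', e ≠ e' → ∀ c : K, u e ≠ u e' * c ^ 3) :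
    Tendsto (fun X : ℕ => ({D : 𝓞 K | Algebra.norm ℤ D ≤ X ∧ FamH D ∧
        ∀ e, TrK (u e * D)}.ncard : ℝ) /
        ({D : 𝓞 K | Algebra.norm ℤ D ≤ X ∧ FamH D}.ncard : ℝ)) atTop
      (𝓝 (c9 ^ Fintype.card κ)) :=
  lim_fin (P := FamH) (exc_all hu) den_top' (lim_JK t_ALL K hu hd)

/-- **The joint law of the curves `E_{u_e D}` in the classes.** -/
theorem lim_Trc [IsCyclotomicExtension {3} ℚ K] {κ : Type} [Fintype κ] {u : κ → K}
    (hu : ∀ e, u e ≠ 0) (hd : ∀ e e', e ≠ e' → ∀ c : K, u e ≠ u e' * c ^ 3) (a : ℕ)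
    (ha : a < 3) :
    Tendsto (fun X : ℕ => ({D : 𝓞 K | Algebra.norm ℤ D ≤ X ∧ FamH D ∧ ExtH a D ∧
        ∀ e, TrK (u e * D)}.ncard : ℝ) /
        ({D : 𝓞 K | Algebra.norm ℤ D ≤ X ∧ FamH D ∧ ExtH a D}.ncard : ℝ)) atTop
      (𝓝 (c9 ^ Fintype.card κ)) := by
  have h := lim_fin (P := fun D => FamH D ∧ ExtH a D) (Q := JK u) (Q' := fun D => ∀ e, TrK (u e * D))
    (l := c9 ^ Fintype.card κ)
    ((exc_all hu).subset fun D hD => ⟨hD.1.1, hD.2⟩) (den_top a ha) (by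
      simp only [and_assoc]
      exact lim_JKc t_ALL K hu hd a ha)
  simp only [and_assoc] at h
  exact h

end Pool.Agent.D0H69.JTL
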