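import Pool.Agent.D0H69.JT.End

/-!
# Several fields and several twists at once (helper69)
-/

set_option autoImplicit false
set_option linter.unusedVariables false
set_option linter.unusedSectionVars false

open scoped Classical

namespace Pool.Agent.D0H69.JTL

open NumberField Filter Topology
open Pool.Agent.Y692.QS (Ei w nr toC nr_mul)
open Pool.Agent.Y696.CTK (Tri ED)
open Pool.Agent.Y703.XK (c9)
open Pool.Agent.D0H10.KH (FamH ExtH)
open Pool.Agent.D0H69.JTA (JK lim_JK lim_JKc t_ALL)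
open Pool.Agent.TH841.NF.D (Sha)

variable {K : Type} [Field K] [NumberField K]

theorem famH_ne' {D : 𝓞 K} (hD : FamH D) : (D : K) ≠ 0 := by
  have h0 : D ≠ 0 := by
    rintro rfl
    exact not_isUnit_zero (hD.2 0 (dvd_zero _))
  intro h1
  exact h0 (RingOfIntegers.coe_injective (h1.trans (map_zero _).symm))

/-- another family of representatives -/
theorem jk_cong {κ κ' : Type} {v : κ → K} {v' : κ' → K}
    (h : ∀ e', ∃ e, ∃ z : K, z ≠ 0 ∧ v' e' = v e * z ^ 3) {D : 𝓞 K} (hJ : JK v D) : JK v' D := by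
  intro e'
  obtain ⟨e, z, hz, he⟩ := h e'
  obtain ⟨D', hD', ⟨c, hc, heq⟩, htri⟩ := hJ e
  refine ⟨D', hD', ⟨c / z, div_ne_zero hc hz, ?_⟩, htri⟩
  rw [heq, he]
  field_simp

/-- passing to the representative of a twist -/
theorem jk_twist {κ : Type} {v : κ → K} {u : K} {D D' : 𝓞 K} {z : K} (hz : z ≠ 0)
    (h : (D' : K) = u * D * z ^ 3) (hJ : JK (fun e => u * v e) D) : JK v D' := by
  intro e
  obtain ⟨D'', hD'', ⟨c, hc, heq⟩, htri⟩ := hJ e
  refine ⟨D'', hD'', ⟨c / z, div_ne_zero hc hz, ?_⟩, htri⟩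
  rw [heq, h]
  field_simp

/-- the classes of the elements that we use -/
def Cls (P : 𝓞 K → Prop) : Prop := (P = fun _ => True) ∨ ∃ a < 3, P = ExtH a

theorem c9_lt : c9 < 1 := lt_trans (Pool.Agent.Y528.XK.c9_main c9 rfl).2.2.2.2 (by norm_num)

/-- the limit for a class -/
theorem lim_P [IsCyclotomicExtension {3} ℚ K] {κ : Type} [Fintype κ] {u : κ → K}
    (hu : ∀ e, u e ≠ 0) (hd : ∀ e e', e ≠ e' → ∀ c : K, u e ≠ u e' * c ^ 3)
    {P : 𝓞 K → Prop} (hP : Cls P) :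
    Tendsto (fun X : ℕ => ({D : 𝓞 K | Algebra.norm ℤ D ≤ X ∧ FamH D ∧ P D ∧ JK u D}.ncard : ℝ) /
        ({D : 𝓞 K | Algebra.norm ℤ D ≤ X ∧ FamH D ∧ P D}.ncard : ℝ)) atTop
      (𝓝 (c9 ^ Fintype.card κ)) := by
  rcases hP with rfl | ⟨a, ha, rfl⟩
  · simp only [true_and, and_true]
    exact lim_JK t_ALL K hu hd
  · exact lim_JKc t_ALL K hu hd a ha

/-- **Any finite family.** -/
theorem low_all [IsCyclotomicExtension {3} ℚ K] {κ : Type} [Fintype κ] {v : κ → K}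
    (hv : ∀ e, v e ≠ 0) {P : 𝓞 K → Prop} (hP : Cls P) {x : ℝ} (hx : x < c9 ^ Fintype.card κ) :
    ∀ᶠ X : ℕ in atTop, x < ({D : 𝓞 K | Algebra.norm ℤ D ≤ X ∧ FamH D ∧ P D ∧ JK v D}.ncard : ℝ) /
        ({D : 𝓞 K | Algebra.norm ℤ D ≤ X ∧ FamH D ∧ P D}.ncard : ℝ) := by
  let r : Setoid κ :=
    { r := fun e e' => ∃ z : K, z ≠ 0 ∧ v e = v e' * z ^ 3
      iseqv := by
        refine ⟨fun e => ⟨1, one_ne_zero, by ring⟩, ?_, ?_⟩
        · rintro e e' ⟨z, hz, h⟩
          refine ⟨z⁻¹, inv_ne_zero hz, ?_⟩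
          rw [h]
          field_simp
        · rintro e e' e'' ⟨z, hz, h⟩ ⟨z', hz', h'⟩
          exact ⟨z' * z, mul_ne_zero hz' hz, by rw [h, h']; ring⟩ }
  have h1 := lim_P (K := K) (κ := Quotient r) (u := fun q => v q.out) (fun q => hv _)
    (fun q q' hqq c hc => by
      have hc0 : c ≠ 0 := by
        rintro rfl
        exact hv q.out (by rw [hc]; ring)
      apply hqq
      rw [← q.out_eq, ← q'.out_eq]
      exact Quotient.sound ⟨c, hc0, hc⟩) hP
  have h2 : Fintype.card (Quotient r) ≤ Fintype.card κ := Fintype.card_quotient_le r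
  have h3 : x < c9 ^ Fintype.card (Quotient r) :=
    lt_of_lt_of_le hx (pow_le_pow_of_le_one c9_pos.le c9_lt.le h2)
  filter_upwards [h1.eventually (lt_mem_nhds h3)] with X hX
  refine lt_of_lt_of_le hX ?_
  apply div_le_div_of_nonneg_right _ (Nat.cast_nonneg _)
  have h9 := Set.ncard_le_ncard (s := {D : 𝓞 K | Algebra.norm ℤ D ≤ X ∧ FamH D ∧ P D ∧
      JK (fun q : Quotient r => v q.out) D})
    (t := {D : 𝓞 K | Algebra.norm ℤ D ≤ X ∧ FamH D ∧ P D ∧ JK v D})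
    (fun D hD => ⟨hD.1, hD.2.1, hD.2.2.1, jk_cong (fun e => by
      obtain ⟨z, hz, h⟩ := Quotient.mk_out (s := r) e
      refine ⟨⟦e⟧, z⁻¹, inv_ne_zero hz, ?_⟩
      rw [h]
      field_simp) hD.2.2.2⟩)
    (fin_norm X _)
  exact_mod_cast h9

/-- the twist of `E_D` by `u` over `F` -/
theorem overF_tw [IsCyclotomicExtension {3} ℚ K] {F : Type} [Field F] [NumberField F] [Algebra K F]
    {I : Type} [Fintype I] {d : I → K} {x : I → F}
    (B : Bas d x) {u : K} {D : 𝓞 K} (h : JK (fun t => u * uu d t) D) :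
    Finite (ED (algebraMap K F (u * D))).toAffine.Point ∧
    ∀ (k : ℕ) (y : Sha (ED (algebraMap K F (u * D)))), 3 ^ k • y = 0 →
      Module.finrank K F • y = 0 := by
  obtain ⟨D', hD', ⟨z, hz, hDz⟩, -⟩ := h 0
  have h0 : uu d (0 : I → ZMod 3) = 1 := by
    unfold uu
    simp
  have hDz : (D' : K) = u * uu d (0 : I → ZMod 3) * D * z ^ 3 := hDz
  rw [h0, mul_one] at hDz
  obtain ⟨h1, h2, -⟩ := overF B hD' (jk_twist hz hDz h)
  have hz' : algebraMap K F z ≠ 0 := (map_ne_zero _).2 hz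
  have hD0 : algebraMap K F (D' : K) ≠ 0 := (map_ne_zero _).2 (famH_ne' hD')
  have e1 : algebraMap K F (u * D) = algebraMap K F (D' : K) * ((algebraMap K F z)⁻¹) ^ 3 := by
    rw [hDz, map_mul, map_mul, map_mul, map_pow]
    field_simp
  have hvr : Pool.Agent.Y700.VR (ED (algebraMap K F (u * D))) (ED (algebraMap K F (D' : K)))
      (algebraMap K F z)⁻¹ 0 0 0 := by
    refine ⟨inv_ne_zero hz', ?_, ?_, ?_, ?_, ?_⟩ <;> simp [ED]
    rw [← map_mul, e1]
    ring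
  have hΔ : (ED (algebraMap K F (D' : K))).Δ ≠ 0 := by
    rw [Pool.Agent.Y696.CTK.ED_Δ]
    exact mul_ne_zero (by norm_num) (pow_ne_zero 4 hD0)
  refine ⟨Finite.of_equiv _ (hvr.equiv hΔ).toEquiv, fun k y hy => ?_⟩
  let J : Sha (ED (algebraMap K F (D' : K))) ≃+ Sha (ED (algebraMap K F (u * D))) :=
    (Pool.Agent.Y655.XT.isoVR hvr hΔ).sha
  have h3 := h2 k (J.symm y) (by rw [← map_nsmul, hy, map_zero])
  rw [← B.deg] at h3
  have h4 := congrArg J h3
  rwa [map_nsmul, J.apply_symm_apply, map_zero] at h4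

/-- **Several fields and twists.** -/
theorem low_multi [IsCyclotomicExtension {3} ℚ K] {ι : Type} [Fintype ι] {F : ι → Type}
    [∀ i, Field (F i)] [∀ i, NumberField (F i)] [∀ i, Algebra K (F i)] {S : ∀ i, Set (F i)}
    (hS : ∀ i, ∀ x ∈ S i, ∃ w : K, x ^ 3 = algebraMap K (F i) w)
    (hgen : ∀ i, IntermediateField.adjoin K (S i) = ⊤) {u : ι → K} (hu : ∀ i, u i ≠ 0)
    {P : 𝓞 K → Prop} (hP : Cls P) {x : ℝ} (hx : x < c9 ^ ∑ i, Module.finrank K (F i)) :
    ∀ᶠ X : ℕ in atTop, x < ({D : 𝓞 K | Algebra.norm ℤ D ≤ X ∧ FamH D ∧ P D ∧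
        ∀ i, Finite (ED (algebraMap K (F i) (u i * D))).toAffine.Point ∧
          ∀ (k : ℕ) (y : Sha (ED (algebraMap K (F i) (u i * D)))), 3 ^ k • y = 0 →
            Module.finrank K (F i) • y = 0}.ncard : ℝ) /
        ({D : 𝓞 K | Algebra.norm ℤ D ≤ X ∧ FamH D ∧ P D}.ncard : ℝ) := by
  choose r d y B using fun i => bas_of (K := K) (hS i) (hgen i)
  let v : (Σ i, Fin (r i) → ZMod 3) → K := fun p => u p.1 * uu (d p.1) p.2
  have hcard : Fintype.card (Σ i, Fin (r i) → ZMod 3) = ∑ i, Module.finrank K (F i) := by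
    rw [Fintype.card_sigma]
    refine Finset.sum_congr rfl fun i _ => ?_
    rw [(B i).deg]
    simp [ZMod.card]
  have h1 := low_all (K := K) (v := v) (fun p => mul_ne_zero (hu _) (uu_ne (B p.1).ne _)) hP
    (x := x) (by rw [hcard]; exact hx)
  filter_upwards [h1] with X hX
  refine lt_of_lt_of_le hX ?_
  apply div_le_div_of_nonneg_right _ (Nat.cast_nonneg _)
  have h9 := Set.ncard_le_ncard (s := {D : 𝓞 K | Algebra.norm ℤ D ≤ X ∧ FamH D ∧ P D ∧ JK v D})
    (t := {D : 𝓞 K | Algebra.norm ℤ D ≤ X ∧ FamH D ∧ P D ∧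
        ∀ i, Finite (ED (algebraMap K (F i) (u i * D))).toAffine.Point ∧
          ∀ (k : ℕ) (y : Sha (ED (algebraMap K (F i) (u i * D)))), 3 ^ k • y = 0 →
            Module.finrank K (F i) • y = 0})
    (fun D hD => ⟨hD.1, hD.2.1, hD.2.2.1, fun i =>
      overF_tw (B i) (jk_cong (v := v) (fun t => ⟨⟨i, t⟩, 1, one_ne_zero, by
        show u i * uu (d i) t = u i * uu (d i) t * 1 ^ 3
        ring⟩) hD.2.2.2)⟩)
    (fin_norm X _)
  exact_mod_cast h9

end Pool.Agent.D0H69.JTL
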