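import Pool.Agent.D0H69.JT.StmB
import Pool.Agent.D0H69.L0F.Cls

/-!
# Project JT (helper69): the criterion
-/

set_option autoImplicit false
set_option linter.unusedVariables false

open scoped Classical

namespace Pool.Agent.D0H69.JTA

open NumberField Finset
open Pool.Agent.D0H69.JT
open Pool.Agent.Y692.QS (Ei w nr toC nr_mul)
open Pool.Agent.Y703.CT (Dt pD Ker)
open Pool.Agent.Y715.T.Gi (lam)
open Pool.Agent.R419.KF (wt el GdW SolW)
open Pool.Agent.N883.FF (ClU FamE KerB nq)
open Pool.Agent.Y696.CTK (Tri ED)
open Pool.Agent.D0H43.L3 (KerT tq yq)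
open Pool.Agent.D0H43.L9 (KerN qN)
open Pool.Agent.D0H69.L0 (KerM Ntl)
open Pool.Agent.D0H69.L0D (NtS)
open Pool.Agent.D0H50.JL
open Pool.Agent.D0H10.KH
open Pool.Agent.D0H69.L0F

theorem gdW_ker {J : Type} [Fintype J] {π : J → Ei} {M S : Finset Ei}
    (hinj : Function.Injective π) (himg : univ.image π = S) :
    GdW M S ↔ Ker π (fun i => wt M (π i)) := by
  unfold GdW Ker SolW
  rw [← forall_res hinj]
  refine forall_congr' fun v => ?_
  rw [ball_res himg, ball_res himg]
  simp only [sum_res hinj himg, ball_res himg]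

theorem t_TRI : S_TRI := by
  intro K _ _ _ j hj a i M S hMS hne
  obtain ⟨n, π, hdt, hel, hinj, himg⟩ := datt hMS hne
  have hD : Del a i M S = sg true * (lam ^ a.val * (w ^ i.val * pD π (fun i => wt M (π i)))) := by
    unfold Del sg
    rw [if_pos rfl, one_mul, hel]
  have h3 : a = 0 ∨ a = 1 ∨ a = 2 := by
    have h : ∀ a : ZMod 3, a = 0 ∨ a = 1 ∨ a = 2 := by decide
    exact h a
  rw [hD]
  unfold GG
  rcases h3 with rfl | rfl | rfl
  · rw [if_pos rfl]
    have hv : (0 : ZMod 3).val = 0 := rfl
    rw [hv]
    by_cases hi : i = 0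
    · subst hi
      rw [if_pos rfl]
      have hN : NtS M S ↔ Ntl π (fun i => wt M (π i)) := by
        unfold NtS Ntl
        rw [sum_res hinj himg]
      by_cases hn : NtS M S
      · rw [triM j hdt (hN.1 hn) true, kerM_iff]
        constructor
        · intro h
          refine ⟨fun _ => ?_, fun h' => absurd hn h'⟩
          rw [gdC_ker hinj himg, sum_res hinj himg]
          exact h
        · rintro ⟨h, -⟩
          have h1 := h hn
          rw [gdC_ker hinj himg, sum_res hinj himg] at h1
          exact h1
      · have h9 : ¬ (9 : ℤ) ∣ nr (pD π fun i => wt M (π i)) - 1 := fun h =>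
          hn (hN.2 ((ntl_iff hdt).1 h))
        rw [tri0 j hdt 0 (fun _ => h9) true, e0,
          Pool.Agent.R419.KF.tri_iff j Pool.Agent.Y696.CTK.parts hdt h9]
        constructor
        · intro h
          refine ⟨fun h' => absurd h' hn, fun _ => ?_⟩
          rw [gdW_ker hinj himg]
          exact h
        · rintro ⟨-, h⟩
          have h1 := h hn
          rw [gdW_ker hinj himg] at h1
          exact h1
    · have hB : Tri (j (w ^ i.val * pD π fun i => wt M (π i))) ↔
          KerB π (fun i => wt M (π i)) i :=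
        Pool.Agent.N883.FF.tri_iffB Pool.Agent.N883.FF.partsB j hdt hi
      rw [if_neg hi, tri0 j hdt i (fun h => absurd h hi) true, hB, gdP_ker hinj himg]
      unfold KerB KerP
      have h : ∀ j, qG i 0 (π j) = i * nq (π j) := fun j => by
        unfold qG
        rw [zero_mul, add_zero]
      simp only [h]
  · rw [if_neg (by decide), if_pos rfl]
    have hv : (1 : ZMod 3).val = 1 := rfl
    rw [hv, tri9 j hdt i true, kerN_iff, gdG_ker hinj himg]
  · rw [if_neg (by decide), if_neg (by decide)]
    have hv : (2 : ZMod 3).val = 2 := rfl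
    rw [hv, tri3 j hdt i true, kerT_iff, gdP_ker hinj himg]

end Pool.Agent.D0H69.JTA
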