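import Pool.Agent.D0H69.JT.Fin2
import Pool.Agent.D0H69.JT.TriC
import Pool.Agent.D0H22.JT.Bon
import Pool.Agent.D0H22.JT.Comp
import Pool.Agent.D0H22.JT.L1
import Pool.Agent.D0H23.JT.Red
import Pool.Agent.D0H52.JT.Alg
import Pool.Agent.D0H52.JT.Jlf
import Pool.Agent.D0H52.JT.Kpow
import Pool.Agent.D0H52.JT.Mom
import Pool.Agent.D0H52.JT.Phi
import Pool.Agent.D0H52.JT.Prod
import Pool.Agent.D0H52.JT.Sm
import Pool.Agent.D0H87.JT.Gen4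
import Pool.Agent.D0H87.JT.Hals
import Pool.Agent.D0H98.JT.BadQ
import Pool.Agent.D0H98.JT.Good
import Pool.Agent.D0H98.JT.Ind
import Pool.Agent.D0H98.JT.Loce
import Pool.Agent.D0H98.JT.Rel
import Pool.Agent.D0H98.JT.Twi

/-!
# Project JT: all parts (helper22, helper23, helper52, helper87, helper98, helper69)
-/

set_option autoImplicit false

namespace Pool.Agent.D0H69.JTA

open Pool.Agent.D0H69.JT

theorem t_JLA : S_JLA :=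
  Pool.Agent.D0H23.JT.t_RED
    (Pool.Agent.D0H52.JT.t_JLF Pool.Agent.D0H22.JT.t_BON Pool.Agent.D0H22.JT.t_L1
      Pool.Agent.D0H22.JT.t_COMP Pool.Agent.D0H98.JT.t_IND Pool.Agent.D0H52.JT.t_MOM
      Pool.Agent.D0H98.JT.t_REL Pool.Agent.D0H98.JT.t_GOOD Pool.Agent.D0H52.JT.t_KPOW
      Pool.Agent.D0H52.JT.t_SM Pool.Agent.D0H52.JT.t_ALG Pool.Agent.Y804.XK.t_SYM
      Pool.Agent.D0H69.L3K.hc9 Pool.Agent.D0H52.JT.t_PHI)

theorem t_ALL : S_ALL :=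
  ⟨t_JLA, Pool.Agent.D0H98.JT.t_TWI, Pool.Agent.D0H87.JT.t_GEN4, Pool.Agent.D0H87.JT.t_HALS,
    Pool.Agent.D0H98.JT.t_BADQ, Pool.Agent.D0H98.JT.t_LOCE, Pool.Agent.D0H52.JT.t_REP,
    Pool.Agent.D0H52.JT.t_PROD, Pool.Agent.D0H52.JT.t_CFU, t_TRI⟩


end Pool.Agent.D0H69.JTA
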