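import Pool.Agent.D0H69.JT.StmA
import Pool.Agent.D0H50.JL.Gen

/-!
# Project JT: the count in a box from the descriptions on the labels

Adapted from the file `D0H50/JL/Gen.lean` of helper50 (after `D0H69/L0D/Box.lean`, helper10).
-/

set_option autoImplicit false

open scoped Classical

namespace Pool.Agent.D0H69.JT

open Finset
open Pool.Agent.Y692.QS (Ei)
open Pool.Agent.Y715.T.Rec (cs)
open Pool.Agent.Y715.T.RecG (Pq)
open Pool.Agent.Y703.XK (prs HB S_EQ GdA c9)
open Pool.Agent.Y688.XK (lb HB_sub)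
open Pool.Agent.R419.KF (wt)
open Pool.Agent.N883.FF (nq)
open Pool.Agent.D0H43.L3 (yq)
open Pool.Agent.D0H10.L9D (NdN)
open Pool.Agent.D0H10.L9D.Box (LNB nd_iff)
open Pool.Agent.D0H50.JL (Tup)

namespace BoxQ

/-- the good labels -/
def LNQ {ι : Type} [Fintype ι] (Q : Finset Ei) (V : ℕ) (S₀ : Finset Ei)
    (β : ι → (S₀ ∪ Q : Finset Ei) → ZMod 3) (γ δ : ι → ZMod 3) : Prop :=
  LNB (S₀ ∪ Q) β γ δ ∧ ∀ (f : Ei → ZMod 3) (t s : ZMod 3),
    ((∃ q ∈ Q, f q ≠ 0) ∨ t ≠ 0 ∨ s ≠ 0) → 2 * (S₀ ∪ Q).card + V ≤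
      (univ.filter fun k => ∑ u : (S₀ ∪ Q : Finset Ei), (if (u : Ei) ∈ Q then f u else 0) * β k u +
        t * γ k + s * δ k ≠ 0).card

theorem sum_Q {ι : Type} (Q S₀ : Finset Ei) (f g : Ei → ZMod 3) :
    ∑ u : (S₀ ∪ Q : Finset Ei), (if (u : Ei) ∈ Q then f u else 0) * g u = ∑ q ∈ Q, f q * g q := by
  rw [Finset.sum_coe_sort (S₀ ∪ Q) (fun u => (if u ∈ Q then f u else 0) * g u)]
  have h1 : ∑ q ∈ Q, f q * g q = ∑ q ∈ Q, (if q ∈ Q then f q else 0) * g q :=
    Finset.sum_congr rfl fun q hq => by rw [if_pos hq]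
  rw [h1]
  symm
  refine Finset.sum_subset Finset.subset_union_right fun q _ hq => ?_
  rw [if_neg hq, zero_mul]

theorem ndq_iff {ι : Type} [Fintype ι] {Q S₀ : Finset Ei} {V : ℕ} {p : ι → Ei}
    (hp : Function.Injective p) : NdQ Q V S₀ (univ.image p) ↔
      LNQ Q V S₀ (fun i => lb (S₀ ∪ Q) (p i)) (fun k => nq (p k)) (fun k => yq (p k)) := by
  unfold NdQ LNQ
  rw [nd_iff]
  refine and_congr Iff.rfl (forall_congr' fun f => forall_congr' fun t => forall_congr' fun s =>
    forall_congr' fun _ => ?_)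
  have h1 : ((univ.image p).filter fun π => ∑ q ∈ Q, f q * cs q π + t * nq π + s * yq π ≠ 0).card =
      (univ.filter fun k => ∑ u : (S₀ ∪ Q : Finset Ei), (if (u : Ei) ∈ Q then f u else 0) *
        lb (S₀ ∪ Q) (p k) u + t * nq (p k) + s * yq (p k) ≠ 0).card := by
    rw [Finset.filter_image, Finset.card_image_of_injective _ hp]
    congr 1
    refine Finset.filter_congr fun k _ => ?_
    have h2 := sum_Q (ι := ι) Q S₀ f (fun u => cs u (p k))
    have h3 : ∑ u : (S₀ ∪ Q : Finset Ei), (if (u : Ei) ∈ Q then f u else 0) *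
        lb (S₀ ∪ Q) (p k) u = ∑ q ∈ Q, f q * cs q (p k) := h2
    rw [h3]
  rw [h1]

end BoxQ

open BoxQ in
/-- **The count in a box.** -/
theorem boxQ (hEQ : S_EQ) (hJLA : S_JLA) {κ : Type} [Fintype κ] (Q : Finset Ei)
    (f : κ → Ei → ZMod 3) (x : κ → ZMod 3 × ZMod 3) (G : κ → Finset Ei → Finset Ei → Prop)
    (hdist : ∀ j j', j ≠ j' → (∃ q ∈ Q, f j q ≠ f j' q) ∨ x j ≠ x j')
    (hL : ∀ j, LocQ Q (f j) (x j) (G j)) :
    SBoxQ Q (c9 ^ Fintype.card κ) (fun M S => ∀ j, G j M S) := by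
  intro ε hε
  obtain ⟨V₁, hV₁⟩ := hJLA κ ε hε
  refine ⟨V₁ + 6, ?_⟩
  intro V hV ι _ _ C X κ' M S₀ hM hκ hCX hHB hS₀ hC hdis hnq
  suffices H : ∀ TT : (ι → Ei) → Prop, (∀ p, TT p ↔ ∀ j, G j M (S₀ ∪ univ.image p)) →
      |(((Fintype.piFinset C).filter fun p => NdQ Q V S₀ (univ.image p) ∧ TT p).card : ℝ) -
      c9 ^ Fintype.card κ *
        (((Fintype.piFinset C).filter fun p => NdQ Q V S₀ (univ.image p)).card : ℝ)| ≤
    ε * (((Fintype.piFinset C).filter fun p => NdQ Q V S₀ (univ.image p)).card : ℝ) +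
    3 ^ ((S₀ ∪ Q).card * Fintype.card ι + (prs ι).card) * (κ' * ∏ j, (X j : ℝ)) from
    H (fun p => ∀ j, G j M (S₀ ∪ univ.image p)) fun _ => Iff.rfl
  intro TT hTT
  obtain ⟨cκ, hcκ⟩ : ∃ cκ : ℝ, cκ = c9 ^ Fintype.card κ := ⟨_, rfl⟩
  obtain ⟨R, hR⟩ : ∃ R : ℝ, R = 3 ^ (prs ι).card * (κ' * ∏ j, (X j : ℝ)) := ⟨_, rfl⟩
  have hR0 : 0 ≤ R := by
    rw [hR]
    exact mul_nonneg (by positivity)
      (mul_nonneg hκ (Finset.prod_nonneg fun j _ => by positivity))
  -- the labels at `ω` and `9`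
  obtain ⟨γ, hγ⟩ : ∃ γ : ι → ZMod 3, ∀ k, ∀ π ∈ C k, nq π = γ k :=
    ⟨fun k => if h : (C k).Nonempty then nq h.choose else 0, fun k π hπ => by
      have h : (C k).Nonempty := ⟨π, hπ⟩
      show nq π = if h : (C k).Nonempty then nq h.choose else 0
      rw [dif_pos h]
      exact (hnq k π hπ _ h.choose_spec).1⟩
  obtain ⟨δ, hδ⟩ : ∃ δ : ι → ZMod 3, ∀ k, ∀ π ∈ C k, yq π = δ k :=
    ⟨fun k => if h : (C k).Nonempty then yq h.choose else 0, fun k π hπ => by
      have h : (C k).Nonempty := ⟨π, hπ⟩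
      show yq π = if h : (C k).Nonempty then yq h.choose else 0
      rw [dif_pos h]
      exact (hnq k π hπ _ h.choose_spec).2⟩
  have hγp : ∀ p ∈ Fintype.piFinset C, (fun k => nq (p k)) = γ := by
    intro p hp
    rw [Fintype.mem_piFinset] at hp
    exact funext fun k => hγ k _ (hp k)
  have hδp : ∀ p ∈ Fintype.piFinset C, (fun k => yq (p k)) = δ := by
    intro p hp
    rw [Fintype.mem_piFinset] at hp
    exact funext fun k => hδ k _ (hp k)
  have hinj : ∀ p ∈ Fintype.piFinset C, Function.Injective p := by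
    intro p hp i j hij
    rw [Fintype.mem_piFinset] at hp
    by_contra hne
    have h1 := Finset.disjoint_left.1 (hdis i j hne) (hp i)
    rw [hij] at h1
    exact h1 (hp j)
  -- facts on tuples
  have htup : ∀ p ∈ Fintype.piFinset C, Tup (S₀ ∪ Q) γ δ p := by
    intro p hp
    refine ⟨hinj p hp, ?_, ?_, hγp p hp, hδp p hp⟩
    · intro i
      rw [Fintype.mem_piFinset] at hp
      exact (hC i _ (hp i)).1
    · intro i
      rw [Fintype.mem_piFinset] at hp
      exact (hC i _ (hp i)).2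
  -- the part with given labels
  have h1 : ∀ β : ι → (S₀ ∪ Q : Finset Ei) → ZMod 3, LNQ Q V S₀ β γ δ →
      |(((Fintype.piFinset C).filter fun p => (fun i => lb (S₀ ∪ Q) (p i)) = β ∧
          TT p).card : ℝ) -
        cκ * (((Fintype.piFinset C).filter fun p =>
          (fun i => lb (S₀ ∪ Q) (p i)) = β).card : ℝ)| ≤
      ε * (((Fintype.piFinset C).filter fun p =>
        (fun i => lb (S₀ ∪ Q) (p i)) = β).card : ℝ) + R := by
    intro β hβ
    have hι : 2 * (S₀ ∪ Q).card + V ≤ Fintype.card ι :=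
      (hβ.2 (fun _ => 0) 1 0 (Or.inr (Or.inl one_ne_zero))).trans (Finset.card_le_univ _)
    have hcard : (S₀ ∪ Q).card + 2 < Fintype.card ι := by omega
    choose U hU Am Bm hcU hsym hnd hrow hG using fun j => hL j ι M S₀ γ δ hM hS₀ hcard β hβ.1
    obtain ⟨C', hC'⟩ : ∃ C' : ι → Finset Ei, C' = fun i =>
      (C i).filter fun q => lb (S₀ ∪ Q) q = β i := ⟨_, rfl⟩
    have hpi : (Fintype.piFinset C).filter (fun p => (fun i => lb (S₀ ∪ Q) (p i)) = β) =
        Fintype.piFinset C' := by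
      ext p
      simp only [Finset.mem_filter, Fintype.mem_piFinset, hC']
      constructor
      · rintro ⟨h2, h3⟩ i
        exact ⟨h2 i, congrFun h3 i⟩
      · intro h2
        exact ⟨fun i => (h2 i).1, funext fun i => (h2 i).2⟩
    have h2 := @hV₁ ((S₀ ∪ Q).card + 2) U hU ι _ _ Am Bm hcU (by omega) hsym hnd (by
      intro j j' hjj
      -- the character of the difference
      have h3 := hβ.2 (fun q => f j q - f j' q) ((x j).1 - (x j').1) ((x j).2 - (x j').2) (by
        rcases hdist j j' hjj with ⟨q, hq, hne⟩ | hne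
        · exact Or.inl ⟨q, hq, sub_ne_zero.2 hne⟩
        · right
          by_contra hno
          push Not at hno
          exact hne (Prod.ext (sub_eq_zero.1 hno.1) (sub_eq_zero.1 hno.2)))
      have h4 : (univ.filter fun k => ∑ u : (S₀ ∪ Q : Finset Ei),
          (if (u : Ei) ∈ Q then f j u - f j' u else 0) * β k u + ((x j).1 - (x j').1) * γ k +
            ((x j).2 - (x j').2) * δ k ≠ 0) ⊆
          ((univ.filter fun k => ∑ a, Bm j a k ≠ ∑ a, Bm j' a k) ∪
          (univ.filter fun k => ∑ u, Bm j u k ≠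
            ∑ u : (S₀ ∪ Q : Finset Ei), ((if (u : Ei) ∈ S₀ then wt M u else 0) +
              (if (u : Ei) ∈ Q then f j u else 0)) * β k u + (x j).1 * γ k + (x j).2 * δ k)) ∪
          (univ.filter fun k => ∑ u, Bm j' u k ≠
            ∑ u : (S₀ ∪ Q : Finset Ei), ((if (u : Ei) ∈ S₀ then wt M u else 0) +
              (if (u : Ei) ∈ Q then f j' u else 0)) * β k u + (x j').1 * γ k +
                (x j').2 * δ k) := by
        intro k hk
        rw [Finset.mem_filter] at hk
        rw [Finset.mem_union, Finset.mem_union, Finset.mem_filter, Finset.mem_filter,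
          Finset.mem_filter]
        by_contra hno
        push Not at hno
        obtain ⟨⟨n1, n2⟩, n3⟩ := hno
        have n1 := n1 (Finset.mem_univ k)
        have n2 := n2 (Finset.mem_univ k)
        have n3 := n3 (Finset.mem_univ k)
        apply hk.2
        have e1 : ∑ u : (S₀ ∪ Q : Finset Ei), (if (u : Ei) ∈ Q then f j u - f j' u else 0) *
            β k u = ∑ u : (S₀ ∪ Q : Finset Ei), ((if (u : Ei) ∈ S₀ then wt M u else 0) +
              (if (u : Ei) ∈ Q then f j u else 0)) * β k u -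
            ∑ u : (S₀ ∪ Q : Finset Ei), ((if (u : Ei) ∈ S₀ then wt M u else 0) +
              (if (u : Ei) ∈ Q then f j' u else 0)) * β k u := by
          rw [← Finset.sum_sub_distrib]
          refine Finset.sum_congr rfl fun u _ => ?_
          by_cases hu : (u : Ei) ∈ Q
          · rw [if_pos hu, if_pos hu, if_pos hu]
            ring
          · rw [if_neg hu, if_neg hu, if_neg hu]
            ring
        rw [e1]
        linear_combination n3 - n2 + n1
      have h5 := (h3.trans (Finset.card_le_card h4)).trans ((Finset.card_union_le _ _).trans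
        (Nat.add_le_add_right (Finset.card_union_le _ _) _))
      have h6 := hrow j
      have h7 := hrow j'
      omega)
    obtain ⟨Qα, hQ⟩ : ∃ Qα : (prs ι → ZMod 3) → Prop, Qα = fun α =>
        ∀ j, GdA (Am j) (Bm j) (Pool.Agent.Y703.XK.ext α) := ⟨_, rfl⟩
    have h3 := hEQ ι C' X κ' hκ
      (fun i => (Finset.card_le_card (by rw [hC']; exact Finset.filter_subset _ _)).trans (hCX i))
      (by rw [hC']; exact HB_sub hHB fun i q => lb (S₀ ∪ Q) q = β i) Qα
    have h4 : ((Fintype.piFinset C).filter fun p => (fun i => lb (S₀ ∪ Q) (p i)) = β ∧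
        TT p) = ((Fintype.piFinset C').filter fun p =>
          Qα fun e => cs (p e.1.1) (p e.1.2)) := by
      rw [← hpi, Finset.filter_filter]
      refine Finset.filter_congr fun p hp => ?_
      refine and_congr_right fun hl => ?_
      rw [hQ, hTT]
      exact forall_congr' fun j => hG j p (htup p hp) hl
    have h5 : (((Fintype.piFinset C').card : ℕ) : ℝ) = ∏ j, ((C' j).card : ℝ) := by
      rw [Fintype.card_piFinset]
      push_cast
      rfl
    rw [h4, hpi, h5]
    rw [← hR] at h3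
    obtain ⟨n, hn⟩ : ∃ n : ℝ, n = (((Fintype.piFinset C').filter fun p =>
          Qα fun e => cs (p e.1.1) (p e.1.2)).card : ℝ) := ⟨_, rfl⟩
    obtain ⟨q, hq⟩ : ∃ q : ℝ, q = ((univ.filter Qα).card : ℝ) / 3 ^ (prs ι).card := ⟨_, rfl⟩
    obtain ⟨P, hP⟩ : ∃ P : ℝ, P = ∏ j, ((C' j).card : ℝ) := ⟨_, rfl⟩
    have hP0 : 0 ≤ P := by
      rw [hP]
      exact Finset.prod_nonneg fun j _ => by positivity
    have h2' : |q - cκ| ≤ ε := by
      rw [hq, hQ, hcκ]
      convert h2
    rw [← hn, ← hq, ← hP] at h3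
    rw [← hn, ← hP]
    have h6 : |n - cκ * P| ≤ |n - q * P| + |q - cκ| * P := by
      have h7 : n - cκ * P = (n - q * P) + (q - cκ) * P := by ring
      have h8 : |(q - cκ) * P| = |q - cκ| * P := by rw [abs_mul, abs_of_nonneg hP0]
      rw [h7, ← h8]
      exact abs_add_le _ _
    have h7 : |q - cκ| * P ≤ ε * P := mul_le_mul_of_nonneg_right h2' hP0
    linarith
  -- sum over the labels
  obtain ⟨LL, hLL⟩ : ∃ LL : Finset (ι → (S₀ ∪ Q : Finset Ei) → ZMod 3),
    LL = univ.filter (fun β => LNQ Q V S₀ β γ δ) := ⟨_, rfl⟩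
  have hfib : ∀ T : (ι → Ei) → Prop,
      (((Fintype.piFinset C).filter fun p => NdQ Q V S₀ (univ.image p) ∧ T p).card : ℝ) =
      ∑ β ∈ LL, (((Fintype.piFinset C).filter fun p =>
        (fun i => lb (S₀ ∪ Q) (p i)) = β ∧ T p).card : ℝ) := by
    intro T
    have hnd : ∀ p ∈ Fintype.piFinset C, (NdQ Q V S₀ (univ.image p) ↔
        LNQ Q V S₀ (fun i => lb (S₀ ∪ Q) (p i)) γ δ) := by
      intro p hp
      rw [ndq_iff (hinj p hp), hγp p hp, hδp p hp]
    rw [Finset.card_eq_sum_card_fiberwise (f := fun (p : ι → Ei) (i : ι) => lb (S₀ ∪ Q) (p i))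
      (t := LL) (by
        intro p hp
        rw [Finset.mem_coe, Finset.mem_filter] at hp
        rw [Finset.mem_coe, hLL, Finset.mem_filter]
        exact ⟨Finset.mem_univ _, (hnd p hp.1).1 hp.2.1⟩)]
    push_cast
    refine Finset.sum_congr rfl fun β hβ => ?_
    rw [hLL, Finset.mem_filter] at hβ
    congr 2
    ext p
    simp only [Finset.mem_filter]
    constructor
    · rintro ⟨⟨h3, h4, h4'⟩, h5⟩
      exact ⟨h3, h5, h4'⟩
    · rintro ⟨h3, h4, h5⟩
      refine ⟨⟨h3, ?_, h5⟩, h4⟩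
      rw [hnd p h3, h4]
      exact hβ.2
  have hf1 := hfib TT
  have hf2 : (((Fintype.piFinset C).filter fun p => NdQ Q V S₀ (univ.image p)).card : ℝ) =
      ∑ β ∈ LL, (((Fintype.piFinset C).filter fun p =>
        (fun i => lb (S₀ ∪ Q) (p i)) = β).card : ℝ) := by
    have h := hfib fun _ => True
    simp only [and_true] at h
    convert h
  rw [← hcκ, hf1, hf2, Finset.mul_sum, ← Finset.sum_sub_distrib]
  refine (Finset.abs_sum_le_sum_abs _ _).trans ?_
  have hLQ : ∀ β ∈ LL, LNQ Q V S₀ β γ δ := by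
    intro β hβ
    rw [hLL] at hβ
    exact (Finset.mem_filter.1 hβ).2
  refine (Finset.sum_le_sum (s := LL) fun β hβ => h1 β (hLQ β hβ)).trans ?_
  rw [Finset.sum_add_distrib, ← Finset.mul_sum, Finset.sum_const, nsmul_eq_mul]
  have h5 : ((LL.card : ℕ) : ℝ) ≤ 3 ^ ((S₀ ∪ Q).card * Fintype.card ι) := by
    have h6 : LL.card ≤ Fintype.card (ι → (S₀ ∪ Q : Finset Ei) → ZMod 3) :=
      Finset.card_le_univ _
    rw [Fintype.card_fun, Fintype.card_fun, ZMod.card, Fintype.card_coe, ← pow_mul] at h6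
    exact_mod_cast h6
  have h6 := mul_le_mul_of_nonneg_right h5 hR0
  rw [pow_add, mul_assoc, ← hR]
  linarith

end Pool.Agent.D0H69.JT
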