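import Pool.Agent.D0H69.JT.All
import Pool.Agent.D0H69.JT.Bas
import Pool.Agent.Y528.XK.C9A

/-!
# Project JT: final statements

The joint law of the twists `E_{u_i D}` and the curves `E_D` over the extensions of `K` generated by cube roots.
Authors: helper69 (design, analytic part, `L`-functions over `F`, assembly), helper22, helper23, helper52,
helper87, helper98 (modules of the project).
-/

set_option autoImplicit false
set_option linter.unusedVariables false
set_option linter.unusedSectionVars false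

open scoped Classical

namespace Pool.Agent.D0H69.JTL

open NumberField Filter Topology
open Pool.Agent.Y692.QS (Ei w nr toC nr_mul)
open Pool.Agent.Y696.CTK (Tri ED)
open Pool.Agent.Y703.XK (c9)
open Pool.Agent.Y696.XK (RkZ img_ncard)
open Pool.Agent.D0H10.KH (FamH FactsH ExtH famH_iff)
open Pool.Agent.D0H69.JTA (JK lim_JK lim_JKc t_ALL)
open Pool.Agent.TH841.NF.D (Sha)

/-- the constant -/
theorem c9_pos : 0 < c9 := lt_trans (by norm_num) Pool.Agent.XLK.t_C9.2.2.2.1

variable {K : Type} [Field K] [NumberField K]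

/-- the number of the elements of bounded norm is finite -/
theorem fin_norm [IsCyclotomicExtension {3} ℚ K] (X : ℕ) (P : 𝓞 K → Prop) :
    {D : 𝓞 K | Algebra.norm ℤ D ≤ X ∧ P D}.Finite := by
  obtain ⟨⟨j, hj⟩, -⟩ := Pool.Agent.Y455.CTK.jex K
  have h1 : {D : Ei | nr D ≤ X}.Finite := Pool.Agent.D0H69.L3K.fin_nr X
  refine (h1.image j).subset ?_
  rintro D ⟨hD, -⟩
  refine ⟨j.symm D, ?_, j.apply_symm_apply D⟩
  show nr (j.symm D) ≤ X
  rw [← hj, j.apply_symm_apply]
  exact hD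

/-- **Over `F`.** -/
theorem low_F [IsCyclotomicExtension {3} ℚ K] {F : Type} [Field F] [NumberField F] [Algebra K F]
    {S : Set F} (hS : ∀ x ∈ S, ∃ u : K, x ^ 3 = algebraMap K F u)
    (hgen : IntermediateField.adjoin K S = ⊤) {b : ℝ} (hb : b < c9 ^ Module.finrank K F) :
    ∀ᶠ X : ℕ in atTop, b < ({D : 𝓞 K | Algebra.norm ℤ D ≤ X ∧ FamH D ∧
        (Finite (ED (algebraMap K F (D : K))).toAffine.Point ∧
          (∀ (k : ℕ) (y : Sha (ED (algebraMap K F (D : K)))), 3 ^ k • y = 0 →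
            Module.finrank K F • y = 0) ∧
          ∃ Λ : ℂ → ℂ, MeromorphicOn Λ Set.univ ∧ AnalyticAt ℂ Λ 1 ∧ Λ 1 ≠ 0 ∧
            ∀ s : ℂ, 2 < s.re → Λ s = (ED (algebraMap K F (D : K))).LSeries s)}.ncard : ℝ) /
        ({D : 𝓞 K | Algebra.norm ℤ D ≤ X ∧ FamH D}.ncard : ℝ) := by
  obtain ⟨r, d, x, B⟩ := bas_of hS hgen
  have h1 := lim_JK t_ALL K (u := uu d) (fun e => uu_ne B.ne e) B.ind
  have h2 : Fintype.card (Fin r → ZMod 3) = Module.finrank K F := by
    rw [B.deg]
    simp [ZMod.card]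
  rw [h2] at h1
  filter_upwards [h1.eventually (lt_mem_nhds hb)] with X hX
  refine lt_of_lt_of_le hX ?_
  apply div_le_div_of_nonneg_right _ (Nat.cast_nonneg _)
  have h9 := Set.ncard_le_ncard (s := {D : 𝓞 K | Algebra.norm ℤ D ≤ X ∧ FamH D ∧ JK (uu d) D})
    (t := {D : 𝓞 K | Algebra.norm ℤ D ≤ X ∧ FamH D ∧
        (Finite (ED (algebraMap K F (D : K))).toAffine.Point ∧
          (∀ (k : ℕ) (y : Sha (ED (algebraMap K F (D : K)))), 3 ^ k • y = 0 →
            Module.finrank K F • y = 0) ∧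
          ∃ Λ : ℂ → ℂ, MeromorphicOn Λ Set.univ ∧ AnalyticAt ℂ Λ 1 ∧ Λ 1 ≠ 0 ∧
            ∀ s : ℂ, 2 < s.re → Λ s = (ED (algebraMap K F (D : K))).LSeries s)})
    (fun D hD => ⟨hD.1, hD.2.1, by
      have h3 := overF B hD.2.1 hD.2.2
      rw [← B.deg] at h3
      exact h3⟩)
    (fin_norm X _)
  exact_mod_cast h9

end Pool.Agent.D0H69.JTL
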