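import Pool.Agent.D0H69.JT.BoxQ
import Pool.Agent.D0H69.JT.KeyQ
import Pool.Agent.D0H69.JT.AsyQ
import Pool.Agent.D0H50.JL.Tot

/-!
# Project JT: the sum over the sets `M` of the primes with exponent `2`

Adapted from the file `D0H50/JL/Tot.lean` of helper50 (after `D0H69/L0D/Tot.lean`, helper10, helper419).
-/

set_option autoImplicit false

open scoped Classical
open Finset Filter

namespace Pool.Agent.D0H69.JTA

open Pool.Agent.Y692.QS (Ei w nr toC)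
open Pool.Agent.Y715.T.RecG (Pq)
open Pool.Agent.Y703.XK (c9 sm la)
open Pool.Agent.Y703.CX (zz kk)
open Pool.Agent.Y433.XK (pN pN_pos)
open Pool.Agent.R419.KF (wt SG el mem_SG ff ff_nonneg ff_sum ff_summable wt_ne)
open Pool.Agent.N883.FF (ClU SU ClP nq PP)
open Pool.Agent.N883.FF.Tot (mem_SU su_le card_eq card_cls)
open Pool.Agent.D0H69.L3K (hc9 fin_nr many)
open Pool.Agent.D0H50.JL (Err Gt N0 Ft)
open Pool.Agent.D0H69.JT (NdQ SKeyQ SBoxQ SAsyQ LocQ LocE Sf Mf S_JLA S_TWI S_BADQ S_GEN4 S_HALS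
  boxQ keyQ exq)

theorem abs_le_card {c : ℝ} (hc0 : 0 ≤ c) (hc1 : c ≤ 1) (G : Finset Ei → Finset Ei → Prop)
    (M : Finset Ei) (Y : ℕ) :
    |(((SU M Y).filter fun S => Ft M S ∧ G M S).card : ℝ) -
      c * (((SU M Y).filter (Ft M)).card : ℝ)| ≤ ((SU M Y).card : ℝ) := by
  have h2 : (((SU M Y).filter fun S => Ft M S ∧ G M S).card : ℝ) ≤ ((SU M Y).card : ℝ) := by
    exact_mod_cast card_filter_le _ _
  have h2' : (((SU M Y).filter (Ft M)).card : ℝ) ≤ ((SU M Y).card : ℝ) := by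
    exact_mod_cast card_filter_le _ _
  have h3 : (0 : ℝ) ≤ (((SU M Y).filter (Ft M)).card : ℝ) := Nat.cast_nonneg _
  exact Pool.Agent.Y703.CX.abs_sub_le_of (Nat.cast_nonneg _) h2 (mul_nonneg hc0 h3)
    ((mul_le_of_le_one_left h3 hc1).trans h2')

/-- **The law of one condition.** -/
theorem errQ {c : ℝ} (hc0 : 0 ≤ c) (hc1 : c ≤ 1) {G : Finset Ei → Finset Ei → Prop}
    (hA0 : SAsyQ c G) : Err Ft G c := by
  have hA : ∀ (M : Finset Ei) (ε : ℝ), 0 < ε → ∃ X₀ : ℕ, ∀ X : ℕ, X₀ ≤ X →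
      |(((SU M X).filter fun S => Ft M S ∧ G M S).card : ℝ) -
        c * (((SU M X).filter (Ft M)).card : ℝ)| ≤ ε * X := by
    intro M ε hε
    obtain ⟨X₀, h⟩ := hA0 M ε hε
    refine ⟨X₀, fun X hX => ?_⟩
    have e1 : (SU M X).filter (fun S => Ft M S ∧ G M S) = (SU M X).filter fun S => G M S :=
      filter_congr fun S _ => ⟨fun h => h.2, fun h => ⟨trivial, h⟩⟩
    have e2 : (SU M X).filter (Ft M) = SU M X := filter_true_of_mem fun _ _ => trivial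
    rw [e1, e2]
    exact h X hX
  intro δ hδ
  obtain ⟨T₀, hT₀⟩ := (summable_iff_vanishing_norm.1 ff_summable) (δ / 32) (by positivity)
  set ε' : ℝ := δ / (2 * ((T₀.card : ℝ) + 1)) with hε'
  have hε'0 : 0 < ε' := by positivity
  obtain ⟨F', hF⟩ : ∃ F' : Finset Ei → ℕ → ℝ, ∀ M Y, F' M Y =
      (((SU M Y).filter fun S => Ft M S ∧ G M S).card : ℝ) -
        c * (((SU M Y).filter (Ft M)).card : ℝ) := ⟨_, fun _ _ => rfl⟩
  have hev : ∀ᶠ X : ℕ in atTop, ∀ M ∈ T₀.filter (fun M => ∀ q ∈ M, Pq q),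
      |F' M (X / pN M)| ≤ ε' * X := by
    rw [eventually_all_finset]
    intro M hM
    have hp := pN_pos (mem_filter.1 hM).2
    obtain ⟨X₀, hX₀⟩ := hA M ε' hε'0
    filter_upwards [eventually_ge_atTop (X₀ * pN M)] with X hX
    have h5 : X₀ ≤ X / pN M := (Nat.le_div_iff_mul_le hp).2 hX
    rw [hF]
    refine (hX₀ _ h5).trans ?_
    have h6 : ((X / pN M : ℕ) : ℝ) ≤ X := by exact_mod_cast Nat.div_le_self _ _
    gcongr
  filter_upwards [hev] with X hX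
  have k1 : (Gt Ft G X : ℝ) - c * (N0 Ft X : ℝ) = ∑ M ∈ SG X, F' M (X / pN M) := by
    simp only [hF]
    rw [sum_sub_distrib, ← mul_sum]
    unfold Gt N0
    push_cast
    rfl
  have hX0 : (0 : ℝ) ≤ X := Nat.cast_nonneg _
  rw [k1]
  refine (abs_sum_le_sum_abs _ _).trans ?_
  rw [← sum_filter_add_sum_filter_not (SG X) (fun M => M ∈ T₀)]
  have k2 : ∑ M ∈ (SG X).filter (fun M => M ∈ T₀), |F' M (X / pN M)| ≤ δ / 2 * X := by
    have k3 : ∑ M ∈ (SG X).filter (fun M => M ∈ T₀), |F' M (X / pN M)| ≤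
        ∑ M ∈ (SG X).filter (fun M => M ∈ T₀), ε' * X := by
      refine sum_le_sum fun M hM => hX M ?_
      rw [mem_filter] at hM ⊢
      exact ⟨hM.2, (mem_SG.1 hM.1).1⟩
    refine k3.trans ?_
    rw [sum_const, nsmul_eq_mul]
    have k4 : ((((SG X).filter fun M => M ∈ T₀).card : ℕ) : ℝ) ≤ (T₀.card : ℝ) + 1 := by
      have : ((SG X).filter fun M => M ∈ T₀).card ≤ T₀.card :=
        card_le_card fun M hM => (mem_filter.1 hM).2
      have h6 : ((((SG X).filter fun M => M ∈ T₀).card : ℕ) : ℝ) ≤ (T₀.card : ℝ) := by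
        exact_mod_cast this
      linarith
    have k5 : (0 : ℝ) < (T₀.card : ℝ) + 1 := by positivity
    calc ((((SG X).filter fun M => M ∈ T₀).card : ℕ) : ℝ) * (ε' * X) ≤
        ((T₀.card : ℝ) + 1) * (ε' * X) := by gcongr
      _ = δ / 2 * X := by
        rw [hε']
        field_simp
  have k3 : ∑ M ∈ (SG X).filter (fun M => ¬ M ∈ T₀), |F' M (X / pN M)| ≤ δ / 2 * X := by
    have k4 : ∑ M ∈ (SG X).filter (fun M => ¬ M ∈ T₀), |F' M (X / pN M)| ≤
        ∑ M ∈ (SG X).filter (fun M => ¬ M ∈ T₀), 16 * (X * ff M) := by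
      refine sum_le_sum fun M hM => ?_
      rw [hF]
      refine (abs_le_card hc0 hc1 G M _).trans (su_le ?_ X)
      exact (mem_SG.1 (mem_filter.1 hM).1).1
    refine k4.trans ?_
    rw [← mul_sum, ← mul_sum]
    have k5 := hT₀ ((SG X).filter fun M => ¬ M ∈ T₀) (by
      rw [disjoint_left]
      intro M hM hM'
      exact (mem_filter.1 hM).2 hM')
    have k6 := (le_abs_self _).trans ((Real.norm_eq_abs _).symm.le.trans k5.le)
    calc 16 * ((X : ℝ) * ∑ M ∈ (SG X).filter (fun M => ¬ M ∈ T₀), ff M) ≤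
        16 * ((X : ℝ) * (δ / 32)) := by gcongr
      _ = δ / 2 * X := by ring
  calc _ ≤ δ / 2 * X + δ / 2 * X := add_le_add k2 k3
    _ = δ * X := by ring

/-- with the condition that the twist has a prime -/
theorem locQ_ne {Q : Finset Ei} {f : Ei → ZMod 3} {x : ZMod 3 × ZMod 3}
    {G : Finset Ei → Finset Ei → Prop} (h : LocQ Q f x (fun M S => G (Mf Q f M S) (Sf Q f M S))) :
    LocQ Q f x (fun M S => (Sf Q f M S).Nonempty ∧ G (Mf Q f M S) (Sf Q f M S)) := by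
  intro ι _ _ M S₀ γ δ hM hS₀ hcard β hβ
  obtain ⟨U, hU, A, B, h1, h2, h3, h4, h5⟩ := h ι M S₀ γ δ hM hS₀ hcard β hβ
  refine ⟨U, hU, A, B, h1, h2, h3, h4, fun p hp hl => ?_⟩
  have hne : (Sf Q f M (S₀ ∪ univ.image p)).Nonempty := by
    have hι : Nonempty ι := Fintype.card_pos_iff.1 (by omega)
    obtain ⟨k⟩ := hι
    refine ⟨p k, ?_⟩
    have hk := hp.2.2.1 k
    rw [Finset.mem_union, not_or] at hk
    unfold Sf
    rw [mem_filter, mem_union, mem_union, mem_image]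
    refine ⟨Or.inl (Or.inr ⟨k, mem_univ _, rfl⟩), ?_⟩
    unfold exq
    rw [if_pos (mem_union_right _ (mem_image_of_mem _ (mem_univ k))), if_neg hk.2, add_zero]
    exact wt_ne M _
  show (_ ∧ G _ _) ↔ _
  rw [and_iff_right hne]
  exact h5 p hp hl

/-- **The joint law.** -/
theorem joint (hJLA : S_JLA) (hTWI : S_TWI) (hGEN4 : S_GEN4) (hHALS : S_HALS) (hBADQ : S_BADQ)
    {κ : Type} [Fintype κ] (Q : Finset Ei) (hQ : ∀ q ∈ Q, Pq q)
    (f : κ → Ei → ZMod 3) (x : κ → ZMod 3 × ZMod 3) (G : κ → Finset Ei → Finset Ei → Prop)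
    (hdist : ∀ j j', j ≠ j' → (∃ q ∈ Q, f j q ≠ f j' q) ∨ x j ≠ x j')
    (hL : ∀ j, LocE (x j) (G j)) :
    Err Ft (fun M S => ∀ j, (Sf Q (f j) M S).Nonempty ∧ G j (Mf Q (f j) M S) (Sf Q (f j) M S))
      (c9 ^ Fintype.card κ) := by
  have h1 := boxQ Pool.Agent.Y710.XK.t_EQ hJLA Q f x
    (fun j M S => (Sf Q (f j) M S).Nonempty ∧ G j (Mf Q (f j) M S) (Sf Q (f j) M S)) hdist
    (fun j => locQ_ne (hTWI Q (f j) (x j) (G j) (hL j)))
  have h2 := keyQ Pool.Agent.Y363.XK.t_BIL Q (c9 ^ Fintype.card κ) _ h1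
  have hc0 : (0 : ℝ) ≤ c9 ^ Fintype.card κ := pow_nonneg hc9.2.1.le _
  have hc1 : c9 ^ Fintype.card κ ≤ 1 := pow_le_one₀ hc9.2.1.le hc9.2.2.1.le
  exact errQ hc0 hc1 (asyQ hc0 hc1 hQ (fun V => hBADQ hGEN4 hHALS Q V hQ) h2)

end Pool.Agent.D0H69.JTA
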