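import Pool.Agent.D0H69.JT.StmB
import Pool.Agent.D0H69.JT.TotQ

/-!
# Project JT (helper69): the limit
-/

set_option autoImplicit false
set_option linter.unusedVariables false
set_option linter.unusedSectionVars false

open scoped Classical

namespace Pool.Agent.D0H69.JTA

open NumberField Filter Topology
open Pool.Agent.D0H69.JT
open Pool.Agent.Y692.QS (Ei w nr toC nr_mul)
open Pool.Agent.Y715.T.RecG (Pq)
open Pool.Agent.Y703.XK (c9)
open Pool.Agent.Y715.T.Gi (lam prime_lam)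
open Pool.Agent.R419.KF (wt el SG)
open Pool.Agent.N883.FF (ClU FamE ClP PP)
open Pool.Agent.Y696.CTK (Tri ED)
open Pool.Agent.D0H50.JL (Err Ft lim_elt_all el_ne_one fam_lim)
open Pool.Agent.D0H10.KH

/-- the element is a cube times a twisting element -/
def Rp (Q : Finset Ei) (f : Ei → ZMod 3) (α ι : ZMod 3) (u : Ei) : Prop :=
  ∃ c : Ei, c ≠ 0 ∧ u = c ^ 3 * TwE Q f α ι

/-- one set `Q` for finitely many elements -/
theorem rep_all (hREP : S_REP) {κ : Type} [Fintype κ] (u : κ → Ei) (hu : ∀ e, u e ≠ 0) :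
    ∃ (Q : Finset Ei) (f : κ → Ei → ZMod 3) (α ι : κ → ZMod 3), (∀ q ∈ Q, Pq q) ∧
      ∀ e, Rp Q (f e) (α e) (ι e) (u e) := by
  choose c α ι Q f hc hQ hu' using fun e => hREP (u e) (hu e)
  refine ⟨Finset.univ.biUnion Q, fun e q => if q ∈ Q e then f e q else 0, α, ι, ?_, fun e => ?_⟩
  · intro q hq
    obtain ⟨e, -, he⟩ := Finset.mem_biUnion.1 hq
    exact hQ e q he
  · refine ⟨c e, hc e, ?_⟩
    conv_lhs => rw [hu' e]
    unfold TwE
    have h : ∏ q ∈ Finset.univ.biUnion Q, q ^ (if q ∈ Q e then f e q else 0).val =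
        ∏ q ∈ Q e, q ^ (f e q).val := by
      have h1 : Q e ⊆ Finset.univ.biUnion Q := Finset.subset_biUnion_of_mem Q (Finset.mem_univ e)
      rw [← Finset.prod_subset h1]
      · exact Finset.prod_congr rfl fun q hq => by rw [if_pos hq]
      · intro q _ hq
        rw [if_neg hq, ZMod.val_zero, pow_zero]
    rw [h]

section
variable {K : Type} [Field K] [NumberField K] (j : Ei ≃+* 𝓞 K)

/-- the cube-free representatives of the twists are trivial -/
def JE {κ : Type} (u : κ → Ei) (D : Ei) : Prop :=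
  ∀ e, ∃ D' c d : Ei, c ≠ 0 ∧ d ≠ 0 ∧ CFam D' ∧ D' * c ^ 3 = u e * D * d ^ 3 ∧ Tri (j D')

lemma tri_neg {a i : ZMod 3} {M S : Finset Ei} (hz : FamE (w ^ i.val * el M S)) :
    Tri (j (-Del a i M S)) ↔ Tri (j (Del a i M S)) := by
  have h1 := Pool.Agent.D0H69.L0F.tri_sg j false a.val (w ^ i.val * el M S) a.val_lt hz
  have e1 : sg false * (lam ^ a.val * (w ^ i.val * el M S)) = -Del a i M S := by
    unfold sg Del
    rw [if_neg (by decide)]
    ring
  have e2 : sg true * (lam ^ a.val * (w ^ i.val * el M S)) = Del a i M S := by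
    unfold sg Del
    rw [if_pos rfl, one_mul]
  rw [e1, e2] at h1
  exact h1

/-- the translation -/
theorem je_iff (hPROD : S_PROD) (hCFU : S_CFU) (hTRI : S_TRI) [IsCyclotomicExtension {3} ℚ K]
    (hj : ∀ z : Ei, Algebra.norm ℤ (j z) = nr z) {κ : Type} {Q : Finset Ei} (hQ : ∀ q ∈ Q, Pq q)
    {f : κ → Ei → ZMod 3} {α ι : κ → ZMod 3} {u : κ → Ei}
    (hu : ∀ e, Rp Q (f e) (α e) (ι e) (u e)) (a i : ZMod 3) {M S : Finset Ei} (hMS : ClU M S) :
    JE j u (Del a i M S) ↔ ∀ e, (Sf Q (f e) M S).Nonempty ∧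
      GG (a + α e) (i + ι e) (Mf Q (f e) M S) (Sf Q (f e) M S) := by
  refine forall_congr' fun e => ?_
  obtain ⟨c₀, hc₀, hu₀⟩ := hu e
  obtain ⟨hMS', c₁, hc₁, hprod⟩ := hPROD Q (f e) (α e) (ι e) a i M S hQ hMS
  have hE : u e * Del a i M S =
      (c₀ * c₁) ^ 3 * Del (a + α e) (i + ι e) (Mf Q (f e) M S) (Sf Q (f e) M S) := by
    rw [hu₀, mul_assoc, hprod]
    ring
  have hcc : c₀ * c₁ ≠ 0 := mul_ne_zero hc₀ hc₁
  constructor
  · rintro ⟨D', c, d, hc, hd, hD', heq, htri⟩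
    rw [hE] at heq
    have hne : (Sf Q (f e) M S).Nonempty := by
      by_contra hn
      rw [Finset.not_nonempty_iff_eq_empty] at hn
      have hM : Mf Q (f e) M S = ∅ := Finset.subset_empty.1 (hn ▸ hMS'.2)
      refine hCFU.2.2 D' c (c₀ * c₁ * d) hD' hc (mul_ne_zero hcc hd) (a + α e) (i + ι e) ?_
      rw [heq, hn, hM]
      unfold Del el
      rw [Finset.prod_empty]
      ring
    refine ⟨hne, ?_⟩
    obtain ⟨h1, h2⟩ := hCFU.1 (a + α e) (i + ι e) _ _ hMS' hne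
    rw [← hTRI K j hj _ _ _ _ hMS' hne]
    have h3 := hCFU.2.1 D' (Del (a + α e) (i + ι e) (Mf Q (f e) M S) (Sf Q (f e) M S)) c
      (c₀ * c₁ * d) hD' h1 hc (mul_ne_zero hcc hd) (by rw [heq]; ring)
    rcases h3 with h3 | h3
    · rw [← h3]
      exact htri
    · rw [h3, tri_neg j h2] at htri
      exact htri
  · rintro ⟨hne, hG⟩
    obtain ⟨h1, h2⟩ := hCFU.1 (a + α e) (i + ι e) _ _ hMS' hne
    refine ⟨Del (a + α e) (i + ι e) (Mf Q (f e) M S) (Sf Q (f e) M S), c₀ * c₁, 1, hcc,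
      one_ne_zero, h1, ?_, (hTRI K j hj _ _ _ _ hMS' hne).2 hG⟩
    rw [hE]
    ring

/-- one class -/
theorem lim_cls (hJLA : S_JLA) (hTWI : S_TWI) (hGEN4 : S_GEN4) (hHALS : S_HALS) (hBADQ : S_BADQ)
    (hLOCE : S_LOCE) (hREP : S_REP)
    (hPROD : S_PROD) (hCFU : S_CFU) (hTRI : S_TRI) [IsCyclotomicExtension {3} ℚ K]
    (hj : ∀ z : Ei, Algebra.norm ℤ (j z) = nr z) {κ : Type} [Fintype κ] {u : κ → Ei}
    (hu : ∀ e, u e ≠ 0) (hd : ∀ e e', e ≠ e' → ∀ c d : Ei, c ≠ 0 → d ≠ 0 →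
      u e * c ^ 3 ≠ u e' * d ^ 3) (a i : ZMod 3) :
    Tendsto (fun X : ℕ => ({z : Ei | nr z ≤ X ∧ ClP z ∧ (z ≠ 1 ∧
      JE j u (lam ^ a.val * (w ^ i.val * z)))}.ncard : ℝ) / (PP X : ℝ)) atTop
        (𝓝 (c9 ^ Fintype.card κ)) := by
  obtain ⟨Q, f, α, ι, hQ, hrep⟩ := rep_all hREP u hu
  have hdist : ∀ e e', e ≠ e' → (∃ q ∈ Q, f e q ≠ f e' q) ∨
      ((i + ι e, -(a + α e)) : ZMod 3 × ZMod 3) ≠ (i + ι e', -(a + α e')) := by
    intro e e' hee
    by_contra hcon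
    push Not at hcon
    obtain ⟨h1, h2⟩ := hcon
    rw [Prod.mk.injEq] at h2
    have h3 : ι e = ι e' := add_left_cancel h2.1
    have h4 : α e = α e' := add_left_cancel (neg_injective h2.2)
    obtain ⟨c, hc, hc'⟩ := hrep e
    obtain ⟨d, hd0, hd'⟩ := hrep e'
    have h5 : TwE Q (f e) (α e) (ι e) = TwE Q (f e') (α e') (ι e') := by
      unfold TwE
      rw [h3, h4, Finset.prod_congr rfl fun q hq => by rw [h1 q hq]]
    refine hd e e' hee d c hd0 hc ?_
    rw [hc', hd', h5]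
    ring
  have hE := joint hJLA hTWI hGEN4 hHALS hBADQ Q hQ f (fun e => (i + ι e, -(a + α e)))
    (fun e => GG (a + α e) (i + ι e)) hdist (fun e => hLOCE _ _)
  refine lim_elt_all hE (fun z => z ≠ 1 ∧ JE j u (lam ^ a.val * (w ^ i.val * z))) ?_
  intro M S hMS hne
  rw [and_iff_right (el_ne_one hMS hne)]
  exact je_iff j hPROD hCFU hTRI hj hQ hrep a i hMS

lemma je_sg {κ : Type} (u : κ → Ei) (b : Bool) (x : Ei) :
    JE j u (sg b * x) ↔ JE j u (sg true * x) := by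
  have e1 : ∀ b : Bool, sg b = sg b ^ 3 := fun b => by
    have := sg_mul b
    rw [pow_succ, pow_two, this, one_mul]
  have key : ∀ b b' : Bool, JE j u (sg b * x) → JE j u (sg b' * x) := by
    intro b b' h e
    obtain ⟨D', c, d, hc, hd, hD', heq, htri⟩ := h e
    refine ⟨D', c, d * (sg b * sg b'), hc, mul_ne_zero hd (mul_ne_zero (sg_unit b).ne_zero
      (sg_unit b').ne_zero), hD', ?_, htri⟩
    rw [heq]
    have h1 := sg_mul b
    have h2 := sg_mul b'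
    have h3 : sg b' * (sg b * sg b') ^ 3 = sg b := by
      calc sg b' * (sg b * sg b') ^ 3 = (sg b * sg b) * (sg b' * sg b') * (sg b' * sg b') * sg b := by
            ring
        _ = sg b := by rw [h1, h2]; ring
    calc u e * (sg b * x) * d ^ 3 = u e * (sg b' * (sg b * sg b') ^ 3 * x) * d ^ 3 := by rw [h3]
      _ = _ := by ring
  exact ⟨key b true, key true b⟩

/-- the classes -/
theorem lim_fam (hJLA : S_JLA) (hTWI : S_TWI) (hGEN4 : S_GEN4) (hHALS : S_HALS) (hBADQ : S_BADQ)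
    (hLOCE : S_LOCE) (hREP : S_REP)
    (hPROD : S_PROD) (hCFU : S_CFU) (hTRI : S_TRI) [IsCyclotomicExtension {3} ℚ K]
    (hj : ∀ z : Ei, Algebra.norm ℤ (j z) = nr z) {κ : Type} [Fintype κ] {u : κ → Ei}
    (hu : ∀ e, u e ≠ 0) (hd : ∀ e e', e ≠ e' → ∀ c d : Ei, c ≠ 0 → d ≠ 0 →
      u e * c ^ 3 ≠ u e' * d ^ 3) (a : ZMod 3) :
    Tendsto (fun X : ℕ => ({z : Ei | nr z ≤ X ∧ FamE z ∧
      JE j u (sg true * (lam ^ a.val * z))}.ncard : ℝ) / (FC X : ℝ)) atTop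
        (𝓝 (c9 ^ Fintype.card κ)) := by
  refine fam_lim (fun z => JE j u (sg true * (lam ^ a.val * z))) fun i => ?_
  have h := lim_cls j hJLA hTWI hGEN4 hHALS hBADQ hLOCE hREP hPROD hCFU hTRI hj hu hd a i
  have e1 : ∀ x : Ei, sg true * x = x := fun x => by
    unfold sg
    rw [if_pos rfl, one_mul]
  simp only [e1]
  exact h

/-- **The joint proportion in `Ei`.** -/
theorem lim_JE (hJLA : S_JLA) (hTWI : S_TWI) (hGEN4 : S_GEN4) (hHALS : S_HALS) (hBADQ : S_BADQ)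
    (hLOCE : S_LOCE) (hREP : S_REP)
    (hPROD : S_PROD) (hCFU : S_CFU) (hTRI : S_TRI) [IsCyclotomicExtension {3} ℚ K]
    (hj : ∀ z : Ei, Algebra.norm ℤ (j z) = nr z) {κ : Type} [Fintype κ] {u : κ → Ei}
    (hu : ∀ e, u e ≠ 0) (hd : ∀ e e', e ≠ e' → ∀ c d : Ei, c ≠ 0 → d ≠ 0 →
      u e * c ^ 3 ≠ u e' * d ^ 3) :
    Tendsto (fun X : ℕ => ({D : Ei | nr D ≤ X ∧ CFam D ∧ JE j u D}.ncard : ℝ) /
        ({D : Ei | nr D ≤ X ∧ CFam D}.ncard : ℝ)) atTop (𝓝 (c9 ^ Fintype.card κ)) := by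
  have key := lim_fam j hJLA hTWI hGEN4 hHALS hBADQ hLOCE hREP hPROD hCFU hTRI hj hu hd
  have h := lim3 (key 0) (key 1) (key 2)
  have e : (c9 ^ Fintype.card κ + c9 ^ Fintype.card κ / 3 + c9 ^ Fintype.card κ / 9) / (13 / 9) =
      c9 ^ Fintype.card κ := by ring
  rw [e] at h
  refine h.congr fun X => ?_
  rw [card_cfam, count' (JE j u) (fun a z => JE j u (sg true * (lam ^ a * z)))
    (fun b a z ha hz => je_sg j u b _) X]
  rfl

/-- **The joint proportion in the classes of `Ei`.** -/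
theorem lim_JEc (hJLA : S_JLA) (hTWI : S_TWI) (hGEN4 : S_GEN4) (hHALS : S_HALS) (hBADQ : S_BADQ)
    (hLOCE : S_LOCE) (hREP : S_REP)
    (hPROD : S_PROD) (hCFU : S_CFU) (hTRI : S_TRI) [IsCyclotomicExtension {3} ℚ K]
    (hj : ∀ z : Ei, Algebra.norm ℤ (j z) = nr z) {κ : Type} [Fintype κ] {u : κ → Ei}
    (hu : ∀ e, u e ≠ 0) (hd : ∀ e e', e ≠ e' → ∀ c d : Ei, c ≠ 0 → d ≠ 0 →
      u e * c ^ 3 ≠ u e' * d ^ 3) (a : ℕ) (ha : a < 3) :
    Tendsto (fun X : ℕ => ({D : Ei | nr D ≤ X ∧ CFam D ∧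
      ((lam ^ a ∣ D ∧ ¬ lam ^ (a + 1) ∣ D) ∧ JE j u D)}.ncard : ℝ) /
        ({D : Ei | nr D ≤ X ∧ CFam D ∧ (lam ^ a ∣ D ∧ ¬ lam ^ (a + 1) ∣ D)}.ncard : ℝ)) atTop
      (𝓝 (c9 ^ Fintype.card κ)) := by
  have hlf := lim_fam j hJLA hTWI hGEN4 hHALS hBADQ hLOCE hREP hPROD hCFU hTRI hj hu hd
  have hex : ∀ (b : Bool) (a' : ℕ) (z : Ei), FamE z →
      ((lam ^ a ∣ sg b * (lam ^ a' * z) ∧ ¬ lam ^ (a + 1) ∣ sg b * (lam ^ a' * z)) ↔ a' = a) := by
    intro b a' z hz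
    have hl := fam_lam hz
    have key : ∀ m : ℕ, lam ^ m ∣ sg b * (lam ^ a' * z) ↔ m ≤ a' := by
      intro m
      rw [(sg_unit b).dvd_mul_left]
      constructor
      · intro h
        by_contra hlt
        push Not at hlt
        obtain ⟨c, rfl⟩ : ∃ c, m = a' + (c + 1) := ⟨m - a' - 1, by omega⟩
        rw [pow_add] at h
        have h5 := (mul_dvd_mul_iff_left (pow_ne_zero a' prime_lam.ne_zero)).1 h
        exact hl ((dvd_pow_self lam (Nat.succ_ne_zero c)).trans h5)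
      · exact fun h => (pow_dvd_pow lam h).mul_right _
    rw [key, key]
    omega
  have hc := count' (fun D => (lam ^ a ∣ D ∧ ¬ lam ^ (a + 1) ∣ D)) (fun a' _ => a' = a)
    (fun b a' z _ hz => hex b a' z hz)
  have hn := count' (fun D => (lam ^ a ∣ D ∧ ¬ lam ^ (a + 1) ∣ D) ∧ JE j u D)
    (fun a' z => a' = a ∧ JE j u (sg true * (lam ^ a' * z))) (fun b a' z ha' hz => by
      rw [hex b a' z hz]
      exact and_congr_right fun h => je_sg j u b _)
  simp only [hc, hn]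
  interval_cases a
  · refine (hlf 0).congr fun X => ?_
    simp only [false_and, and_false, true_and,
      Set.ofPred_false, Set.ncard_empty, zero_add, add_zero, and_true, OfNat.ofNat_ne_zero,
      one_ne_zero]
    push_cast
    rw [mul_div_mul_left _ _ (two_ne_zero)]
    rfl
  · refine ((hlf 1).comp div3_top).congr fun X => ?_
    simp only [Function.comp_apply, false_and, and_false, true_and,
      Set.ofPred_false, Set.ncard_empty, zero_add, add_zero, and_true, OfNat.ofNat_ne_one,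
      zero_ne_one]
    push_cast
    rw [mul_div_mul_left _ _ (two_ne_zero)]
    rfl
  · refine (((hlf 2).comp div3_top).comp div3_top).congr fun X => ?_
    simp only [Function.comp_apply, false_and, and_false, true_and,
      Set.ofPred_false, Set.ncard_empty, zero_add, add_zero, and_true,
      OfNat.zero_ne_ofNat, OfNat.one_ne_ofNat]
    push_cast
    rw [mul_div_mul_left _ _ (two_ne_zero)]
    rfl

end

end Pool.Agent.D0H69.JTA
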