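import Pool.Agent.D0H69.JT.Fin1
import Pool.Agent.D0H69.L0F.End

/-!
# Project JT (helper69): the limit over `K`
-/

set_option autoImplicit false
set_option linter.unusedVariables false
set_option linter.unusedSectionVars false

open scoped Classical

namespace Pool.Agent.D0H69.JTA

open NumberField Filter Topology
open Pool.Agent.D0H69.JT
open Pool.Agent.Y692.QS (Ei w nr toC nr_mul)
open Pool.Agent.Y703.XK (c9)
open Pool.Agent.Y715.T.Gi (lam)
open Pool.Agent.Y696.CTK (Tri ED)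
open Pool.Agent.Y696.XK (RkZ img_ncard)
open Pool.Agent.D0H10.KH

/-- all statements of the project -/
def S_ALL : Prop := S_JLA ∧ S_TWI ∧ S_GEN4 ∧ S_HALS ∧ S_BADQ ∧ S_LOCE ∧ S_REP ∧ S_PROD ∧ S_CFU ∧
  S_TRI

section
variable {K : Type} [Field K] [NumberField K]

/-- the cube-free representatives of the twists `u e D` are trivial -/
def JK {κ : Type} (u : κ → K) (D : 𝓞 K) : Prop :=
  ∀ e, ∃ D' : 𝓞 K, FamH D' ∧ (∃ c : K, c ≠ 0 ∧ (D' : K) = u e * D * c ^ 3) ∧ Tri D'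

variable (j : Ei ≃+* 𝓞 K)

/-- every element is an integral one times a cube -/
theorem int_rep {u : K} (hu : u ≠ 0) : ∃ (v : Ei) (b : K), v ≠ 0 ∧ b ≠ 0 ∧
    u = ((j v : 𝓞 K) : K) * b ^ 3 := by
  obtain ⟨x, y, hy, hxy⟩ := IsFractionRing.div_surjective (A := 𝓞 K) u
  have hy0 : y ≠ 0 := nonZeroDivisors.ne_zero hy
  have hyK : (algebraMap (𝓞 K) K y) ≠ 0 := by
    intro h
    exact hy0 ((FaithfulSMul.algebraMap_injective (𝓞 K) K) (h.trans (map_zero _).symm))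
  have hx0 : x ≠ 0 := by
    rintro rfl
    rw [map_zero, zero_div] at hxy
    exact hu hxy.symm
  refine ⟨j.symm (x * y ^ 2), (algebraMap (𝓞 K) K y)⁻¹, ?_, inv_ne_zero hyK, ?_⟩
  · intro h
    have h1 : x * y ^ 2 = 0 := by
      have := congrArg j h
      rw [RingEquiv.apply_symm_apply, map_zero] at this
      exact this
    exact mul_ne_zero hx0 (pow_ne_zero 2 hy0) h1
  · rw [RingEquiv.apply_symm_apply, ← hxy]
    show _ = algebraMap (𝓞 K) K (x * y ^ 2) * _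
    rw [map_mul, map_pow]
    field_simp

lemma jK_ne {x : Ei} (hx : x ≠ 0) : ((j x : 𝓞 K) : K) ≠ 0 := jne j hx

lemma jK_inj {x y : Ei} (h : ((j x : 𝓞 K) : K) = ((j y : 𝓞 K) : K)) : x = y :=
  j.injective (RingOfIntegers.coe_injective h)

lemma jK_mul (x y : Ei) : ((j (x * y) : 𝓞 K) : K) = ((j x : 𝓞 K) : K) * ((j y : 𝓞 K) : K) := by
  rw [map_mul]
  exact map_mul (algebraMap (𝓞 K) K) _ _

lemma jK_pow (x : Ei) (n : ℕ) : ((j (x ^ n) : 𝓞 K) : K) = ((j x : 𝓞 K) : K) ^ n := by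
  rw [map_pow]
  exact map_pow (algebraMap (𝓞 K) K) _ _

/-- fractions -/
theorem frac {c : K} (hc : c ≠ 0) : ∃ m n : Ei, m ≠ 0 ∧ n ≠ 0 ∧
    c * ((j n : 𝓞 K) : K) = ((j m : 𝓞 K) : K) := by
  obtain ⟨x, y, hy, hxy⟩ := IsFractionRing.div_surjective (A := 𝓞 K) c
  have hy0 : y ≠ 0 := nonZeroDivisors.ne_zero hy
  have hyK : (algebraMap (𝓞 K) K y) ≠ 0 := by
    intro h
    exact hy0 ((FaithfulSMul.algebraMap_injective (𝓞 K) K) (h.trans (map_zero _).symm))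
  have hx0 : x ≠ 0 := by
    rintro rfl
    rw [map_zero, zero_div] at hxy
    exact hc hxy.symm
  refine ⟨j.symm x, j.symm y, ?_, ?_, ?_⟩
  · intro h
    apply hx0
    have := congrArg j h
    rw [RingEquiv.apply_symm_apply, map_zero] at this
    exact this
  · intro h
    apply hy0
    have := congrArg j h
    rw [RingEquiv.apply_symm_apply, map_zero] at this
    exact this
  · rw [RingEquiv.apply_symm_apply, RingEquiv.apply_symm_apply, ← hxy]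
    exact div_mul_cancel₀ _ hyK

theorem jk_iff {κ : Type} {u : κ → K} {v : κ → Ei} {b : κ → K} (hb : ∀ e, b e ≠ 0)
    (h : ∀ e, u e = ((j (v e) : 𝓞 K) : K) * b e ^ 3) (D : Ei) :
    JK u (j D) ↔ JE j v D := by
  refine forall_congr' fun e => ?_
  constructor
  · rintro ⟨D', hD', ⟨c, hc, heq⟩, htri⟩
    obtain ⟨D', rfl⟩ := j.surjective D'
    obtain ⟨m, n, hm, hn, hmn⟩ := frac j (mul_ne_zero (hb e) hc)
    refine ⟨D', n, m, hn, hm, (famH_iff j D').1 hD', ?_, htri⟩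
    apply jK_inj j
    rw [jK_mul, jK_mul, jK_mul, jK_pow, jK_pow, heq, h e, ← hmn]
    ring
  · rintro ⟨D', c, d, hc, hd, hD', heq, htri⟩
    refine ⟨j D', (famH_iff j D').2 hD', ⟨((j d : 𝓞 K) : K) / (((j c : 𝓞 K) : K) * b e),
      div_ne_zero (jK_ne j hd) (mul_ne_zero (jK_ne j hc) (hb e)), ?_⟩, htri⟩
    have h1 := congrArg (fun x : Ei => ((j x : 𝓞 K) : K)) heq
    simp only [jK_mul, jK_pow] at h1
    have h2 := jK_ne j hc
    have h3 := hb e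
    rw [h e]
    field_simp
    linear_combination h1

end

/-- **The joint proportion over `K`.** -/
theorem lim_JK (H : S_ALL) (K : Type) [Field K] [NumberField K] [IsCyclotomicExtension {3} ℚ K]
    {κ : Type} [Fintype κ] {u : κ → K} (hu : ∀ e, u e ≠ 0)
    (hd : ∀ e e', e ≠ e' → ∀ c : K, u e ≠ u e' * c ^ 3) :
    Tendsto (fun X : ℕ => ({D : 𝓞 K | Algebra.norm ℤ D ≤ X ∧ FamH D ∧ JK u D}.ncard : ℝ) /
        ({D : 𝓞 K | Algebra.norm ℤ D ≤ X ∧ FamH D}.ncard : ℝ)) atTop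
      (𝓝 (c9 ^ Fintype.card κ)) := by
  obtain ⟨hJLA, hTWI, hGEN4, hHALS, hBADQ, hLOCE, hREP, hPROD, hCFU, hTRI⟩ := H
  obtain ⟨⟨j, hj⟩, -⟩ := Pool.Agent.Y455.CTK.jex K
  choose v b hv hb huv using fun e => int_rep j (hu e)
  have e2 : ∀ X : ℕ, {D : 𝓞 K | Algebra.norm ℤ D ≤ X ∧ FamH D}.ncard =
      {D : Ei | nr D ≤ X ∧ CFam D}.ncard := fun X =>
    img_ncard j hj X CFam FamH fun D => (famH_iff j D).symm
  have e1 : ∀ X : ℕ, {D : 𝓞 K | Algebra.norm ℤ D ≤ X ∧ FamH D ∧ JK u D}.ncard =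
      {D : Ei | nr D ≤ X ∧ CFam D ∧ JE j v D}.ncard := fun X =>
    img_ncard j hj X (fun D => CFam D ∧ JE j v D) (fun D => FamH D ∧ JK u D)
      fun D => and_congr (famH_iff j D).symm (jk_iff j hb huv D).symm
  simp only [e1, e2]
  refine lim_JE j hJLA hTWI hGEN4 hHALS hBADQ hLOCE hREP hPROD hCFU hTRI hj hv ?_
  intro e e' hee c d hc hd' heq
  refine hd e e' hee (((j d : 𝓞 K) : K) * b e / (((j c : 𝓞 K) : K) * b e')) ?_
  have h1 := congrArg (fun x : Ei => ((j x : 𝓞 K) : K)) heq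
  simp only [jK_mul, jK_pow] at h1
  have h2 := jK_ne j hc
  have h3 := hb e'
  rw [huv e, huv e']
  field_simp
  linear_combination (b e) ^ 3 * h1

/-- **The joint proportion in the classes over `K`.** -/
theorem lim_JKc (H : S_ALL) (K : Type) [Field K] [NumberField K] [IsCyclotomicExtension {3} ℚ K]
    {κ : Type} [Fintype κ] {u : κ → K} (hu : ∀ e, u e ≠ 0)
    (hd : ∀ e e', e ≠ e' → ∀ c : K, u e ≠ u e' * c ^ 3) (a : ℕ) (ha : a < 3) :
    Tendsto (fun X : ℕ => ({D : 𝓞 K | Algebra.norm ℤ D ≤ X ∧ FamH D ∧ ExtH a D ∧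
      JK u D}.ncard : ℝ) /
        ({D : 𝓞 K | Algebra.norm ℤ D ≤ X ∧ FamH D ∧ ExtH a D}.ncard : ℝ)) atTop
      (𝓝 (c9 ^ Fintype.card κ)) := by
  obtain ⟨hJLA, hTWI, hGEN4, hHALS, hBADQ, hLOCE, hREP, hPROD, hCFU, hTRI⟩ := H
  obtain ⟨⟨j, hj⟩, -⟩ := Pool.Agent.Y455.CTK.jex K
  choose v b hv hb huv using fun e => int_rep j (hu e)
  have e2 : ∀ X : ℕ, {D : 𝓞 K | Algebra.norm ℤ D ≤ X ∧ FamH D ∧ ExtH a D}.ncard =
      {D : Ei | nr D ≤ X ∧ CFam D ∧ (lam ^ a ∣ D ∧ ¬ lam ^ (a + 1) ∣ D)}.ncard := fun X =>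
    img_ncard j hj X (fun D => CFam D ∧ (lam ^ a ∣ D ∧ ¬ lam ^ (a + 1) ∣ D))
      (fun D => FamH D ∧ ExtH a D)
      fun D => and_congr (famH_iff j D).symm (extH_iff j a D).symm
  have e1 : ∀ X : ℕ, {D : 𝓞 K | Algebra.norm ℤ D ≤ X ∧ FamH D ∧ ExtH a D ∧ JK u D}.ncard =
      {D : Ei | nr D ≤ X ∧ CFam D ∧ ((lam ^ a ∣ D ∧ ¬ lam ^ (a + 1) ∣ D) ∧
        JE j v D)}.ncard := fun X =>
    img_ncard j hj X (fun D => CFam D ∧ ((lam ^ a ∣ D ∧ ¬ lam ^ (a + 1) ∣ D) ∧ JE j v D))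
      (fun D => FamH D ∧ ExtH a D ∧ JK u D)
      fun D => and_congr (famH_iff j D).symm (and_congr (extH_iff j a D).symm
        (jk_iff j hb huv D).symm)
  simp only [e1, e2]
  refine lim_JEc j hJLA hTWI hGEN4 hHALS hBADQ hLOCE hREP hPROD hCFU hTRI hj hv ?_ a ha
  intro e e' hee c d hc hd' heq
  refine hd e e' hee (((j d : 𝓞 K) : K) * b e / (((j c : 𝓞 K) : K) * b e')) ?_
  have h1 := congrArg (fun x : Ei => ((j x : 𝓞 K) : K)) heq
  simp only [jK_mul, jK_pow] at h1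
  have h2 := jK_ne j hc
  have h3 := hb e'
  rw [huv e, huv e']
  field_simp
  linear_combination (b e) ^ 3 * h1

end Pool.Agent.D0H69.JTA
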