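import Pool.Agent.D0H69.UC.Lof

/-!
# Kummer theory: the elements of `K` that are cubes in `F`

Copy of the theorem `kum` of `Pool/Agent/D0H69/BS/SubF.lean`, with fewer imports.
-/

set_option autoImplicit false
set_option linter.unusedVariables false
set_option linter.unusedSectionVars false

open NumberField Filter
open scoped Classical

namespace Pool.Agent.D0H69.JTK

open Pool.Agent.D0H69.JTL (Bas uu uu_ne)
open Pool.Agent.D0H69.UC (no_cube)
open Pool.Agent.R432.C (om_K gal3)

section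
variable {K : Type} [Field K] [NumberField K]

lemma val_neg : ∀ a : ZMod 3, ∃ e : ℕ, (-a).val + a.val = 3 * e := by
  intro a
  have h : ∀ a : ZMod 3, (-a).val + a.val = 3 * 0 ∨ (-a).val + a.val = 3 * 1 := by decide
  rcases h a with h | h
  · exact ⟨0, h⟩
  · exact ⟨1, h⟩

lemma uu_neg {I : Type} [Fintype I] {d : I → K} (hd : ∀ i, d i ≠ 0) (t : I → ZMod 3) :
    ∃ z : K, z ≠ 0 ∧ uu d (fun i => -t i) * uu d t = z ^ 3 := by
  choose e he using fun i => val_neg (t i)
  refine ⟨∏ i, d i ^ e i, Finset.prod_ne_zero_iff.2 fun i _ => pow_ne_zero _ (hd i), ?_⟩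
  unfold uu
  rw [← Finset.prod_mul_distrib, ← Finset.prod_pow]
  refine Finset.prod_congr rfl fun i _ => ?_
  rw [← pow_add, he i, ← pow_mul, mul_comm]

variable [IsCyclotomicExtension {3} ℚ K]

/-- Kummer theory: the elements of `K` that are cubes in `F` -/
theorem kum {F : Type} [Field F] [NumberField F] [Algebra K F] {I : Type} [Fintype I]
    {d : I → K} {x : I → F} (hd : ∀ i, d i ≠ 0) (hx : ∀ i, x i ^ 3 = algebraMap K F (d i))
    (hgen : ∀ S : Subfield F, (∀ k : K, algebraMap K F k ∈ S) → (∀ i, x i ∈ S) → S = ⊤)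
    {w : K} (hw : w ≠ 0) {v : F} (hv : v ^ 3 = algebraMap K F w) :
    ∃ t : I → ZMod 3, ∃ z : K, z ≠ 0 ∧ w = uu d t * z ^ 3 := by
  obtain ⟨⟨j, hj⟩, -⟩ := Pool.Agent.Y455.CTK.jex K
  have hω := om_K j
  obtain ⟨hfd, hgal⟩ := gal3 (F := F) hω d x hx hgen
  by_contra hcon
  push Not at hcon
  refine no_cube hω d x hd hx hgen hw (fun t c hc => ?_) v hv
  obtain ⟨z, hz, hzt⟩ := uu_neg hd t
  have hut := uu_ne hd t
  have hc' : c ^ 3 = w * uu d t := hc
  have hc0 : c ≠ 0 := by
    rintro rfl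
    rw [zero_pow three_ne_zero] at hc'
    exact mul_ne_zero hw hut hc'.symm
  apply hcon (fun i => -t i) (c / z) (div_ne_zero hc0 hz)
  rw [div_pow, hc', ← hzt]
  have hun := uu_ne hd (fun i => -t i)
  field_simp

end

end Pool.Agent.D0H69.JTK
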