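import Pool.Agent.D0H69.L0F.End
import Pool.Agent.R432.V5

/-!
# Project JT (helper69): the `L`-function of `E_D` over an extension, part 1
-/

set_option autoImplicit false
set_option linter.unusedVariables false
set_option linter.unusedSectionVars false

open scoped Classical

namespace Pool.Agent.D0H69.JTL

open NumberField IsDedekindDomain Filter Topology
open Pool.Agent.W189.NF (aV eV redMap Ov mem_max_iff finite_res card_res redMap_eq_zero aLoc eLoc
  aV_le eV_le LSeries_hasProd redMap_surjective point_card)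
open Pool.Agent.H921R2.TatePole (nm two_le_nm)
open Pool.Agent.Y698 (AP min_count v_unit)
open Pool.Agent.Y696.CTK (ED EDr EDr_map EDr_Δ isUnit_of_notMem coe_comp bcK good_val nm_nr eK pK
  pK_span mem_pK span_ns pq_ns three_span)
open Pool.Agent.Y692.QS (Ei w nr toC nr_mul)
open Pool.Agent.Y715.T.Rec (cs)
open Pool.Agent.Y715.T.RecG (Pq)
open Pool.Agent.R432.V (qv cn ef qv_eq)

section gen
variable {L : Type} [Field L] [NumberField L] (W : WeierstrassCurve L)

/-- the local polynomial at `q ^ (-s)` -/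
noncomputable def PP (s : ℂ) (v : HeightOneSpectrum (𝓞 L)) : ℂ :=
  1 - (aV W v : ℂ) * (nm v : ℂ) ^ (-s) + (eV W v : ℂ) * ((nm v : ℂ) ^ (-s)) ^ 2

lemma nm_ne0 (v : HeightOneSpectrum (𝓞 L)) : (nm v : ℂ) ≠ 0 := by
  have := two_le_nm v
  exact_mod_cast (by omega : nm v ≠ 0)

lemma pp_diff (v : HeightOneSpectrum (𝓞 L)) : Differentiable ℂ (fun s => PP W s v) := by
  have h : Differentiable ℂ (fun s : ℂ => (nm v : ℂ) ^ (-s)) := fun s =>
    (differentiableAt_id.neg).const_cpow (Or.inl (nm_ne0 v))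
  unfold PP
  exact ((differentiable_const _).sub ((differentiable_const _).mul h)).add
    ((differentiable_const _).mul (h.pow 2))

/-- the value at `1` is not zero -/
theorem pp_one (v : HeightOneSpectrum (𝓞 L)) : PP W 1 v ≠ 0 := by
  have hq := nm_ne0 v
  have hq2 : (2 : ℤ) ≤ (nm v : ℤ) := by exact_mod_cast two_le_nm v
  have hfin := finite_res v
  have h1 : (PP W 1 v) * (nm v : ℂ) = (((nm v : ℤ) - aV W v : ℤ) : ℂ) + (eV W v : ℂ) / (nm v : ℂ) := by
    unfold PP
    rw [Complex.cpow_neg_one]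
    push_cast
    field_simp
  have key : (nm v : ℤ) - aV W v ≠ 0 ∧ eV W v = 0 ∨ (0 < (nm v : ℤ) - aV W v + 1) ∧ eV W v = nm v := by
    unfold aV eV aLoc eLoc
    have hc : Nat.card (IsLocalRing.ResidueField (v.adicCompletionIntegers L)) = nm v := card_res v
    split_ifs with h2 h3 h4
    · right
      have h5 := (point_card (((W.baseChange (v.adicCompletion L)).minimal
        (v.adicCompletionIntegers L)).reduction (v.adicCompletionIntegers L))).1
      rw [hc]
      refine ⟨?_, rfl⟩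
      have h6 : (1 : ℤ) ≤ (Nat.card (((W.baseChange (v.adicCompletion L)).minimal
        (v.adicCompletionIntegers L)).reduction
          (v.adicCompletionIntegers L)).toAffine.Point : ℤ) := by exact_mod_cast h5
      linarith
    · left
      exact ⟨by omega, rfl⟩
    · left
      exact ⟨by omega, rfl⟩
    · left
      exact ⟨by omega, rfl⟩
  intro h0
  rw [h0, zero_mul] at h1
  rcases key with ⟨k1, k2⟩ | ⟨k1, k2⟩
  · rw [k2, Int.cast_zero, zero_div, add_zero] at h1
    exact k1 (by exact_mod_cast h1.symm)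
  · rw [k2, Int.cast_natCast, div_self hq] at h1
    have h2 : (nm v : ℤ) - aV W v + 1 = 0 := by exact_mod_cast h1.symm
    omega

/-- the values for `Re s > 2` are not zero -/
theorem pp_ne {s : ℂ} (hs : 2 < s.re) (v : HeightOneSpectrum (𝓞 L)) : PP W s v ≠ 0 := by
  have hq2 : (2 : ℝ) ≤ nm v := by exact_mod_cast two_le_nm v
  have hq0 : (0 : ℝ) < nm v := by linarith
  have hn : ‖(nm v : ℂ) ^ (-s)‖ ≤ ((nm v : ℝ) ^ 2)⁻¹ := by
    rw [Complex.norm_natCast_cpow_of_pos (by have := two_le_nm v; omega), Complex.neg_re]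
    calc (nm v : ℝ) ^ (-s.re) ≤ (nm v : ℝ) ^ (-2 : ℝ) :=
          Real.rpow_le_rpow_of_exponent_le (by linarith) (by linarith)
      _ = ((nm v : ℝ) ^ 2)⁻¹ := by
        rw [Real.rpow_neg hq0.le]
        norm_cast
  have ha : ‖(aV W v : ℂ)‖ ≤ nm v := by
    rw [Complex.norm_intCast]
    exact_mod_cast aV_le W v
  have he : ‖(eV W v : ℂ)‖ ≤ nm v := by
    rw [Complex.norm_intCast]
    exact_mod_cast eV_le W v
  have h1 : ‖(aV W v : ℂ) * (nm v : ℂ) ^ (-s)‖ ≤ 1 / 2 := by
    rw [norm_mul]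
    calc _ ≤ (nm v : ℝ) * ((nm v : ℝ) ^ 2)⁻¹ := by gcongr
      _ = (nm v : ℝ)⁻¹ := by field_simp
      _ ≤ 2⁻¹ := inv_anti₀ (by norm_num) hq2
      _ = 1 / 2 := by norm_num
  have h2 : ‖(eV W v : ℂ) * ((nm v : ℂ) ^ (-s)) ^ 2‖ ≤ 1 / 4 := by
    rw [norm_mul, norm_pow]
    calc _ ≤ (nm v : ℝ) * (((nm v : ℝ) ^ 2)⁻¹) ^ 2 := by gcongr
      _ = ((nm v : ℝ)⁻¹) ^ 2 * (nm v : ℝ)⁻¹ := by field_simp
      _ ≤ (2⁻¹) ^ 2 * 1 := by
        gcongr
        exact inv_le_one_of_one_le₀ (by linarith)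
      _ = 1 / 4 := by norm_num
  intro h0
  have h3 : (1 : ℂ) = (aV W v : ℂ) * (nm v : ℂ) ^ (-s) - (eV W v : ℂ) * ((nm v : ℂ) ^ (-s)) ^ 2 := by
    unfold PP at h0
    linear_combination h0
  have h4 : (1 : ℝ) ≤ 1 / 2 + 1 / 4 := by
    calc (1 : ℝ) = ‖(1 : ℂ)‖ := by rw [norm_one]
      _ ≤ ‖(aV W v : ℂ) * (nm v : ℂ) ^ (-s)‖ + ‖(eV W v : ℂ) * ((nm v : ℂ) ^ (-s)) ^ 2‖ := by
        conv_lhs => rw [h3]
        exact norm_sub_le _ _
      _ ≤ _ := add_le_add h1 h2
  norm_num at h4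

/-- the product over the other places -/
theorem hasProd_compl (T : Finset (HeightOneSpectrum (𝓞 L))) {s : ℂ} (hs : 2 < s.re) :
    HasProd (fun v : {v : HeightOneSpectrum (𝓞 L) // v ∉ T} => (PP W s v.1)⁻¹)
      (W.LSeries s * ∏ v ∈ T, PP W s v) := by
  have h1 : HasProd (fun v => (PP W s v)⁻¹) (W.LSeries s) := (LSeries_hasProd W hs).2
  have h2 : HasProd (fun v => if v ∈ T then PP W s v else 1)
      (∏ v ∈ T, if v ∈ T then PP W s v else 1) :=
    hasProd_prod_of_ne_finset_one fun v hv => if_neg hv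
  have h3 : ∏ v ∈ T, (if v ∈ T then PP W s v else 1) = ∏ v ∈ T, PP W s v :=
    Finset.prod_congr rfl fun v hv => if_pos hv
  rw [h3] at h2
  have h4 := h1.mul h2
  have h5 : (fun v : {v : HeightOneSpectrum (𝓞 L) // v ∉ T} => (PP W s v.1)⁻¹) =
      (fun v => (PP W s v)⁻¹ * if v ∈ T then PP W s v else 1) ∘ Subtype.val := by
    funext v
    show _ = _ * _
    rw [if_neg v.2, mul_one]
  rw [h5]
  refine (Function.Injective.hasProd_iff Subtype.val_injective ?_).2 h4
  intro v hv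
  have hT : v ∈ T := by
    by_contra h
    exact hv ⟨⟨v, h⟩, rfl⟩
  show _ * _ = _
  rw [if_pos hT, inv_mul_cancel₀ (pp_ne W hs v)]

/-- the finitely many places -/
theorem fin_pl {B : 𝓞 L} (hB : B ≠ 0) : {v : HeightOneSpectrum (𝓞 L) | B ∈ v.asIdeal}.Finite := by
  have h := Ideal.finite_factors (I := Ideal.span {B}) (by simpa using hB)
  refine h.subset fun v hv => ?_
  show v.asIdeal ∣ Ideal.span {B}
  rw [Ideal.dvd_span_singleton]
  exact hv

/-- the Euler factor at a good place -/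
theorem pp_good {c : 𝓞 L} {v : HeightOneSpectrum (𝓞 L)} (h3 : (3 : 𝓞 L) ∉ v.asIdeal)
    (hc : c ∉ v.asIdeal) (s : ℂ) : (PP (ED (c : L)) s v)⁻¹ = ef c s v := by
  have hfin := finite_res v
  have hcard : Nat.card (IsLocalRing.ResidueField (Ov v)) = nm v := card_res v
  have hΔ : IsUnit (EDr (algebraMap (𝓞 L) (Ov v) c)).Δ := by
    rw [EDr_Δ]
    have h1 : IsUnit (3 : Ov v) := by
      have := isUnit_of_notMem h3
      rwa [map_ofNat] at this
    have h2 : (-27 : Ov v) = -(3 ^ 3) := by norm_num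
    rw [h2]
    exact ((h1.pow 3).neg).mul ((isUnit_of_notMem hc).pow 4)
  obtain ⟨c1, c2⟩ := min_count (v.adicCompletionIntegers L) hΔ
    (W := (ED (c : L)).baseChange (v.adicCompletion L)) (by
      rw [bcK, EDr_map, coe_comp])
  have hker : RingHom.ker (redMap v) = v.asIdeal := by
    ext r
    rw [RingHom.mem_ker]
    exact redMap_eq_zero v r
  let eq : (𝓞 L ⧸ v.asIdeal) ≃+* IsLocalRing.ResidueField (Ov v) :=
    (Ideal.quotEquivOfEq hker.symm).trans
      (RingHom.quotientKerEquivOfSurjective (redMap_surjective v))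
  have heq : ∀ r : 𝓞 L, eq (Ideal.Quotient.mk v.asIdeal r) = redMap v r := fun r => rfl
  have hAP : Nat.card (AP ((EDr (algebraMap (𝓞 L) (Ov v) c)).map
      (IsLocalRing.residue (Ov v)))) = cn c v := by
    unfold cn AP
    symm
    refine Nat.card_congr ((eq.toEquiv.prodCongr eq.toEquiv).subtypeEquiv fun P => ?_)
    rw [WeierstrassCurve.Affine.equation_iff]
    have h1 : (eq.toEquiv.prodCongr eq.toEquiv) P = (eq P.1, eq P.2) := rfl
    rw [h1]
    have h2 : ((EDr (algebraMap (𝓞 L) (Ov v) c)).map (IsLocalRing.residue (Ov v))).a₃ =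
        redMap v c := rfl
    have h3 : ((EDr (algebraMap (𝓞 L) (Ov v) c)).map (IsLocalRing.residue (Ov v))).a₁ = 0 :=
      map_zero _
    have h4 : ((EDr (algebraMap (𝓞 L) (Ov v) c)).map (IsLocalRing.residue (Ov v))).a₂ = 0 :=
      map_zero _
    have h5 : ((EDr (algebraMap (𝓞 L) (Ov v) c)).map (IsLocalRing.residue (Ov v))).a₄ = 0 :=
      map_zero _
    have h6 : ((EDr (algebraMap (𝓞 L) (Ov v) c)).map (IsLocalRing.residue (Ov v))).a₆ = 0 :=
      map_zero _
    show _ ↔ (eq P.2) ^ 2 + _ * (eq P.1) * (eq P.2) + _ * (eq P.2) =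
      (eq P.1) ^ 3 + _ * (eq P.1) ^ 2 + _ * (eq P.1) + _
    rw [h2, h3, h4, h5, h6, ← heq]
    constructor
    · intro h
      have h7 := congrArg eq h
      simp only [map_add, map_mul, map_pow] at h7
      linear_combination h7
    · intro h
      apply eq.injective
      simp only [map_add, map_mul, map_pow]
      linear_combination h
  have ha : (aV (ED (c : L)) v : ℂ) = (qv v : ℂ) - cn c v := by
    unfold aV
    rw [c1, hAP, qv_eq]
    push_cast
    rw [hcard]
  have he : (eV (ED (c : L)) v : ℂ) = (nm v : ℂ) := by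
    unfold eV
    rw [c2]
    push_cast
    rw [hcard]
  unfold PP ef
  rw [ha, he, qv_eq]
  congr 2
  have h0 := nm_ne0 v
  rw [sub_eq_add_neg, Complex.cpow_add _ _ h0, Complex.cpow_one]
  congr 1
  rw [← Complex.cpow_nat_mul]
  congr 1
  push_cast
  ring

end gen

end Pool.Agent.D0H69.JTL
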