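import Pool.Agent.D0H69.JT.Lf1

/-!
# Project JT (helper69): the `L`-function of `E_D` over an extension, part 2
-/

set_option autoImplicit false
set_option linter.unusedVariables false
set_option linter.unusedSectionVars false

open scoped Classical

namespace Pool.Agent.D0H69.JTL

open NumberField IsDedekindDomain Filter Topology
open Pool.Agent.W189.NF (aV eV)
open Pool.Agent.H921R2.TatePole (nm two_le_nm)
open Pool.Agent.Y696.CTK
open Pool.Agent.Y696.CT (gn)
open Pool.Agent.Y692.QS hiding chi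
open Pool.Agent.Y715.T.Rec (cs)
open Pool.Agent.Y715.T.RecG (Pq cs_mul cs_pow)
open Pool.Agent.R432.V (qv cn ef qv_eq ip ip_inj toC_norm)
open Pool.Agent.R432.C (pq_dvd)

/-- the eigenvalue of the Frobenius -/
noncomputable def XD (D α : Ei) : ℂ := toC (w ^ (-cs α D).val * α)

lemma w_norm : ‖toC w‖ = 1 := by
  have h2 : toC w ^ 3 = 1 := by rw [← map_pow, w_cube, map_one]
  have h3 : ‖toC w‖ ^ 3 = 1 := by rw [← norm_pow, h2, norm_one]
  exact (pow_eq_one_iff_of_nonneg (norm_nonneg _) (by norm_num)).1 h3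

lemma XD_mul_conj (D α : Ei) : XD D α * (starRingEnd ℂ) (XD D α) = ((nr α : ℤ) : ℂ) := by
  unfold XD
  rw [map_mul, map_pow, map_mul, map_pow]
  have h1 : toC w * (starRingEnd ℂ) (toC w) = 1 := by
    rw [Complex.mul_conj, Complex.normSq_eq_norm_sq, w_norm]
    norm_num
  have h2 : toC α * (starRingEnd ℂ) (toC α) = ((nr α : ℤ) : ℂ) := by
    rw [Complex.mul_conj, toC_normSq]
    push_cast
    rfl
  calc _ = (toC w * (starRingEnd ℂ) (toC w)) ^ (-cs α D).val *
      (toC α * (starRingEnd ℂ) (toC α)) := by ring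
    _ = _ := by rw [h1, h2, one_pow, one_mul]

/-- the Euler factor -/
noncomputable def EF (D : Ei) (s : ℂ) (α : Ei) : ℂ :=
  ((1 - XD D α * ((nr α : ℤ) : ℂ) ^ (-s)) *
    (1 - (starRingEnd ℂ) (XD D α) * ((nr α : ℤ) : ℂ) ^ (-s)))⁻¹

section
variable {K : Type} [Field K] [NumberField K] (j : Ei ≃+* 𝓞 K)

/-- the place of a prime -/
noncomputable def pl (α : {α : Ei // Pq α}) : HeightOneSpectrum (𝓞 K) := pK j (ip α)

lemma pl_span (α : {α : Ei // Pq α}) : (pl j α).asIdeal = Ideal.span {j α.1} :=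
  pK_span j (α := α.1) rfl

lemma pl_inj : Function.Injective (pl j) := fun a b h => ip_inj ((eK j).injective h)

lemma pl_surj {v : HeightOneSpectrum (𝓞 K)} (h3 : (3 : 𝓞 K) ∉ v.asIdeal) : ∃ α, v = pl j α := by
  obtain ⟨P, rfl⟩ := (eK j).surjective v
  have hP3 : ¬ (3 : ℤ) ∣ nr (gn P.asIdeal) := by
    intro h
    apply h3
    have h4 : P.asIdeal = Ideal.span {tht} := three_span h
    have h5 : (3 : Ei) ∈ P.asIdeal := by
      rw [h4, Ideal.mem_span_singleton]
      exact ⟨-tht, by linear_combination tht_sq⟩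
    have h6 := (mem_pK j P 3).2 h5
    rwa [map_ofNat] at h6
  refine ⟨⟨ns (gn P.asIdeal), pq_ns hP3⟩, ?_⟩
  show pK j P = pK j _
  congr 1
  apply HeightOneSpectrum.ext
  exact span_ns hP3

/-- the Euler factor of the curve over `K` -/
lemma pp_K (D : Ei) (α : {α : Ei // Pq α}) (hD : ¬ α.1 ∣ D) (s : ℂ) :
    (PP (ED (j D : K)) s (pl j α))⁻¹ = EF D s α.1 := by
  have hv := pl_span j α
  obtain ⟨v1, v2⟩ := good_val j α.2 hv hD
  have hnm := nm_nr j hv
  have hn : (nm (pl j α) : ℂ) = ((nr α.1 : ℤ) : ℂ) := by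
    rw [← hnm]
    push_cast
    rfl
  unfold PP EF
  rw [v1, v2, hn]
  congr 1
  have h1 := XD_mul_conj D α.1
  have h2 : toC (w ^ (-cs α.1 D).val * α.1) = XD D α.1 := rfl
  rw [h2, ← h1]
  ring

/-- the partial Euler product over `K` -/
theorem partK {D M : Ei} (hM : M ≠ 0) (h3 : 3 ∣ M) (hDM : D ∣ M) {Lf : ℂ → ℂ}
    (hLf : Differentiable ℂ Lf) (h1 : Lf 1 ≠ 0)
    (hs : ∀ s : ℂ, 2 < s.re → Lf s = (ED (j D : K)).LSeries s) :
    ∃ L : ℂ → ℂ, Differentiable ℂ L ∧ L 1 ≠ 0 ∧ ∀ s : ℂ, 2 < s.re →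
      HasProd (fun α : {α : Ei // Pq α ∧ ¬ α ∣ M} => EF D s α.1) (L s) := by
  have hM' : j M ≠ 0 := by rwa [Ne, map_eq_zero_iff j j.injective]
  set T := (fin_pl hM').toFinset with hT
  have hmem : ∀ v, v ∈ T ↔ j M ∈ v.asIdeal := fun v => by
    rw [hT, Set.Finite.mem_toFinset]
    rfl
  refine ⟨fun s => Lf s * ∏ v ∈ T, PP (ED (j D : K)) s v, ?_, ?_, fun s hs2 => ?_⟩
  · exact hLf.mul (Differentiable.fun_finsetProd fun v _ => pp_diff _ v)
  · exact mul_ne_zero h1 (Finset.prod_ne_zero_iff.2 fun v _ => pp_one _ v)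
  · show HasProd _ (Lf s * ∏ v ∈ T, PP (ED (j D : K)) s v)
    rw [hs s hs2]
    have h4 := hasProd_compl (ED (j D : K)) T hs2
    let g : {α : Ei // Pq α ∧ ¬ α ∣ M} → {v : HeightOneSpectrum (𝓞 K) // v ∉ T} :=
      fun α => ⟨pl j ⟨α.1, α.2.1⟩, fun h => α.2.2 (by
        rw [hmem, pl_span, Ideal.mem_span_singleton, map_dvd_iff j] at h
        exact h)⟩
    have hg : Function.Injective g := fun a b h => by
      have h5 := pl_inj j (congrArg Subtype.val h)
      have h6 := congrArg Subtype.val h5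
      exact Subtype.ext h6
    have h5 := (Function.Injective.hasProd_iff hg ?_).2 h4
    · refine h5.congr_fun fun α => ?_
      exact (pp_K j D ⟨α.1, α.2.1⟩ (fun h => α.2.2 (h.trans hDM)) s).symm
    · intro v hv
      exfalso
      apply hv
      have h6 : (3 : 𝓞 K) ∉ v.1.asIdeal := by
        intro h
        apply v.2
        rw [hmem]
        obtain ⟨m, rfl⟩ := h3
        rw [map_mul, map_ofNat]
        exact Ideal.mul_mem_right _ _ h
      obtain ⟨α, hα⟩ := pl_surj j h6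
      have h7 : ¬ α.1 ∣ M := by
        intro h
        apply v.2
        rw [hmem, hα, pl_span, Ideal.mem_span_singleton, map_dvd_iff j]
        exact h
      exact ⟨⟨α.1, α.2, h7⟩, Subtype.ext hα.symm⟩

end

end Pool.Agent.D0H69.JTL
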