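import Pool.Agent.D0H69.JT.Lf2

/-!
# Project JT (helper69): the `L`-function of `E_D` over an extension, part 3

Adapted from the theorem `eulF` of helper432 (`R432/V5.lean`).
-/

set_option autoImplicit false
set_option linter.unusedVariables false
set_option linter.unusedSectionVars false

open scoped Classical

namespace Pool.Agent.D0H69.JTL

open NumberField IsDedekindDomain Filter Topology Complex
open Pool.Agent.W189.NF (aV eV)
open Pool.Agent.H921R2.TatePole (nm two_le_nm)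
open Pool.Agent.Y696.CTK
open Pool.Agent.Y692.QS hiding chi
open Pool.Agent.Y715.T.Rec (cs)
open Pool.Agent.Y715.T.RecG (Pq cs_mul cs_pow cs_prod)
open Pool.Agent.R432.V
open Pool.Agent.R432.C (pq_dvd pow_add_val)
open Pool.Agent.D0H10.KH (cs_cube)

variable {K : Type} [Field K] [NumberField K] (j : Ei ≃+* 𝓞 K)
variable {F : Type} [Field F] [NumberField F] [Algebra K F]

/-- the eigenvalue of a twist -/
theorem xd_tw {I : Type} [Fintype I] (d : I → Ei) (t : I → ZMod 3) {α D D' c e : Ei} (hα : Pq α)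
    (hD : ¬ α ∣ D) (hd : ∀ i, ¬ α ∣ d i) (hD' : ¬ α ∣ D') (hc : ¬ α ∣ c) (he : ¬ α ∣ e)
    (h : D' * c ^ 3 = D * (∏ i, d i ^ (t i).val) * e ^ 3) :
    XD D' α = XD D α * toC w ^ (∑ i, (-cs α (d i)) * t i).val := by
  have hpr : ¬ α ∣ ∏ i, d i ^ (t i).val := by
    intro h
    obtain ⟨i, -, hi⟩ := (hα.prime.dvd_finsetProd_iff _).1 h
    exact hd i (hα.prime.dvd_of_dvd_pow hi)
  have hDp : ¬ α ∣ D * ∏ i, d i ^ (t i).val := fun h =>
    (hα.prime.dvd_or_dvd h).elim hD hpr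
  have h4 : cs α D' = cs α D + ∑ i, cs α (d i) * t i := by
    rw [← cs_cube hα hD' hc, h, cs_cube hα hDp he, cs_mul hα.prime hα.norm hD hpr]
    congr 1
    rw [cs_prod hα.prime hα.norm _ _ fun i _ h5 => hd i (hα.prime.dvd_of_dvd_pow h5)]
    refine Finset.sum_congr rfl fun i _ => ?_
    rw [cs_pow hα.prime hα.norm (hd i), ZMod.natCast_zmod_val, mul_comm]
  have hz3 : toC w ^ 3 = 1 := by rw [← map_pow, w_cube, map_one]
  have h5 : -(∑ i, cs α (d i) * t i) = ∑ i, (-cs α (d i)) * t i := by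
    rw [← Finset.sum_neg_distrib]
    exact Finset.sum_congr rfl fun i _ => (neg_mul _ _).symm
  unfold XD
  rw [h4, neg_add, h5, map_mul, map_pow, pow_add_val hz3, map_mul, map_pow]
  ring

/-- **The partial Euler product over `F`** -/
theorem eulG [IsGalois K F] {I : Type} [Fintype I] (d : I → Ei) (x : I → 𝓞 F)
    (hx : ∀ i, x i ^ 3 = io F j (d i))
    (hgen : ∀ L : Subfield F, (∀ k : K, algebraMap K F k ∈ L) → (∀ i, (x i : F) ∈ L) → L = ⊤)
    (hdeg : Module.finrank K F = 3 ^ Fintype.card I) {D M : Ei} (h3 : 3 ∣ M)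
    (hDM : D ∣ M) (hdM : ∀ i, d i ∣ M) (D' c e : (I → ZMod 3) → Ei) (hc : ∀ t, c t ∣ M)
    (he : ∀ t, e t ∣ M) (hD' : ∀ t, D' t ∣ M)
    (heq : ∀ t, D' t * c t ^ 3 = D * (∏ i, d i ^ (t i).val) * e t ^ 3)
    (L : (I → ZMod 3) → ℂ → ℂ) {s : ℂ} (hs : 2 < s.re)
    (hL : ∀ t, HasProd (fun α : {α : Ei // Pq α ∧ ¬ α ∣ M} => EF (D' t) s α.1) (L t s)) :
    HasProd (fun v : {v : HeightOneSpectrum (𝓞 F) | io F j M ∉ v.asIdeal} =>
      ef (io F j D) s v.1) (∏ t, L t s) := by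
  have hMp : ∀ α : Ei, Pq α → ¬ α ∣ M → ¬ α ∣ D ∧ ∀ i, ¬ α ∣ d i := by
    intro α _ hα
    exact ⟨fun h => hα (h.trans hDM), fun i h => hα (h.trans (hdM i))⟩
  have hφ : Function.Injective (io F j) := io_inj j
  have hs32 : 3 / 2 < s.re := by linarith
  set U : Set (HeightOneSpectrum (𝓞 F)) := {v | io F j M ∉ v.asIdeal} with hU
  -- the prime below
  have hex : ∀ v : U, ∃ α : {α : Ei // Pq α ∧ ¬ α ∣ M}, io F j α.1 ∈ v.1.asIdeal := by
    intro v
    have h3' : (3 : 𝓞 F) ∉ v.1.asIdeal := by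
      intro h
      apply v.2
      obtain ⟨m, hm⟩ := h3
      rw [hm, map_mul, map_ofNat]
      exact Ideal.mul_mem_right _ _ h
    obtain ⟨α, h4, h5⟩ := below hφ h3'
    refine ⟨⟨α, h4, fun h6 => v.2 ?_⟩, h5⟩
    exact (mem_iff (io F j) h4 h5 M).2 h6
  choose β hβ using hex
  have hβu : ∀ (v : U) (b : {α : Ei // Pq α ∧ ¬ α ∣ M}), io F j b.1 ∈ v.1.asIdeal → β v = b := by
    intro v b hb
    apply Subtype.ext
    exact pq_dvd (β v).2.1 b.2.1 ((mem_iff (io F j) (β v).2.1 (hβ v) b.1).1 hb)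
  have hsp := fun b : {α : Ei // Pq α ∧ ¬ α ∣ M} =>
    splitV (F := F) j d x hx hgen b.2.1 (fun i => (hMp _ b.2.1 b.2.2).2 i)
  have htr : ∀ (b : {α : Ei // Pq α ∧ ¬ α ∣ M}) (v : HeightOneSpectrum (𝓞 F)),
      io F j b.1 ∈ v.asIdeal → Tr (io F j D) v (XD D b.1 ^ fo d b.1) :=
    fun b v hv => tr_at (io F j) b.2.1 hv (hMp _ b.2.1 b.2.2).1 ((hsp b).1 v hv)
  set h : {α : Ei // Pq α ∧ ¬ α ∣ M} → ℂ := fun b => ∏ t : I → ZMod 3, EF (D' t) s b.1 with hh
  refine eul_abs (fun v hv => ⟨_, htr (β ⟨v, hv⟩) v (hβ ⟨v, hv⟩)⟩) hs32 β (h := h) ?_ ?_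
  · intro b
    set f := fo d b.1 with hf
    obtain ⟨hs1, hs2⟩ := hsp b
    rw [← hf, hdeg] at hs2
    have hf0 : 0 < f := by
      rw [hf]
      unfold fo
      split_ifs <;> norm_num
    -- the fibre
    let E : {v : U // β v = b} ≃ {v : HeightOneSpectrum (𝓞 F) // io F j b.1 ∈ v.asIdeal} :=
      { toFun := fun v => ⟨v.1.1, by have h1 := hβ v.1; rwa [v.2] at h1⟩
        invFun := fun v => ⟨⟨v.1, fun h1 => b.2.2 ((mem_iff (io F j) b.2.1 v.2 M).1 h1)⟩,
          hβu _ _ v.2⟩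
        left_inv := fun v => rfl
        right_inv := fun v => rfl }
    have hfin : Finite {v : HeightOneSpectrum (𝓞 F) // io F j b.1 ∈ v.asIdeal} := by
      refine Nat.finite_of_card_ne_zero fun h0 => ?_
      rw [h0, zero_mul] at hs2
      exact absurd hs2.symm (by positivity)
    have hfin' : Finite {v : U // β v = b} := Finite.of_equiv _ E.symm
    let _ : Fintype {v : U // β v = b} := Fintype.ofFinite _
    have hN : Fintype.card {v : U // β v = b} = 3 ^ Fintype.card I / f := by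
      rw [← Nat.card_eq_fintype_card, Nat.card_congr E, ← hs2, Nat.mul_div_cancel _ hf0]
    have hnn : (((nr b.1).natAbs : ℕ) : ℂ) = ((nr b.1 : ℤ) : ℂ) := by
      have h5 := Int.natAbs_of_nonneg (nr_nonneg b.1)
      have h6 : (((nr b.1).natAbs : ℤ) : ℂ) = ((nr b.1 : ℤ) : ℂ) := by rw [h5]
      exact (Int.cast_natCast _).symm.trans h6
    set X : ℂ := XD D b.1 with hX
    set Q : ℂ := ((nr b.1 : ℤ) : ℂ) ^ (-s) with hQ
    have hconst : ∀ v : {v : U // β v = b}, ef (io F j D) s v.1.1 =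
        ((1 - (X * Q) ^ f) * (1 - ((starRingEnd ℂ) X * Q) ^ f))⁻¹ := by
      intro v
      have hv : io F j b.1 ∈ v.1.1.asIdeal := by have h1 := hβ v.1; rwa [v.2] at h1
      rw [ef_eq (htr b v.1.1 hv)]
      have hq : (qv v.1.1 : ℂ) ^ (-s) = Q ^ f := by
        unfold qv
        rw [hs1 v.1.1 hv, ← hf, Nat.cast_pow, npow, hnn, hQ]
      rw [hq, map_pow, mul_pow, mul_pow]
    have hval : h b = ∏ _v : {v : U // β v = b},
        ((1 - (X * Q) ^ f) * (1 - ((starRingEnd ℂ) X * Q) ^ f))⁻¹ := by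
      rw [Finset.prod_const, Finset.card_univ, hN, inv_pow, mul_pow, hh]
      simp only
      have hz : toC w ^ 2 + toC w + 1 = 0 := by
        have h1 : (w : Ei) ^ 2 + w + 1 = 0 := by decide
        rw [← map_pow, ← map_add, ← map_one toC, ← map_add, h1, map_zero]
      have hzc : ((starRingEnd ℂ) (toC w)) ^ 2 + (starRingEnd ℂ) (toC w) + 1 = 0 := by
        rw [← map_pow, ← map_add, ← map_one (starRingEnd ℂ), ← map_add, hz, map_zero]
      have hc1 : (∀ i, -cs b.1 (d i) = 0) → f = 1 := by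
        intro h1
        rw [hf]
        unfold fo
        rw [if_pos fun i => neg_eq_zero.1 (h1 i)]
      have hc3 : ¬ (∀ i, -cs b.1 (d i) = 0) → f = 3 := by
        intro h1
        rw [hf]
        unfold fo
        rw [if_neg fun h2 => h1 fun i => neg_eq_zero.2 (h2 i)]
      obtain ⟨g1, g2⟩ := hMp _ b.2.1 b.2.2
      have htw : ∀ t, XD (D' t) b.1 = X * toC w ^ (∑ i, (-cs b.1 (d i)) * t i).val := fun t =>
        xd_tw d t b.2.1 g1 g2 (fun h => b.2.2 (h.trans (hD' t))) (fun h => b.2.2 (h.trans (hc t)))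
          (fun h => b.2.2 (h.trans (he t))) (heq t)
      unfold EF
      rw [Finset.prod_inv_distrib, Finset.prod_mul_distrib]
      congr 2
      · rw [← loc (fun i => -cs b.1 (d i)) hz (X * Q) hc1 hc3]
        refine Finset.prod_congr rfl fun t _ => ?_
        rw [htw t]
        ring
      · rw [← loc (fun i => -cs b.1 (d i)) hzc ((starRingEnd ℂ) X * Q) hc1 hc3]
        refine Finset.prod_congr rfl fun t _ => ?_
        rw [htw t, map_mul, map_pow]
        ring
    rw [hval]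
    refine (hasProd_fintype _).congr_fun fun v => ?_
    exact (hconst v)
  · exact hasProd_prod (s := (Finset.univ : Finset (I → ZMod 3))) fun t _ => hL t

/-- **The `L`-function over `F` with all its Euler factors.** -/
theorem fullF {D M : Ei} (hM : M ≠ 0) (h3 : 3 ∣ M) (hDM : D ∣ M) {G : ℂ → ℂ}
    (hG : Differentiable ℂ G) (hG1 : G 1 ≠ 0)
    (hP : ∀ s : ℂ, 2 < s.re →
      HasProd (fun v : {v : HeightOneSpectrum (𝓞 F) | io F j M ∉ v.asIdeal} =>
        ef (io F j D) s v.1) (G s)) :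
    ∃ Λ : ℂ → ℂ, MeromorphicOn Λ Set.univ ∧ AnalyticAt ℂ Λ 1 ∧ Λ 1 ≠ 0 ∧
      ∀ s : ℂ, 2 < s.re → Λ s = (ED (algebraMap K F ((j D : 𝓞 K) : K))).LSeries s := by
  have hM' : io F j M ≠ 0 := by
    rw [Ne, map_eq_zero_iff _ (io_inj (F := F) j)]
    exact hM
  set T := (fin_pl hM').toFinset with hT
  have hmem : ∀ v, v ∈ T ↔ io F j M ∈ v.asIdeal := fun v => by
    rw [hT, Set.Finite.mem_toFinset]
    rfl
  have hD3 : ∀ v : HeightOneSpectrum (𝓞 F), io F j M ∉ v.asIdeal →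
      (3 : 𝓞 F) ∉ v.asIdeal ∧ io F j D ∉ v.asIdeal := by
    intro v hv
    constructor
    · intro h
      apply hv
      obtain ⟨m, hm⟩ := h3
      rw [hm, map_mul, map_ofNat]
      exact Ideal.mul_mem_right _ _ h
    · intro h
      apply hv
      obtain ⟨m, hm⟩ := hDM
      rw [hm, map_mul]
      exact Ideal.mul_mem_right _ _ h
  set W : WeierstrassCurve F := ED (algebraMap K F ((j D : 𝓞 K) : K)) with hW
  have hW' : W = ED ((io F j D : 𝓞 F) : F) := rfl
  have hsplit : ∀ s : ℂ, 2 < s.re → W.LSeries s * ∏ v ∈ T, PP W s v = G s := by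
    intro s hs
    have h1 := hasProd_compl W T hs
    have h2 := hP s hs
    have e : {v : HeightOneSpectrum (𝓞 F) // v ∉ T} ≃
        {v : HeightOneSpectrum (𝓞 F) | io F j M ∉ v.asIdeal} :=
      Equiv.subtypeEquivRight fun v => not_congr (hmem v)
    have h4 : HasProd (fun v : {v : HeightOneSpectrum (𝓞 F) // v ∉ T} =>
        ef (io F j D) s v.1) (G s) := by
      have h5 := (Equiv.hasProd_iff (Equiv.subtypeEquivRight fun v => not_congr (hmem v) :
        {v : HeightOneSpectrum (𝓞 F) // v ∉ T} ≃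
        {v : HeightOneSpectrum (𝓞 F) // io F j M ∉ v.asIdeal})).2 h2
      exact h5
    refine h1.unique (h4.congr_fun fun v => ?_)
    obtain ⟨g1, g2⟩ := hD3 v.1 (fun h => v.2 ((hmem v.1).2 h))
    exact pp_good g1 g2 s
  refine ⟨fun s => (∏ v ∈ T, (PP W s v)⁻¹) * G s, fun z _ => ?_, ?_, ?_, fun s hs => ?_⟩
  · refine MeromorphicAt.fun_mul ?_ (hG.analyticAt z).meromorphicAt
    refine MeromorphicAt.fun_prod fun v _ => ?_
    exact (((pp_diff W v).analyticAt z).meromorphicAt).fun_inv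
  · refine AnalyticAt.fun_mul ?_ (hG.analyticAt 1)
    refine Finset.analyticAt_fun_prod _ fun v _ => ?_
    exact ((pp_diff W v).analyticAt 1).fun_inv (pp_one W v)
  · exact mul_ne_zero (Finset.prod_ne_zero_iff.2 fun v _ => inv_ne_zero (pp_one W v)) hG1
  · show (∏ v ∈ T, (PP W s v)⁻¹) * G s = _
    rw [← hsplit s hs, Finset.prod_inv_distrib]
    have h5 : ∏ v ∈ T, PP W s v ≠ 0 := Finset.prod_ne_zero_iff.2 fun v _ => pp_ne W hs v
    field_simp

end Pool.Agent.D0H69.JTL
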