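import Pool.Agent.D0H69.JT.Fin2
import Pool.Agent.D0H69.JT.Lf3
import Pool.Agent.R432.C7
import Pool.Agent.Y655.XT.Shavc
import Pool.Agent.Y696.XK.Fin

/-!
# Project JT (helper69): the curve `E_D` over an extension generated by cube roots
-/

set_option autoImplicit false
set_option linter.unusedVariables false
set_option linter.unusedSectionVars false

open scoped Classical

namespace Pool.Agent.D0H69.JTL

open NumberField IsDedekindDomain Filter Topology
open Pool.Agent.Y696.CTK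
open Pool.Agent.Y692.QS hiding chi
open Pool.Agent.R432.V (io io_coe)
open Pool.Agent.R432.C (gal3 om_K cubic pts)
open Pool.Agent.D0H10.KH (FamH FactsH)
open Pool.Agent.D0H69.JTA (JK jK_ne jK_inj jK_mul jK_pow frac int_rep)
open Pool.Agent.R419.KF (EntL)
open Pool.Agent.Y696.XK (RkZ finrank_fin)
open Pool.Agent.Y700 (VR)
open Pool.Agent.TH841.NF.D (Sha)

/-- isomorphic curves -/
theorem vr_ED {K : Type} [Field K] [NumberField K] {d d' u : K} (hu : u ≠ 0) (hd : d ≠ 0)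
    (h : d' = d * u ^ 3) :
    (Finite (ED d).toAffine.Point → Finite (ED d').toAffine.Point) ∧
    ((∀ (n : ℕ) (x : Sha (ED d)), 3 ^ n • x = 0 → x = 0) →
      ∀ (n : ℕ) (x : Sha (ED d')), 3 ^ n • x = 0 → x = 0) := by
  have hvr : VR (ED d') (ED d) u 0 0 0 := by
    refine ⟨hu, ?_, ?_, ?_, ?_, ?_⟩ <;> simp [ED]
    rw [h]
    ring
  have hΔ : (ED d).Δ ≠ 0 := by
    rw [ED_Δ]
    exact mul_ne_zero (by norm_num) (pow_ne_zero 4 hd)
  refine ⟨fun hf => Finite.of_equiv _ (hvr.equiv hΔ).toEquiv, fun hS n x hx => ?_⟩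
  let I : Sha (ED d) ≃+ Sha (ED d') := (Pool.Agent.Y655.XT.isoVR hvr hΔ).sha
  have h1 := hS n (I.symm x) (by rw [← map_nsmul, hx, map_zero])
  have h2 := congrArg I h1
  rwa [I.apply_symm_apply, map_zero] at h2

/-- an entire function with a value that is not zero at `1` -/
theorem ent_ne {K : Type} [Field K] [NumberField K] {W : WeierstrassCurve K} (h1 : EntL W)
    (h2 : RkZ W) : ∃ Lf : ℂ → ℂ, Differentiable ℂ Lf ∧ Lf 1 ≠ 0 ∧
      ∀ s : ℂ, 2 < s.re → Lf s = W.LSeries s := by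
  obtain ⟨Lf, hd, hs⟩ := h1
  obtain ⟨-, hfin, U, Lg, hU, hUc, hsub, h1U, han, heq, -, hne⟩ := h2
  have hr : Module.finrank ℤ W.toAffine.Point = 0 := finrank_fin _
  rw [hr, iteratedDeriv_zero] at hne
  have hopen : IsOpen {s : ℂ | (3 / 2 : ℝ) < s.re} := isOpen_lt continuous_const Complex.continuous_re
  have h2m : (2 : ℂ) ∈ {s : ℂ | (3 / 2 : ℝ) < s.re} := by
    show (3 / 2 : ℝ) < (2 : ℂ).re
    norm_num
  have hev : Lf =ᶠ[𝓝 (2 : ℂ)] Lg := by
    filter_upwards [hopen.mem_nhds h2m] with s hs'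
    rw [(hs s hs').2, heq s hs']
  have h3 := AnalyticOnNhd.eqOn_of_preconnected_of_eventuallyEq
    (f := Lf) (g := Lg) (U := U) (fun z _ => hd.analyticAt z) han hUc.isPreconnected (hsub h2m) hev
  refine ⟨Lf, hd, ?_, fun s hs' => (hs s (by
    have : (3 / 2 : ℝ) < s.re := by linarith
    exact this)).2⟩
  rw [h3 h1U]
  exact hne

section
variable {K : Type} [Field K] [NumberField K]
variable {F : Type} [Field F] [NumberField F] [Algebra K F]

/-- the twisting elements -/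
noncomputable def uu {I : Type} [Fintype I] (d : I → K) (t : I → ZMod 3) : K :=
  ∏ i, d i ^ (t i).val

/-- `F` is generated by independent cube roots -/
structure Bas {I : Type} [Fintype I] (d : I → K) (x : I → F) : Prop where
  ne : ∀ i, d i ≠ 0
  cube : ∀ i, x i ^ 3 = algebraMap K F (d i)
  gen : ∀ S : Subfield F, (∀ k : K, algebraMap K F k ∈ S) → (∀ i, x i ∈ S) → S = ⊤
  deg : Module.finrank K F = 3 ^ Fintype.card I
  ind : ∀ t t' : I → ZMod 3, t ≠ t' → ∀ c : K, uu d t ≠ uu d t' * c ^ 3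

lemma uu_ne {I : Type} [Fintype I] {d : I → K} (hd : ∀ i, d i ≠ 0) (t : I → ZMod 3) :
    uu d t ≠ 0 := Finset.prod_ne_zero_iff.2 fun i _ => pow_ne_zero _ (hd i)

/-- **The curve over `F`.** -/
theorem overF [IsCyclotomicExtension {3} ℚ K] {I : Type} [Fintype I] {d : I → K} {x : I → F}
    (B : Bas d x) {D : 𝓞 K} (hD : FamH D) (h : JK (uu d) D) :
    Finite (ED (algebraMap K F (D : K))).toAffine.Point ∧
    (∀ (k : ℕ) (y : Sha (ED (algebraMap K F (D : K)))), 3 ^ k • y = 0 →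
      3 ^ Fintype.card I • y = 0) ∧
    ∃ Λ : ℂ → ℂ, MeromorphicOn Λ Set.univ ∧ AnalyticAt ℂ Λ 1 ∧ Λ 1 ≠ 0 ∧
      ∀ s : ℂ, 2 < s.re → Λ s = (ED (algebraMap K F (D : K))).LSeries s := by
  obtain ⟨⟨j, hj⟩, -⟩ := Pool.Agent.Y455.CTK.jex K
  have hω := om_K j
  obtain ⟨hfd, hgal⟩ := gal3 (F := F) hω d x B.cube B.gen
  have hD0' : D ≠ 0 := by
    rintro rfl
    exact not_isUnit_zero (hD.2 0 (dvd_zero _))
  have hD0 : (D : K) ≠ 0 := fun h0 => hD0' (RingOfIntegers.coe_injective (h0.trans (map_zero _).symm))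
  have htw : ∀ t : I → ZMod 3, Finite (ED ((D : K) * ∏ i, d i ^ (t i).val)).toAffine.Point ∧
      ∀ (n : ℕ) (y : Sha (ED ((D : K) * ∏ i, d i ^ (t i).val))), 3 ^ n • y = 0 → y = 0 := by
    intro t
    obtain ⟨D', hD', ⟨c, hc, heq⟩, htri⟩ := h t
    have h0 : D' ≠ 0 := by
      rintro rfl
      exact not_isUnit_zero (hD'.2 0 (dvd_zero _))
    have h0' : (D' : K) ≠ 0 := fun h1 => h0 (RingOfIntegers.coe_injective (h1.trans (map_zero _).symm))
    have e1 : (D : K) * ∏ i, d i ^ (t i).val = (D' : K) * (c⁻¹) ^ 3 := by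
      rw [heq]
      unfold uu
      field_simp
    obtain ⟨k1, k2⟩ := vr_ED (inv_ne_zero hc) h0' e1
    exact ⟨k1 htri.1, k2 htri.2⟩
  refine ⟨pts hω d x B.ne B.cube B.gen hD0 fun t => (htw t).1, fun k y hy =>
    cubic hω d x B.ne B.cube B.gen hD0 (fun t => (htw t).2) k y hy, ?_⟩
  -- the L-function
  choose d' b hd'0 hb hdb using fun i => int_rep j (B.ne i)
  have hx3 : ∀ i, (x i / algebraMap K F (b i)) ^ 3 = algebraMap K F ((j (d' i) : 𝓞 K) : K) := by
    intro i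
    have hb' : algebraMap K F (b i) ≠ 0 := (map_ne_zero _).2 (hb i)
    rw [div_pow, B.cube i, hdb i, map_mul, map_pow, mul_div_assoc, div_self (pow_ne_zero 3 hb'),
      mul_one]
  have hint : ∀ i, IsIntegral ℤ (x i / algebraMap K F (b i)) := by
    intro i
    refine IsIntegral.of_pow (n := 3) (by norm_num) ?_
    rw [hx3 i]
    exact (j (d' i)).2.map ((algebraMap K F).toIntAlgHom)
  set x' : I → 𝓞 F := fun i => ⟨x i / algebraMap K F (b i), hint i⟩ with hx'd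
  have hx' : ∀ i, x' i ^ 3 = io F j (d' i) := by
    intro i
    apply RingOfIntegers.ext
    rw [io_coe, ← hx3 i]
    rfl
  have hgen' : ∀ L : Subfield F, (∀ k : K, algebraMap K F k ∈ L) → (∀ i, (x' i : F) ∈ L) → L = ⊤ := by
    intro L h1 h2
    refine B.gen L h1 fun i => ?_
    have h3 : x i = (x' i : F) * algebraMap K F (b i) := by
      have hb' : algebraMap K F (b i) ≠ 0 := (map_ne_zero _).2 (hb i)
      show x i = x i / algebraMap K F (b i) * algebraMap K F (b i)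
      rw [div_mul_cancel₀ _ hb']
    rw [h3]
    exact L.mul_mem (h2 i) (h1 _)
  have hcop : ∀ t : I → ZMod 3, ∃ (D' m n : Ei) (Lf : ℂ → ℂ), D' ≠ 0 ∧ m ≠ 0 ∧ n ≠ 0 ∧
      D' * n ^ 3 = j.symm D * (∏ i, d' i ^ (t i).val) * m ^ 3 ∧ Differentiable ℂ Lf ∧ Lf 1 ≠ 0 ∧
      ∀ s : ℂ, 2 < s.re → Lf s = (ED (j D' : K)).LSeries s := by
    intro t
    obtain ⟨D', hD', ⟨c, hc, heq⟩, htri⟩ := h t
    have hf := Pool.Agent.D0H69.L0F.factsAll j hj hD'
    obtain ⟨Lf, hL1, hL2, hL3⟩ := ent_ne hf.1 (hf.2 htri)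
    obtain ⟨D', rfl⟩ := j.surjective D'
    have h0 : D' ≠ 0 := by
      rintro rfl
      rw [map_zero] at hD'
      exact not_isUnit_zero (hD'.2 0 (dvd_zero _))
    have hB0 : ∏ i, b i ^ (t i).val ≠ 0 := Finset.prod_ne_zero_iff.2 fun i _ => pow_ne_zero _ (hb i)
    obtain ⟨m, n, hm, hn, hmn⟩ := frac j (mul_ne_zero hc hB0)
    refine ⟨D', m, n, Lf, h0, hm, hn, ?_, hL1, hL2, hL3⟩
    apply jK_inj j
    have e1 : uu d t = ((j (∏ i, d' i ^ (t i).val) : 𝓞 K) : K) * (∏ i, b i ^ (t i).val) ^ 3 := by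
      unfold uu
      rw [map_prod, ← Finset.prod_pow]
      have e2 : ((∏ i, j (d' i ^ (t i).val) : 𝓞 K) : K) = ∏ i, ((j (d' i) : 𝓞 K) : K) ^ (t i).val := by
        rw [show ((∏ i, j (d' i ^ (t i).val) : 𝓞 K) : K) =
          algebraMap (𝓞 K) K (∏ i, j (d' i ^ (t i).val)) from rfl, map_prod]
        refine Finset.prod_congr rfl fun i _ => ?_
        exact jK_pow j (d' i) _
      rw [e2, ← Finset.prod_mul_distrib]
      refine Finset.prod_congr rfl fun i _ => ?_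
      rw [hdb i]
      ring
    have e3 : ((j (j.symm D) : 𝓞 K) : K) = (D : K) := by rw [RingEquiv.apply_symm_apply]
    rw [jK_mul, jK_mul, jK_mul, jK_pow, jK_pow, heq, e1, e3, ← hmn]
    ring
  choose D' m n Lf hD'0 hm hn heq hL1 hL2 hL3 using hcop
  set D₀ : Ei := j.symm D with hD₀
  have hD₀0 : D₀ ≠ 0 := by
    rw [hD₀, Ne, map_eq_zero_iff _ j.symm.injective]
    exact hD0'
  have hjD : j D₀ = D := j.apply_symm_apply D
  set M : Ei := 3 * D₀ * (∏ i, d' i) * ∏ t, (D' t * m t * n t) with hM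
  have hM0 : M ≠ 0 := mul_ne_zero (mul_ne_zero (mul_ne_zero (by decide) hD₀0)
    (Finset.prod_ne_zero_iff.2 fun i _ => hd'0 i))
    (Finset.prod_ne_zero_iff.2 fun t _ => mul_ne_zero (mul_ne_zero (hD'0 t) (hm t)) (hn t))
  have h3M : (3 : Ei) ∣ M := ((Dvd.intro _ rfl : (3 : Ei) ∣ 3 * D₀).mul_right _).mul_right _
  have hDM : D₀ ∣ M := ((Dvd.intro_left _ rfl : D₀ ∣ 3 * D₀).mul_right _).mul_right _
  have hdM : ∀ i, d' i ∣ M := fun i =>
    ((Finset.dvd_prod_of_mem d' (Finset.mem_univ i)).mul_left _).mul_right _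
  have htM : ∀ t, D' t * m t * n t ∣ M := fun t =>
    (Finset.dvd_prod_of_mem (fun t => D' t * m t * n t) (Finset.mem_univ t)).mul_left _
  have h1M : ∀ t, D' t ∣ M := fun t => (((Dvd.intro _ rfl : D' t ∣ D' t * m t)).mul_right _).trans (htM t)
  have h2M : ∀ t, m t ∣ M := fun t =>
    (((Dvd.intro_left _ rfl : m t ∣ D' t * m t)).mul_right _).trans (htM t)
  have h3M' : ∀ t, n t ∣ M := fun t => (Dvd.intro_left _ rfl).trans (htM t)
  choose L hLd hL1' hLp using fun t => partK j hM0 h3M (h1M t) (hL1 t) (hL2 t) (hL3 t)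
  obtain ⟨Λ, k1, k2, k3, k4⟩ := fullF (F := F) j (D := D₀) (G := fun s => ∏ t, L t s) hM0 h3M hDM
    (Differentiable.fun_finsetProd fun t _ => hLd t)
    (Finset.prod_ne_zero_iff.2 fun t _ => hL1' t)
    (fun s hs => eulG j d' x' hx' hgen' B.deg h3M hDM hdM D' n m h3M' h2M h1M heq L hs
      fun t => hLp t s hs)
  refine ⟨Λ, k1, k2, k3, fun s hs => ?_⟩
  rw [k4 s hs, hjD]

end

end Pool.Agent.D0H69.JTL
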