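import Pool.Agent.D0H69.JT.Kum

/-!
# Points, `Ш` and `L`-functions over all the subfields of several Kummer extensions at once
-/

set_option autoImplicit false
set_option linter.unusedVariables false
set_option linter.unusedSectionVars false

open scoped Classical

namespace Pool.Agent.D0H69.JTL

open NumberField Filter Topology
open Pool.Agent.Y696.CTK (Tri ED)
open Pool.Agent.Y703.XK (c9)
open Pool.Agent.D0H10.KH (FamH ExtH)
open Pool.Agent.D0H69.JTA (JK)
open Pool.Agent.TH841.NF.D (Sha)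
open Pool.Agent.D0H69.UC (lower' inf_cls two_fin fewJK)
open Pool.Agent.D0H69.JTK (kum)

/-- three points -/
theorem card_three {F : Type} [Field F] {a : F} (ha : a ≠ 0)
    (h : ∀ X Y : F, Y ^ 2 + a * Y = X ^ 3 → X = 0) : Nat.card (ED a).toAffine.Point = 3 := by
  have hns : ∀ Y : F, Y = 0 ∨ Y = -a → (ED a).toAffine.Nonsingular 0 Y := by
    intro Y hY
    rw [WeierstrassCurve.Affine.nonsingular_iff]
    refine ⟨?_, ?_⟩
    · rw [WeierstrassCurve.Affine.equation_iff]
      change Y ^ 2 + 0 * 0 * Y + a * Y = 0 ^ 3 + 0 * 0 ^ 2 + 0 * 0 + 0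
      rcases hY with rfl | rfl <;> ring
    · right
      change Y ≠ -Y - 0 * 0 - a
      intro h0
      rcases hY with rfl | rfl
      · apply ha
        linear_combination h0
      · apply ha
        linear_combination -h0
  have hcard : (Set.univ : Set (ED a).toAffine.Point).ncard = 3 := by
    rw [Set.ncard_eq_three]
    refine ⟨.zero, .some 0 0 (hns 0 (Or.inl rfl)), .some 0 (-a) (hns (-a) (Or.inr rfl)), ?_, ?_, ?_, ?_⟩
    · intro h0
      cases h0
    · intro h0
      cases h0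
    · intro h0
      rw [WeierstrassCurve.Affine.Point.some.injEq] at h0
      exact ha (by linear_combination h0.2)
    · symm
      rw [Set.eq_univ_iff_forall]
      intro P
      rcases P with _ | ⟨X, Y, hXY⟩
      · exact Or.inl rfl
      · have h1 := hXY.left
        rw [WeierstrassCurve.Affine.equation_iff] at h1
        change Y ^ 2 + 0 * X * Y + a * Y = X ^ 3 + 0 * X ^ 2 + 0 * X + 0 at h1
        have h2 : Y ^ 2 + a * Y = X ^ 3 := by linear_combination h1
        have h3 := h X Y h2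
        subst h3
        have h4 : Y * (Y + a) = 0 := by linear_combination h2
        rcases mul_eq_zero.1 h4 with h5 | h5
        · subst h5
          exact Or.inr (Or.inl rfl)
        · have h6 : Y = -a := by linear_combination h5
          subst h6
          exact Or.inr (Or.inr rfl)
  rw [← Set.ncard_univ, hcard]

/-- the property of the curve over `k` -/
def GoodL {K : Type} [Field K] [NumberField K] (k : Type) [Field k] [NumberField k] [Algebra K k]
    (D : 𝓞 K) : Prop :=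
  Finite (ED (algebraMap K k (D : K))).toAffine.Point ∧
  (∀ (n : ℕ) (y : Sha (ED (algebraMap K k (D : K)))), 3 ^ n • y = 0 →
    Module.finrank K k • y = 0) ∧
  ∃ Λ : ℂ → ℂ, MeromorphicOn Λ Set.univ ∧ AnalyticAt ℂ Λ 1 ∧ Λ 1 ≠ 0 ∧
    ∀ s : ℂ, 2 < s.re → Λ s = (ED (algebraMap K k (D : K))).LSeries s

section
variable {K : Type} [Field K] [NumberField K] [IsCyclotomicExtension {3} ℚ K]

/-- over `F` -/
theorem goodF {F : Type} [Field F] [NumberField F] [Algebra K F] {I : Type} [Fintype I]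
    {d : I → K} {x : I → F} (B : Bas d x) {D : 𝓞 K} (hD : FamH D) (h : JK (uu d) D) : GoodL F D := by
  obtain ⟨h3, h4, h5⟩ := overF B hD h
  rw [← B.deg] at h4
  exact ⟨h3, h4, h5⟩

/-- the points over `F` -/
theorem threeF {F : Type} [Field F] [NumberField F] [Algebra K F] {I : Type} [Fintype I]
    {d : I → K} {x : I → F} (B : Bas d x) {D : 𝓞 K} (hD : FamH D) (h : JK (uu d) D)
    (h2 : ∀ (t : I → ZMod 3) (r : K), 2 * r ^ 3 ≠ uu d t * D) :
    Nat.card (ED (algebraMap K F (D : K))).toAffine.Point = 3 := by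
  refine card_three ((map_ne_zero _).2 (famH_ne' hD)) ?_
  have h6 := fewJK B (u := (1 : K)) one_ne_zero hD (jk_cong (v := uu d) (fun t => ⟨t, 1, one_ne_zero, by
    show (1 : K) * uu d t = uu d t * 1 ^ 3
    ring⟩) h) (fun t r => by rw [one_mul]; exact h2 t r)
  rwa [one_mul] at h6

/-- over the subfields -/
theorem goodSub {F : Type} [Field F] [NumberField F] [Algebra K F] {I : Type} [Fintype I]
    {d : I → K} {x : I → F} (B : Bas d x) {D : 𝓞 K} (hD : FamH D) (h : JK (uu d) D)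
    {k : Type} [Field k] [NumberField k] [Algebra K k] (φ : k →ₐ[K] F)
    (hk : ∃ S : Set k, (∀ x ∈ S, ∃ w : K, x ^ 3 = algebraMap K k w) ∧
      IntermediateField.adjoin K S = ⊤) : GoodL k D := by
  obtain ⟨S, hS, hSg⟩ := hk
  obtain ⟨r, d', x', B'⟩ := bas_of (K := K) hS hSg
  refine goodF B' hD (jk_cong (v := uu d) (fun e' => ?_) h)
  refine kum B.ne B.cube B.gen (uu_ne B'.ne e') (v := φ (∏ i, x' i ^ (e' i).val)) ?_
  rw [← map_pow, ← φ.commutes, ← Finset.prod_pow]
  congr 1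
  unfold uu
  rw [map_prod]
  refine Finset.prod_congr rfl fun i _ => ?_
  rw [map_pow, ← B'.cube i, ← pow_mul, ← pow_mul, mul_comm]

/-- **The criterion.** -/
theorem crit {F : Type} [Field F] [NumberField F] [Algebra K F]
    (hF : ∃ S : Set F, (∀ x ∈ S, ∃ w : K, x ^ 3 = algebraMap K F w) ∧
      IntermediateField.adjoin K S = ⊤) {D : 𝓞 K} (hD : FamH D)
    (h : ∀ w : K, w ≠ 0 → (∃ v : F, v ^ 3 = algebraMap K F w) →
      ∃ D' : 𝓞 K, FamH D' ∧ (∃ z : K, z ≠ 0 ∧ (D' : K) = w * D * z ^ 3) ∧ Tri D')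
    {k : Type} [Field k] [NumberField k] [Algebra K k] (φ : k →ₐ[K] F)
    (hk : ∃ S : Set k, (∀ x ∈ S, ∃ w : K, x ^ 3 = algebraMap K k w) ∧
      IntermediateField.adjoin K S = ⊤) : GoodL k D := by
  obtain ⟨S, hS, hgen⟩ := hF
  obtain ⟨r, d, x, B⟩ := bas_of (K := K) hS hgen
  refine goodSub B hD (fun t => h _ (uu_ne B.ne t) ⟨∏ i, x i ^ (t i).val, ?_⟩) φ hk
  rw [← Finset.prod_pow]
  unfold uu
  rw [map_prod]
  refine Finset.prod_congr rfl fun i _ => ?_
  rw [map_pow, ← B.cube i, ← pow_mul, ← pow_mul, mul_comm]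

/-- **Several fields and twists, all the subfields.** -/
theorem low_subL {ι : Type} [Fintype ι] {F : ι → Type}
    [∀ i, Field (F i)] [∀ i, NumberField (F i)] [∀ i, Algebra K (F i)]
    (hF : ∀ i, ∃ S : Set (F i), (∀ x ∈ S, ∃ w : K, x ^ 3 = algebraMap K (F i) w) ∧
      IntermediateField.adjoin K S = ⊤) {u : ι → K} (hu : ∀ i, u i ≠ 0)
    {P : 𝓞 K → Prop} (hP : Cls P) {c' : ℝ} (hc' : c' < c9 ^ ∑ i, Module.finrank K (F i))
    {R : 𝓞 K → Prop} (hR : ∀ D : 𝓞 K, (∀ i, ∃ D' : 𝓞 K, FamH D' ∧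
      (∃ z : K, z ≠ 0 ∧ (D' : K) = u i * D * z ^ 3) ∧
      Nat.card (ED (algebraMap K (F i) (D' : K))).toAffine.Point = 3 ∧
      ∀ (k : Type) [Field k] [NumberField k] [Algebra K k], (k →ₐ[K] F i) →
      (∃ S : Set k, (∀ x ∈ S, ∃ w : K, x ^ 3 = algebraMap K k w) ∧ IntermediateField.adjoin K S = ⊤) →
        GoodL k D') → R D) :
    ∀ᶠ X : ℕ in atTop, c' * ({D : 𝓞 K | Algebra.norm ℤ D ≤ X ∧ FamH D ∧ P D}.ncard : ℝ) ≤
      ({D : 𝓞 K | Algebra.norm ℤ D ≤ X ∧ (FamH D ∧ P D) ∧ R D}.ncard : ℝ) := by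
  choose S hS hgen using hF
  choose r d y B using fun i => bas_of (K := K) (hS i) (hgen i)
  let v : (Σ i, Fin (r i) → ZMod 3) → K := fun p => u p.1 * uu (d p.1) p.2
  have hv : ∀ p, v p ≠ 0 := fun p => mul_ne_zero (hu _) (uu_ne (B p.1).ne _)
  have hcard : Fintype.card (Σ i, Fin (r i) → ZMod 3) = ∑ i, Module.finrank K (F i) := by
    rw [Fintype.card_sigma]
    refine Finset.sum_congr rfl fun i _ => ?_
    rw [(B i).deg]
    simp [ZMod.card]
  obtain ⟨c2, hc1, hc2⟩ := exists_between hc'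
  have h1 := low_all (K := K) (v := v) hv hP (x := c2) (by rw [hcard]; exact hc2)
  let E : Set (𝓞 K) := ⋃ p, {D : 𝓞 K | FamH D ∧ ∃ r : K, 2 * r ^ 3 = v p * D}
  have hE : E.Finite := Set.finite_iUnion fun p => two_fin (hv p)
  refine lower' (P := fun D => FamH D ∧ P D) (Q := JK v) (inf_cls hP) E hE (R := R)
    (fun D hD hJ hDE => hR D fun i => ?_) hc1 ?_
  · have hJi : JK (fun t => u i * uu (d i) t) D := jk_cong (v := v) (fun t => ⟨⟨i, t⟩, 1, one_ne_zero, by
        show u i * uu (d i) t = u i * uu (d i) t * 1 ^ 3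
        ring⟩) hJ
    obtain ⟨D', hD', ⟨z, hz, hDz⟩, -⟩ := hJi 0
    have h0 : uu (d i) (0 : Fin (r i) → ZMod 3) = 1 := by
      unfold uu
      simp
    have hDz : (D' : K) = u i * uu (d i) (0 : Fin (r i) → ZMod 3) * D * z ^ 3 := hDz
    rw [h0, mul_one] at hDz
    refine ⟨D', hD', ⟨z, hz, hDz⟩, ?_, fun k _ _ _ φ hk =>
      goodSub (B i) hD' (jk_twist hz hDz hJi) φ hk⟩
    refine threeF (B i) hD' (jk_twist hz hDz hJi) fun t r' hr => hDE ?_
    refine Set.mem_iUnion.2 ⟨⟨i, t⟩, hD.1, r' / z, ?_⟩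
    show 2 * (r' / z) ^ 3 = u i * uu (d i) t * D
    rw [hDz] at hr
    rw [div_pow]
    field_simp
    linear_combination hr
  · simp only [and_assoc]
    exact h1

end

end Pool.Agent.D0H69.JTL
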