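import Pool.Agent.D0H50.JL.SelT
import Pool.Agent.D0H69.JT.SubL

/-!
# The `3^∞`-Selmer groups over the Kummer extensions

The theorem `sel_killed` is adapted from `Pool.Agent.D0H50.JL.triv_iff` (helper50).
-/

set_option autoImplicit false
set_option linter.unusedVariables false
set_option linter.unusedSectionVars false

open scoped Classical

namespace Pool.Agent.D0H69.JTL

open WeierstrassCurve NumberField Filter
open Pool.Agent.TH841.SH.D (Pt act Gal Coch IsCoc IsCob cob)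
open Pool.Agent.TH841.NF.D (IsShaCoc shaCoc Sha)
open Pool.Agent.Y703.XL.Inf
open Pool.Agent.Y696.CTK (ED Tri)
open Pool.Agent.D0H50.JL (exists_inc fin_iff)
open Pool.Agent.D0H10.KH (FamH ExtH)
open Pool.Agent.Y703.XK (c9)
open Pool.Agent.D0H69.JTA (JK)

/-- the Selmer group is killed by `n` if `Ш[3^∞]` is and the group of the points is finite -/
theorem sel_killed {F : Type} [Field F] [NumberField F] {D : F} (hD : D ≠ 0)
    (h1 : Finite (ED D).toAffine.Point) {n : ℕ}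
    (h2' : ∀ (k : ℕ) (x : Sha (ED D)), 3 ^ k • x = 0 → n • x = 0) :
    ∀ x : SelInf D, n • x = 0 := by
  intro x
  have h2 : ∀ (k : ℕ) (x : Sha (E1 D)), 3 ^ k • x = 0 → n • x = 0 := h2'
  have hfinK : Finite (Pt (E1 D) F) := (fin_iff D).2 h1
  have hfix : Finite (Pool.Agent.D0H50.BK.Fix fun σ : Gal F => act (E1 D) σ.toAlgHom) := by
    choose! g hg using fun (P : Pt (E1 D) (AlgebraicClosure F))
      (h : ∀ σ : Gal F, act (E1 D) σ.toAlgHom P = P) => exists_inc hD h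
    refine Finite.of_injective (fun P : (Pool.Agent.D0H50.BK.Fix fun σ : Gal F =>
      act (E1 D) σ.toAlgHom) => g P.1) fun P Q h => ?_
    apply Subtype.ext
    rw [← hg P.1 P.2, ← hg Q.1 Q.2]
    exact congrArg _ h
  obtain ⟨f, rfl⟩ : ∃ f : selCoc D, cls f = x := QuotientAddGroup.mk_surjective x
  have hcls : n • cls f = cls (n • f) := rfl
  rw [hcls, cls_eq_zero]
  have hN : ∃ N : ℕ, ∀ σ, 3 ^ N • f.1 σ = 0 := by
    have hfin : (Set.range f.1).Finite := f.2.1.1.1.range_finite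
    choose m hn using f.2.2
    have hn' : ∀ R ∈ Set.range f.1, ∃ m : ℕ, 3 ^ m • R = 0 := by
      rintro _ ⟨σ, rfl⟩
      exact ⟨_, hn σ⟩
    choose! m hm using hn'
    refine ⟨hfin.toFinset.sup m, fun σ => ?_⟩
    have h1 : m (f.1 σ) ≤ hfin.toFinset.sup m :=
      Finset.le_sup (hfin.mem_toFinset.2 (Set.mem_range_self σ))
    obtain ⟨c, hc⟩ := Nat.exists_eq_add_of_le h1
    rw [hc, add_comm, pow_add, mul_smul, hm _ (Set.mem_range_self σ), smul_zero]
  obtain ⟨N, hN⟩ := hN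
  have hsh : IsShaCoc (E1 D) f.1 := f.2.1
  have hcob : IsCob (E1 D) (n • f.1) := by
    obtain ⟨g, hg⟩ : ∃ g : shaCoc (E1 D), g = ⟨f.1, hsh⟩ := ⟨_, rfl⟩
    let y : Sha (E1 D) := QuotientAddGroup.mk g
    have hy : 3 ^ N • y = 0 := by
      have h3 : 3 ^ N • g = 0 := by
        rw [hg]
        apply Subtype.ext
        funext σ
        exact hN σ
      have h4 : 3 ^ N • y = (QuotientAddGroup.mk (3 ^ N • g) : Sha (E1 D)) := rfl
      refine h4.trans ?_
      rw [h3]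
      rfl
    have h3 : (QuotientAddGroup.mk (n • g) : Sha (E1 D)) = 0 := h2 N y hy
    have h4 := (QuotientAddGroup.eq_zero_iff (N := (cob (E1 D)).addSubgroupOf (shaCoc (E1 D)))
      (n • g)).1 h3
    have h5 := AddSubgroup.mem_addSubgroupOf.1 h4
    rw [hg] at h5
    exact h5
  have hN' : ∀ σ, 3 ^ N • (n • f.1) σ = 0 := fun σ => by
    show 3 ^ N • (n • f.1 σ) = 0
    rw [smul_comm, hN σ, smul_zero]
  obtain ⟨P, ⟨m, hm⟩, hP⟩ := Pool.Agent.D0H50.BK.p_prim
    (fun σ : Gal F => act (E1 D) σ.toAlgHom) Nat.prime_three (n • f.1) N hN' hcob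
  exact ⟨P, ⟨m, hm⟩, hP⟩

section
variable {K : Type} [Field K] [NumberField K] [IsCyclotomicExtension {3} ℚ K]

/-- the Selmer groups over several fields and all their subfields -/
theorem low_selsub {ι : Type} [Fintype ι] {F : ι → Type}
    [∀ i, Field (F i)] [∀ i, NumberField (F i)] [∀ i, Algebra K (F i)]
    (hF : ∀ i, ∃ S : Set (F i), (∀ x ∈ S, ∃ w : K, x ^ 3 = algebraMap K (F i) w) ∧
      IntermediateField.adjoin K S = ⊤) {u : ι → K} (hu : ∀ i, u i ≠ 0)
    {P : 𝓞 K → Prop} (hP : Cls P) {c' : ℝ} (hc' : c' < c9 ^ ∑ i, Module.finrank K (F i))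
    {R : 𝓞 K → Prop} (hR : ∀ D : 𝓞 K, (∀ i, ∀ (k : Type) [Field k] [NumberField k] [Algebra K k],
      (k →ₐ[K] F i) → (∃ S : Set k, (∀ x ∈ S, ∃ w : K, x ^ 3 = algebraMap K k w) ∧
        IntermediateField.adjoin K S = ⊤) →
        ∀ y : SelInf (algebraMap K k (u i * D)), Module.finrank K k • y = 0) → R D) :
    ∀ᶠ X : ℕ in atTop, c' * ({D : 𝓞 K | Algebra.norm ℤ D ≤ X ∧ FamH D ∧ P D}.ncard : ℝ) ≤
      ({D : 𝓞 K | Algebra.norm ℤ D ≤ X ∧ (FamH D ∧ P D) ∧ R D}.ncard : ℝ) := by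
  choose S hS hgen using hF
  choose r d y B using fun i => bas_of (K := K) (hS i) (hgen i)
  let v : (Σ i, Fin (r i) → ZMod 3) → K := fun p => u p.1 * uu (d p.1) p.2
  have hv : ∀ p, v p ≠ 0 := fun p => mul_ne_zero (hu _) (uu_ne (B p.1).ne _)
  have hcard : Fintype.card (Σ i, Fin (r i) → ZMod 3) = ∑ i, Module.finrank K (F i) := by
    rw [Fintype.card_sigma]
    refine Finset.sum_congr rfl fun i _ => ?_
    rw [(B i).deg]
    simp [ZMod.card]
  obtain ⟨c2, hc1, hc2⟩ := exists_between hc'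
  have h1 := low_all (K := K) (v := v) hv hP (x := c2) (by rw [hcard]; exact hc2)
  refine Pool.Agent.D0H69.UC.lower' (P := fun D => FamH D ∧ P D) (Q := JK v)
    (Pool.Agent.D0H69.UC.inf_cls hP) ∅ Set.finite_empty (R := R)
    (fun D hD hJ _ => hR D fun i k _ _ _ φ hk => ?_) hc1 ?_
  · obtain ⟨S', hS', hSg'⟩ := hk
    obtain ⟨r', d', x', B'⟩ := bas_of (K := K) hS' hSg'
    have key : ∀ e' : Fin r' → ZMod 3, ∃ e : Fin (r i) → ZMod 3, ∃ z : K, z ≠ 0 ∧
        uu d' e' = uu (d i) e * z ^ 3 := by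
      intro e'
      refine Pool.Agent.D0H69.JTK.kum (B i).ne (B i).cube (B i).gen (uu_ne B'.ne e')
        (v := φ (∏ i, x' i ^ (e' i).val)) ?_
      rw [← map_pow, ← φ.commutes, ← Finset.prod_pow]
      congr 1
      unfold uu
      rw [map_prod]
      refine Finset.prod_congr rfl fun i _ => ?_
      rw [map_pow, ← B'.cube i, ← pow_mul, ← pow_mul, mul_comm]
    have hJ' : JK (fun t => u i * uu d' t) D := jk_cong (v := v) (fun t => by
      obtain ⟨e, z, hz, he⟩ := key t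
      refine ⟨⟨i, e⟩, z, hz, ?_⟩
      show u i * uu d' t = u i * uu (d i) e * z ^ 3
      rw [he]
      ring) hJ
    obtain ⟨h3, h4⟩ := overF_tw B' hJ'
    exact sel_killed ((map_ne_zero _).2 (mul_ne_zero (hu i) (famH_ne' hD.1))) h3 h4
  · simp only [and_assoc]
    exact h1

/-- the criterion for the Selmer groups -/
theorem crit_sel {F : Type} [Field F] [NumberField F] [Algebra K F]
    (hF : ∃ S : Set F, (∀ x ∈ S, ∃ w : K, x ^ 3 = algebraMap K F w) ∧
      IntermediateField.adjoin K S = ⊤) {D : 𝓞 K} (hD : FamH D)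
    (h : ∀ w : K, w ≠ 0 → (∃ v : F, v ^ 3 = algebraMap K F w) →
      ∃ D' : 𝓞 K, FamH D' ∧ (∃ z : K, z ≠ 0 ∧ (D' : K) = w * D * z ^ 3) ∧ Tri D')
    {k : Type} [Field k] [NumberField k] [Algebra K k] (φ : k →ₐ[K] F)
    (hk : ∃ S : Set k, (∀ x ∈ S, ∃ w : K, x ^ 3 = algebraMap K k w) ∧
      IntermediateField.adjoin K S = ⊤) :
    ∀ y : SelInf (algebraMap K k (D : K)), Module.finrank K k • y = 0 := by
  obtain ⟨h1, h2, -⟩ := crit hF hD h φ hk
  exact sel_killed ((map_ne_zero _).2 (famH_ne' hD)) h1 h2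

end

end Pool.Agent.D0H69.JTL
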