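import Pool.Agent.D0H69.JT.Stm
import Pool.Agent.D0H50.JL.BoxC
import Pool.Agent.D0H50.JL.BoxG
import Pool.Agent.D0H69.L3K.Bad
import Pool.Agent.D0H10.L9D.Bad

/-!
# Project JT (helper69): statements of the analytic part

`Q` is a fixed finite set of primary primes; the twists are by `λ^α ω^i ∏_{q ∈ Q} q ^ f q`.
`M ⊆ S`: the primes of `D`, `M` those with exponent `2`.
-/

set_option autoImplicit false
set_option linter.unusedVariables false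

open scoped Classical

namespace Pool.Agent.D0H69.JT

open Finset
open Pool.Agent.Y692.QS (Ei w nr toC)
open Pool.Agent.Y715.T.Rec (cs)
open Pool.Agent.Y715.T.RecG (Pq)
open Pool.Agent.Y699.E (ez nrm QB SB PS mf xab lg)
open Pool.Agent.Y703.CX (jj XX eL zz)
open Pool.Agent.Y703.XK (sm la bl prs HB c9 S_BIL S_EQ S_C9 GdA)
open Pool.Agent.R419.KF (wt SG GdW)
open Pool.Agent.Y688.XK (lb)
open Pool.Agent.Y433.XK (pN)
open Pool.Agent.N883.FF (nq ClU SU RRU)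
open Pool.Agent.D0H43.L3 (yq)
open Pool.Agent.D0H69.L3K (Tau)
open Pool.Agent.D0H69.L0D (NtS)
open Pool.Agent.D0H10.L9D (NdN)
open Pool.Agent.D0H10.L9D.Box (LNB)
open Pool.Agent.D0H50.JL (Tup GdP GdG GdC)

/-! ### the analytic part -/

/-- **GEN4.** The general estimate with the exponent `1/4`: copy of
`Pool.Agent.R419.KF.Few.gen` (file `R419/KF/Gen.lean`) with `1/4` in place of `1/3`. -/
def S_GEN4 : Prop := ∀ (a b : ℝ), 0 ≤ a → 0 ≤ b → ∀ (Qp : ℕ → Finset Ei → Prop),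
  (∀ (X : ℕ) (S₀ : Finset Ei), (∀ u ∈ S₀, Pq u ∧ nrm u ≤ zz X) → S₀.card ≤ Pool.Agent.Y703.CX.kk X →
      ∀ F : Finset (Finset Ei),
      (∀ S ∈ F, S ∈ SG X ∧ (S.card ≤ Pool.Agent.Y703.CX.kk X ∧ Qp X S) ∧ sm (zz X) S = S₀) → (F.card : ℝ) ≤
        b * a ^ S₀.card * lg (pN S₀) * (((X / pN S₀ : ℕ) : ℝ) *
          (lg (X / pN S₀)) ^ (-(1 / 4) : ℝ))) →
  ∀ ε : ℝ, 0 < ε → ∃ X₀ : ℕ, ∀ X : ℕ, X₀ ≤ X → ∀ F : Finset (Finset Ei),
      (∀ S ∈ F, S ∈ SG X ∧ S.card ≤ Pool.Agent.Y703.CX.kk X ∧ Qp X S) → (F.card : ℝ) ≤ ε * X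

/-- **HALS.** Mean values of the function which is `1` at the primes with character value `1` and
`1/24` at the others.

Proof. Let `g1 π = (1 + 2 Re χ π)/3` (`1` or `0`) and `g` the function of the statement, `S1 g T =
∑_{n ∈ SB T} mf g n / nrm n`.  `hall1` (file `Y699/E/Hall.lean`): `(∑_{SB T} mf g) log T ≤ 7 T (S1 g T)`.
`S1 g T ≤ (S1 g1 T) * ∑_{S ⊆ QB T} (1/24)^#S / pN S` (split `PD n` into the primes with value `1` and the
others; injection `n ↦ (product of the first kind, set of the second kind)`), and the second factor is at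
most `exp(1/24 ∑_{QB T} 1/nrm) ≤ C (log T)^(1/12)` (`Pool.Agent.Y433.XK.small_sum`, `M_le`).
`(S1 g1 T)^3 ≤ A (lg T)^2` with `A = C lg(nrm A nrm B)` by `hall3` and `conv_bound` exactly as in the proof
of `Pool.Agent.D0H69.L3K.hal` (file `D0H69/L3K/Hal.lean`: `ps`, `ps_ch`, `ps_le`, `ch_log`).  Together
`∑ mf g ≤ C T (lg T)^(-1 + 2/3 + 1/12)`, `1 - 2/3 - 1/12 = 1/4` (`lg_le_log`, `log_le_lg`; `T = 0, 1`
trivial). -/
def S_HALS : Prop := ∀ τ : Ei → ZMod 3, Tau τ → ∃ C : ℝ, 1 ≤ C ∧ ∀ (A B : Ei) (t : ZMod 3), PS A →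
  PS B → (A ≠ B ∨ t ≠ 0) →
  ∀ T : ℕ, ∑ n ∈ SB T, mf (fun π => if xab A B π * ez (t * τ π) = 1 then 1 else 1 / 24) n ≤
    C * (lg (nrm A * nrm B)) ^ (1 / 3 : ℝ) * (T * (lg T) ^ (-(1 / 4) : ℝ))

/-- the labels of the large primes `S₁` with respect to the small primes `S₀` and to `Q` are not
degenerate, and the characters of `Q`, `nq`, `yq` are nontrivial at many large primes -/
def NdQ (Q : Finset Ei) (V : ℕ) (S₀ S₁ : Finset Ei) : Prop :=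
  NdN (S₀ ∪ Q) S₁ ∧ ∀ (f : Ei → ZMod 3) (t s : ZMod 3), ((∃ q ∈ Q, f q ≠ 0) ∨ t ≠ 0 ∨ s ≠ 0) →
    2 * (S₀ ∪ Q).card + V ≤
      (S₁.filter fun π => ∑ q ∈ Q, f q * cs q π + t * nq π + s * yq π ≠ 0).card

/-- **BADQ.** Few sets are degenerate.

Proof. If `¬ NdQ Q V (sm S) (la S)` then (i) `¬ NdN (sm S ∪ Q) (la S)`, or (ii) for one of the finitely many
`(f|_Q, t, s) ≠ 0` the number of the `π ∈ la S` with `∑_Q f q cs q π + t nq π + s yq π ≠ 0` is less than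
`2 #(sm S ∪ Q) + V`.
(i) as in `D0H10/L9D/Bad.lean` and `D0H69/L3K/Bad.lean` (`notNdB`, `pair_count`, `bad_count`, `gen`,
`hal (tau_ta hx)`), with `A, B ⊆ S₀ ∪ Q` (only `lg (nrm a * nrm b) ≤ lg (pN S₀ * pN Q) ≤ C lg (pN S₀)` and the
factor `4 ^ #Q` are new; the primes of `la S` have norm `> zz X ≥` all norms of `Q` for large `X`; for small
`X` take the constant so that ... or choose `Qp X S` false for small `X`: `Qp X S := X₁ ≤ X ∧ ...`).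
(ii) `A = ∏_{f q = 1} q`, `B = ∏_{f q = 2} q`, `τ = ta (t,s)` of `D0H10/L9D/Bad.lean` (if `(t,s) = 0` take any `τ`
and coefficient `0`). With `g` of `S_HALS`, `∏_{π ∈ la S} g π ≥ (1/24)^(2 #(S₀ ∪ Q) + V)`; by `fiber_le`
(`R419/KF/FewBad.lean`) `#F * (1/24)^(2#S₀ + 2#Q + V) ≤ ∑_{n ∈ SB (X/pN S₀)} mf g n`; so `S_GEN4` applies
with `a = 576`. -/
def S_BADQ : Prop := S_GEN4 → S_HALS → ∀ (Q : Finset Ei) (V : ℕ), (∀ q ∈ Q, Pq q) →
  ∀ ε : ℝ, 0 < ε → ∃ X₀ : ℕ, ∀ X : ℕ, X₀ ≤ X →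
  (((SG X).filter fun S => S.card ≤ Pool.Agent.Y703.CX.kk X ∧ ¬ NdQ Q V (sm (zz X) S) (la (zz X) S)).card : ℝ) ≤ ε * X

/-! ### the descriptions -/

/-- the condition for `λ^a ω^i ∏_S`, `a = 0, 1, 2` -/
def GG (a i : ZMod 3) (M S : Finset Ei) : Prop :=
  if a = 0 then
    (if i = 0 then (NtS M S → GdC (∑ π ∈ S, wt M π * yq π) M S) ∧ (¬ NtS M S → GdW M S)
      else GdP i 0 M S)
  else if a = 1 then GdG i (-1) i M S else GdP i 1 M S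

/-- the description of the condition `G` by a block system, with the row sums
`∑ wt M u β k u + x.1 γ k + x.2 δ k` up to one exception -/
def LocE (x : ZMod 3 × ZMod 3) (G : Finset Ei → Finset Ei → Prop) : Prop :=
  ∀ (ι : Type) [Fintype ι] [LinearOrder ι] (M S₀ : Finset Ei) (γ δ : ι → ZMod 3), M ⊆ S₀ →
  (∀ u ∈ S₀, Pq u) → S₀.card + 2 < Fintype.card ι → ∀ β : ι → S₀ → ZMod 3, LNB S₀ β γ δ →
  ∃ (U : Type) (_ : Fintype U) (A : U → U → ZMod 3) (B : U → ι → ZMod 3),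
    Fintype.card U ≤ S₀.card + 2 ∧ (∀ u v, A u v = A v u) ∧
    (∀ w : U → ZMod 3, (∃ u, w u ≠ 0) → ∃ k, ∑ u, w u * B u k ≠ 0) ∧
    (univ.filter fun k => ∑ u, B u k ≠ ∑ u : S₀, wt M u * β k u + x.1 * γ k + x.2 * δ k).card ≤ 1 ∧
    ∀ p, Tup S₀ γ δ p → (fun k => lb S₀ (p k)) = β →
      (G M (S₀ ∪ univ.image p) ↔
        GdA A B (Pool.Agent.Y703.XK.ext fun e : prs ι => cs (p e.1.1) (p e.1.2)))

/-- **LOCE.** Proof: `a = 1, 2` and `a = 0, i ≠ 0`: as in `D0H50/JL/BoxG.lean` (`loc_G`, matrices `Am`, `Bm`,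
`gdb_iff`) and `D0H50/JL/BoxC.lean` (`loc_P`, which works for `(r, s) ≠ (0, 0)`: use `t = w none * r`,
`s = w none * s`), only the clause on the row sums is new (no exception there).  `a = i = 0`: whether `NtS`
holds and the value of `∑ wt yq` are determined by `M, S₀, γ, δ` (as in `fy_cases`); take the matrices of
`loc_C` (row sums: one exception, the index `j0` of `sg j0`) or `loc_W`. -/
def S_LOCE : Prop := ∀ a i : ZMod 3, LocE (i, -a) (GG a i)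

/-- the exponents of the twist by `∏_{q ∈ Q} q ^ f q` -/
noncomputable def exq (Q : Finset Ei) (f : Ei → ZMod 3) (M S : Finset Ei) (q : Ei) : ZMod 3 :=
  (if q ∈ S then wt M q else 0) + (if q ∈ Q then f q else 0)

/-- its primes -/
noncomputable def Sf (Q : Finset Ei) (f : Ei → ZMod 3) (M S : Finset Ei) : Finset Ei :=
  (S ∪ Q).filter fun q => exq Q f M S q ≠ 0

/-- the primes with exponent `2` -/
noncomputable def Mf (Q : Finset Ei) (f : Ei → ZMod 3) (M S : Finset Ei) : Finset Ei :=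
  (S ∪ Q).filter fun q => exq Q f M S q = 2

/-- the same with labels at `S₀ ∪ Q` -/
def LocQ (Q : Finset Ei) (f : Ei → ZMod 3) (x : ZMod 3 × ZMod 3)
    (G : Finset Ei → Finset Ei → Prop) : Prop :=
  ∀ (ι : Type) [Fintype ι] [LinearOrder ι] (M S₀ : Finset Ei) (γ δ : ι → ZMod 3), M ⊆ S₀ →
  (∀ u ∈ S₀ ∪ Q, Pq u) → (S₀ ∪ Q).card + 2 < Fintype.card ι →
  ∀ β : ι → (S₀ ∪ Q : Finset Ei) → ZMod 3, LNB (S₀ ∪ Q) β γ δ →
  ∃ (U : Type) (_ : Fintype U) (A : U → U → ZMod 3) (B : U → ι → ZMod 3),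
    Fintype.card U ≤ (S₀ ∪ Q).card + 2 ∧ (∀ u v, A u v = A v u) ∧
    (∀ w : U → ZMod 3, (∃ u, w u ≠ 0) → ∃ k, ∑ u, w u * B u k ≠ 0) ∧
    (univ.filter fun k => ∑ u, B u k ≠
      ∑ u : (S₀ ∪ Q : Finset Ei), ((if (u : Ei) ∈ S₀ then wt M u else 0) +
        (if (u : Ei) ∈ Q then f u else 0)) * β k u + x.1 * γ k + x.2 * δ k).card ≤ 1 ∧
    ∀ p, Tup (S₀ ∪ Q) γ δ p → (fun k => lb (S₀ ∪ Q) (p k)) = β →
      (G M (S₀ ∪ univ.image p) ↔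
        GdA A B (Pool.Agent.Y703.XK.ext fun e : prs ι => cs (p e.1.1) (p e.1.2)))

/-- **TWI.** Proof: let `T = Sf Q f M S₀`, `M' = Mf Q f M S₀ ⊆ T ⊆ S₀ ∪ Q`, `wt M' q = exq Q f M S₀ q` on `T`;
for `p` avoiding `S₀ ∪ Q`: `Sf Q f M (S₀ ∪ image p) = T ∪ image p` and `Mf Q f M (S₀ ∪ image p) = M'`. Apply
`LocE` to `M', T` and the restriction of `β` to `T` (`LNB` of the restriction: extend by zero). -/
def S_TWI : Prop := ∀ (Q : Finset Ei) (f : Ei → ZMod 3) (x : ZMod 3 × ZMod 3)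
  (G : Finset Ei → Finset Ei → Prop), LocE x G →
  LocQ Q f x (fun M S => G (Mf Q f M S) (Sf Q f M S))

/-! ### the count (helper69) -/

/-- the count in a box -/
def SBoxQ (Q : Finset Ei) (c : ℝ) (G : Finset Ei → Finset Ei → Prop) : Prop :=
  ∀ ε : ℝ, 0 < ε → ∃ V₀ : ℕ, ∀ V : ℕ, V₀ ≤ V → ∀ (ι : Type) [Fintype ι] [LinearOrder ι]
  (C : ι → Finset Ei) (X : ι → ℕ) (κ : ℝ) (M S₀ : Finset Ei), M ⊆ S₀ → 0 ≤ κ →
  (∀ i, (C i).card ≤ X i) → HB C X κ → (∀ u ∈ S₀ ∪ Q, Pq u) →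
  (∀ i, ∀ π ∈ C i, Pq π ∧ π ∉ S₀ ∪ Q) → (∀ i l, i ≠ l → Disjoint (C i) (C l)) →
  (∀ i, ∀ π ∈ C i, ∀ ρ ∈ C i, nq π = nq ρ ∧ yq π = yq ρ) →
  |(((Fintype.piFinset C).filter fun p => NdQ Q V S₀ (univ.image p) ∧
      G M (S₀ ∪ univ.image p)).card : ℝ) -
      c * (((Fintype.piFinset C).filter fun p => NdQ Q V S₀ (univ.image p)).card : ℝ)| ≤
    ε * (((Fintype.piFinset C).filter fun p => NdQ Q V S₀ (univ.image p)).card : ℝ) +
    3 ^ ((S₀ ∪ Q).card * Fintype.card ι + (prs ι).card) * (κ * ∏ j, (X j : ℝ))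

/-- the sum over the boxes -/
def SKeyQ (Q : Finset Ei) (c : ℝ) (G : Finset Ei → Finset Ei → Prop) : Prop :=
  ∀ ε : ℝ, 0 < ε → ∃ V₀ : ℕ, ∀ V : ℕ, V₀ ≤ V → ∃ C : ℝ, 1 ≤ C ∧
  ∀ (M : Finset Ei) (X z H k N : ℕ) (κ : ℝ), (∀ q ∈ M, nrm q ≤ z) → (∀ q ∈ Q, Pq q ∧ nrm q ≤ z) →
  Q.card ≤ k → 1 ≤ X → 1 ≤ H → 1 ≤ z → 0 ≤ κ → C ≤ κ ^ 24 * z → (H : ℝ) * Real.log X < N →
  |(((RRU M X z H k V).filter fun S => NdQ Q V (sm z S) (la z S) ∧ G M S).card : ℝ) -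
      c * (((RRU M X z H k V).filter fun S => NdQ Q V (sm z S) (la z S)).card : ℝ)| ≤
    ε * ((RRU M X z H k V).card : ℝ) +
    (9 * N + 9 : ℝ) ^ k * (3 ^ (9 * k ^ 2 + 9) * κ) * (X * (1 + Real.log X))

/-- the asymptotics for one `M` -/
def SAsyQ (c : ℝ) (G : Finset Ei → Finset Ei → Prop) : Prop := ∀ (M : Finset Ei) (ε : ℝ),
  0 < ε → ∃ X₀ : ℕ, ∀ X : ℕ, X₀ ≤ X →
    |(((SU M X).filter fun S => G M S).card : ℝ) - c * ((SU M X).card : ℝ)| ≤ ε * X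

end Pool.Agent.D0H69.JT
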