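import Pool.Agent.D0H69.JT.StmA
import Pool.Agent.D0H50.JL.LimJ

/-!
# Project JT (helper69): statements of the arithmetic part
-/

set_option autoImplicit false
set_option linter.unusedVariables false

open scoped Classical

namespace Pool.Agent.D0H69.JT

open Finset NumberField
open Pool.Agent.Y692.QS (Ei w nr toC)
open Pool.Agent.Y715.T.RecG (Pq)
open Pool.Agent.Y715.T.Gi (lam)
open Pool.Agent.R419.KF (wt el)
open Pool.Agent.N883.FF (ClU FamE)
open Pool.Agent.Y696.CTK (Tri ED)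
open Pool.Agent.D0H10.KH (CFam sg)

/-- the twisting element `λ^α ω^ι ∏_Q q ^ f q` -/
noncomputable def TwE (Q : Finset Ei) (f : Ei → ZMod 3) (α ι : ZMod 3) : Ei :=
  lam ^ α.val * (w ^ ι.val * ∏ q ∈ Q, q ^ (f q).val)

/-- the element `λ^a ω^i el M S` -/
noncomputable def Del (a i : ZMod 3) (M S : Finset Ei) : Ei := lam ^ a.val * (w ^ i.val * el M S)

/-- **REP.** Every element is a cube times a twisting element.  (Induction on the norm or unique
factorization: `Ei` is a PID, the primes are, up to units, `lam` and the primary primes `Pq`; the units are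
`± w ^ k`, `-1 = (-1)^3`. Tools: `D0H10/KH/Cnt.lean` (`dec`), `N883/FF/Cnt.lean` (`fam_data`), which do it for
the cube-free elements; a nonzero element is a cube times a cube-free one.) -/
def S_REP : Prop := ∀ u : Ei, u ≠ 0 → ∃ (c : Ei) (α ι : ZMod 3) (Q : Finset Ei) (f : Ei → ZMod 3),
  c ≠ 0 ∧ (∀ q ∈ Q, Pq q) ∧ u = c ^ 3 * TwE Q f α ι

/-- **PROD.** Multiplication. (`val a + val b = val (a + b) + 3 k`, `w ^ 3 = 1`,
`el M S = ∏_{q ∈ S} q ^ (wt M q).val`, see the proof of `Pool.Agent.D0H50.JL.datt`.) -/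
def S_PROD : Prop := ∀ (Q : Finset Ei) (f : Ei → ZMod 3) (α ι a i : ZMod 3) (M S : Finset Ei),
  (∀ q ∈ Q, Pq q) → ClU M S → ClU (Mf Q f M S) (Sf Q f M S) ∧ ∃ c : Ei, c ≠ 0 ∧
    TwE Q f α ι * Del a i M S = c ^ 3 * Del (a + α) (i + ι) (Mf Q f M S) (Sf Q f M S)

/-- **CFU.** Cube-free elements. (a) the elements `Del` are in the family; (b) uniqueness of the
cube-free representative up to sign; (c) the elements of the family are not cubes times `λ^a ω^i`
(a prime divisor not associated to `lam` has multiplicity `1` or `2`). -/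
def S_CFU : Prop :=
  (∀ (a i : ZMod 3) (M S : Finset Ei), ClU M S → S.Nonempty →
    CFam (Del a i M S) ∧ FamE (w ^ i.val * el M S)) ∧
  (∀ D D' c d : Ei, CFam D → CFam D' → c ≠ 0 → d ≠ 0 → D * c ^ 3 = D' * d ^ 3 →
    D = D' ∨ D = -D') ∧
  (∀ D c d : Ei, CFam D → c ≠ 0 → d ≠ 0 → ∀ a i : ZMod 3,
    D * c ^ 3 ≠ d ^ 3 * (lam ^ a.val * w ^ i.val))

/-- **TRI.** The criterion: from `tri9`, `tri3`, `tri0` (`D0H10/KH/Cls.lean`), `triM`
(`D0H69/L0F/Cls.lean`), `tri_iff` (`R419.KF`), `tri_iffB` (`N883.FF`), with `Pool.Agent.D0H50.JL.datt`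
(`JL/Tot.lean`) and the translations of `D0H50/JL/EndJ.lean` (`KerN`, `KerT`, `KerB`, `KerM`, `Ker` versus
`GdG`, `GdP`, `GdC`, `GdW`). -/
def S_TRI : Prop := ∀ (K : Type) [Field K] [NumberField K] [IsCyclotomicExtension {3} ℚ K]
  (j : Ei ≃+* 𝓞 K), (∀ z : Ei, Algebra.norm ℤ (j z) = nr z) → ∀ (a i : ZMod 3) (M S : Finset Ei),
  ClU M S → S.Nonempty → (Tri (j (Del a i M S)) ↔ GG a i M S)

/-- **EXT1.** One cubic step. (For a generator `σ` of the Galois group of `L/k` and `P ∈ E_D(L)` the points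
`∑_k [ω]^(-i k) σ^k P` correspond to points of `E_D`, `E_(uD)`, `E_(u²D)` over `k` by
`(x, y) ↦ (c² x, c³ y)`, `c = θ^i`, and their sum over `i` is `3 P`; adapt `Y710/CTE/{Mwf,MwfA}.lean`, which
is the case `D = 1`; `[L : k]` may also be `1`: then `θ ∈ k` up to ... and the claim is trivial.) -/
def S_EXT1 : Prop := ∀ (k L : Type) [Field k] [NumberField k] [Field L] [NumberField L] [Algebra k L]
  (i₀ : k) (θ : L) (u D : k), i₀ ^ 2 + i₀ + 1 = 0 → u ≠ 0 → θ ^ 3 = algebraMap k L u →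
  IntermediateField.adjoin k {θ} = ⊤ → D ≠ 0 →
  Finite (ED D).toAffine.Point → Finite (ED (u * D)).toAffine.Point →
  Finite (ED (u ^ 2 * D)).toAffine.Point → Finite (ED (algebraMap k L D)).toAffine.Point

/-- **EXT3.** Isomorphic curves. -/
def S_EXT3 : Prop := ∀ (k : Type) [Field k] (D c : k), c ≠ 0 → D ≠ 0 →
  Finite (ED D).toAffine.Point → Finite (ED (c ^ 3 * D)).toAffine.Point

/-- **EXT2.** The tower. Choose `x₁, ..., x_r ∈ S` with `x_(i+1) ∉ F_i = K(x₁, ..., x_i)`, `F_r = F`; then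
`[F_(i+1) : F_i] = 3` (`X³ - u` without root in a field containing the third roots of unity is
irreducible), `κ = Fin r → ZMod 3`, `u_e = ∏ u_i ^ (e_i).val`; finiteness by `S_EXT1` along the tower (the
curves with parameter `(∏_{l > i} u_l^(e_l)) D` over `F_i`), using `S_EXT3` to reduce exponents modulo `3`;
if `u_e = u_e' c³` with `e ≠ e'`, take the last index with `e_i ≠ e'_i`: `x_i ^ (±1)` is in `F_(i-1)`. -/
def S_EXT2 : Prop := S_EXT1 → S_EXT3 → ∀ (K F : Type) [Field K] [NumberField K] [Field F]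
  [NumberField F] [Algebra K F] (i₀ : K), i₀ ^ 2 + i₀ + 1 = 0 → ∀ S : Set F,
  (∀ x ∈ S, ∃ u : K, x ^ 3 = algebraMap K F u) → IntermediateField.adjoin K S = ⊤ →
  ∃ (κ : Type) (_ : Fintype κ) (u : κ → K), (∀ e, u e ≠ 0) ∧
    (∀ e e', e ≠ e' → ∀ c : K, u e ≠ u e' * c ^ 3) ∧ Fintype.card κ = Module.finrank K F ∧
    ∀ D : K, D ≠ 0 → (∀ e, Finite (ED (u e * D)).toAffine.Point) →
      Finite (ED (algebraMap K F D)).toAffine.Point

end Pool.Agent.D0H69.JT
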